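import Pool.Agent.MnR.Dgt

/-! Counting close tuples. -/

set_option autoImplicit false

namespace Pool.Agent.MnR

open Finset Pool.Agent.TwR

variable {g : ℕ} {β : ℝ} {m u J M : ℕ → ℕ} {k0 : ℕ}

-- BEGIN dep1
theorem rr_le (h : Params g β m u J M k0) (k l : ℕ) : 1 ≤ rr g k l ∧ rr g k l ≤ g := by
  have := h.g1
  unfold rr
  split_ifs <;> omega

theorem lo_sq (k l j : ℕ) (hj : lo k l ≤ j) : k ^ 2 ≤ 2 * j ^ 2 := by
  have h1 : Nat.sqrt (k ^ 2 / 2) + 1 ≤ j := le_trans (le_max_right _ _) hj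
  have h2 : k ^ 2 / 2 < (Nat.sqrt (k ^ 2 / 2) + 1) ^ 2 := by
    have := Nat.lt_succ_sqrt (k ^ 2 / 2)
    rw [pow_two (Nat.sqrt (k ^ 2 / 2) + 1)]
    exact this
  have h3 : (Nat.sqrt (k ^ 2 / 2) + 1) ^ 2 ≤ j ^ 2 := Nat.pow_le_pow_left h1 2
  omega

theorem zero_not_dep {r : ℕ} (p : Fin (r + 1) → ℕ) (j : ℕ) : ¬ Dep m p j 0 := by
  rintro ⟨a, _, h0, hne, _⟩
  exact hne h0

/-- PROOF. For `i = 1` only `a 1 ≠ 0`: `|log p 1 - log p 0| < 2^(m j r) / QQ m j ≤ 1 / 2^(u k + 2)`, against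
`log_Pr_ne`. So `Ds` is contained in the indices `≥ 2`. -/
theorem Ds_card_lt (h : Params g β m u J M k0) {k l : ℕ} (hl0 : k0 ≤ l) (hl : l < J k)
    {x : Tu (rr g k l)} (hx : x ∈ Tp u (rr g k l) k l) : (Ds m J k l x.1).card < rr g k l := by
  classical
  obtain ⟨hr1, hrg⟩ := rr_le h k l
  have hk0 : k0 ≤ k := by
    have := h.Jk k
    omega
  have hx' := Finset.mem_filter.1 hx
  have hinj : Function.Injective x.1 := hx'.2.1
  have hPr : ∀ i, x.1 i ∈ Pr (u k) := by
    intro i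
    exact Fintype.mem_piFinset.1 (Finset.mem_product.1 hx'.1).1 i
  let i1 : Fin (rr g k l + 1) := ⟨1, by omega⟩
  have hi1 : (i1 : ℕ) = 1 := rfl
  have h01 : i1 ≠ 0 := by
    intro he
    have := congrArg Fin.val he
    simp [i1] at this
  have hnot : i1 ∉ Ds m J k l x.1 := by
    intro hmem
    obtain ⟨j, hj1, hj2, a, ha1, ha0, hane, _, hlt⟩ := (Finset.mem_filter.1 hmem).2
    have hsum : ∑ s, (a s : ℝ) * (Real.log (x.1 s) - Real.log (x.1 0)) =
        (a i1 : ℝ) * (Real.log (x.1 i1) - Real.log (x.1 0)) := by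
      apply Finset.sum_eq_single i1
      · intro s _ hs
        by_cases hs0 : s = 0
        · rw [hs0, ha0]
          simp
        · have : i1 < s := by
            rw [Fin.lt_def, hi1]
            have e1 : (s : ℕ) ≠ 0 := fun e => hs0 (Fin.ext e)
            have e2 : (s : ℕ) ≠ 1 := fun e => hs (Fin.ext e)
            omega
          rw [ha1 s this]
          simp
      · intro hn
        exact absurd (Finset.mem_univ _) hn
    rw [hsum, abs_mul] at hlt
    have hone : (1 : ℝ) ≤ |(a i1 : ℝ)| := by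
      have : (1 : ℤ) ≤ |a i1| := Int.one_le_abs hane
      exact_mod_cast this
    have hL := log_Pr_ne (hPr i1) (hPr 0) (fun e => h01 (hinj e))
    have hbig := h.big k j hk0 (lo_sq k l j hj1) hj2
    have hQ : 0 < QQ m j := lt_of_lt_of_le (by positivity) hbig
    have hle : (2 : ℝ) ^ (m j * rr g k l) / QQ m j ≤ 1 / 2 ^ (u k + 2) := by
      rw [div_le_div_iff₀ hQ (by positivity), one_mul]
      refine le_trans ?_ hbig
      rw [← pow_add]
      apply pow_le_pow_right₀ (by norm_num)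
      have := Nat.mul_le_mul_left (m j) hrg
      omega
    have hlt2 : (1 : ℝ) / 2 ^ (u k + 2) < 1 / 2 ^ u k := by
      apply one_div_lt_one_div_of_lt (by positivity)
      exact pow_lt_pow_right₀ (by norm_num) (by omega)
    have h3 : |Real.log (x.1 i1) - Real.log (x.1 0)| ≤
        |(a i1 : ℝ)| * |Real.log (x.1 i1) - Real.log (x.1 0)| :=
      le_mul_of_one_le_left (abs_nonneg _) hone
    linarith
  have hnot0 : (0 : Fin (rr g k l + 1)) ∉ Ds m J k l x.1 := by
    intro hmem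
    obtain ⟨j, _, _, hd⟩ := (Finset.mem_filter.1 hmem).2
    exact zero_not_dep x.1 j hd
  have hsub : Ds m J k l x.1 ⊆ (Finset.univ.erase (0 : Fin (rr g k l + 1))).erase i1 := by
    intro i hi
    rw [Finset.mem_erase, Finset.mem_erase]
    exact ⟨fun e => hnot (e ▸ hi), fun e => hnot0 (e ▸ hi), Finset.mem_univ _⟩
  have hcard := Finset.card_le_card hsub
  rw [Finset.card_erase_of_mem (by rw [Finset.mem_erase]; exact ⟨h01, Finset.mem_univ _⟩),
    Finset.card_erase_of_mem (Finset.mem_univ _), Finset.card_univ, Fintype.card_fin] at hcard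
  omega

-- END dep1

-- BEGIN dep2
/-- a dependent prime is determined by the previous ones, the level and the relation -/
theorem dep_unique (h : Params g β m u J M k0) {k j r : ℕ} (hr : r ≤ g) (hk : k0 ≤ k)
    (hj : k ^ 2 ≤ 2 * j ^ 2) (hjJ : j < J k) {p q : Fin (r + 1) → ℕ} (hp : ∀ i, p i ∈ Pr (u k))
    (hq : ∀ i, q i ∈ Pr (u k)) {i : Fin (r + 1)} (hpq : ∀ s, s < i → p s = q s)
    {a : Fin (r + 1) → ℤ} (ha : ∀ s, i < s → a s = 0) (hai : a i ≠ 0) (hi : i ≠ 0)
    (h1 : |∑ s, (a s : ℝ) * (Real.log (p s) - Real.log (p 0))| < 2 ^ (m j * r) / QQ m j)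
    (h2 : |∑ s, (a s : ℝ) * (Real.log (q s) - Real.log (q 0))| < 2 ^ (m j * r) / QQ m j) :
    p i = q i := by
  by_contra hne
  have h0 : p 0 = q 0 := hpq 0 (Fin.pos_iff_ne_zero.2 hi)
  have hdiff : (∑ s, (a s : ℝ) * (Real.log (p s) - Real.log (p 0))) -
      ∑ s, (a s : ℝ) * (Real.log (q s) - Real.log (q 0)) =
      (a i : ℝ) * (Real.log (p i) - Real.log (q i)) := by
    rw [← Finset.sum_sub_distrib, Finset.sum_eq_single i]
    · rw [h0]; ring
    · intro s _ hsi
      rcases lt_or_gt_of_ne hsi with hlt | hgt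
      · rw [hpq s hlt, h0]; ring
      · rw [ha s hgt]; simp
    · intro hh; exact absurd (Finset.mem_univ i) hh
  have hb := h.big k j hk hj hjJ
  have hQ : 0 < QQ m j := QQ_pos m j
  have hlog := log_Pr_ne (hp i) (hq i) hne
  have hai' : (1 : ℝ) ≤ |(a i : ℝ)| := by
    have : 1 ≤ |a i| := Int.one_le_abs hai
    exact_mod_cast this
  have habs : |(a i : ℝ) * (Real.log (p i) - Real.log (q i))| <
      2 ^ (m j * r) / QQ m j + 2 ^ (m j * r) / QQ m j := by
    rw [← hdiff]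
    exact lt_of_le_of_lt (abs_sub _ _) (add_lt_add h1 h2)
  rw [abs_mul] at habs
  have h3 : |Real.log (p i) - Real.log (q i)| ≤
      |(a i : ℝ)| * |Real.log (p i) - Real.log (q i)| :=
    le_mul_of_one_le_left (abs_nonneg _) hai'
  have h4 : (2 : ℝ) ^ (m j * r) / QQ m j ≤ 1 / (4 * 2 ^ (u k)) := by
    rw [div_le_div_iff₀ hQ (by positivity)]
    have h5 : (2 : ℝ) ^ (m j * r) ≤ 2 ^ (m j * g) :=
      pow_le_pow_right₀ (by norm_num) (Nat.mul_le_mul_left _ hr)
    have h6 : (2 : ℝ) ^ (u k + 2 + m j * g) = 2 ^ (m j * g) * (4 * 2 ^ (u k)) := by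
      rw [pow_add, pow_add]; ring
    calc (2 : ℝ) ^ (m j * r) * (4 * 2 ^ (u k)) ≤ 2 ^ (m j * g) * (4 * 2 ^ (u k)) :=
          mul_le_mul_of_nonneg_right h5 (by positivity)
      _ = 2 ^ (u k + 2 + m j * g) := h6.symm
      _ ≤ 1 * QQ m j := by rw [one_mul]; exact hb
  have h7 : (1 : ℝ) / (4 * 2 ^ (u k)) + 1 / (4 * 2 ^ (u k)) < 1 / 2 ^ (u k) := by
    have h8 : (0 : ℝ) < 1 / 2 ^ (u k) := by positivity
    have h9 : (1 : ℝ) / (4 * 2 ^ (u k)) = (1 / 2 ^ (u k)) / 4 := by
      field_simp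
    rw [h9]; linarith
  linarith
-- END dep2

-- BEGIN fac
/-- closeness determines `v` from `p` -/
theorem clo_unique (h : Params g β m u J M k0) {l : ℕ} (hl0 : k0 ≤ l) {p v v' : ℕ} {z : ℝ}
    (hv : v ∈ Pr (u l)) (hv' : v' ∈ Pr (u l))
    (h1 : |Real.log p + Real.log v - z| ≤ 1 / (4 * QQ m (J l)))
    (h2 : |Real.log p + Real.log v' - z| ≤ 1 / (4 * QQ m (J l))) : v = v' := by
  by_contra hne
  have h3 := log_Pr_ne hv hv' hne
  have hQ := QQ_pos m (J l)
  have h4 := h.inj l hl0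
  have h5 : |Real.log v - Real.log v'| ≤ 1 / (4 * QQ m (J l)) + 1 / (4 * QQ m (J l)) := by
    have h6 : Real.log v - Real.log v' = (Real.log p + Real.log v - z) - (Real.log p + Real.log v' - z) := by ring
    rw [h6]
    exact (abs_sub _ _).trans (add_le_add h1 h2)
  have h7 : (0 : ℝ) < 2 ^ (u l) := by positivity
  have h8 : (1 : ℝ) / (4 * QQ m (J l)) + 1 / (4 * QQ m (J l)) < 1 / 2 ^ (u l) := by
    have h9 : (1 : ℝ) / (4 * QQ m (J l)) + 1 / (4 * QQ m (J l)) = 1 / (2 * QQ m (J l)) := by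
      field_simp
      norm_num
    rw [h9]
    apply one_div_lt_one_div_of_lt h7
    have h10 : (2 : ℝ) ^ (u l + 2) = 4 * 2 ^ (u l) := by ring
    rw [h10] at h4
    linarith
  linarith

/-- the product determines both primes -/
theorem fac_unique (h : Params g β m u J M k0) {k l : ℕ} (hl0 : k0 ≤ l) (hlk : l < k)
    {p p' v v' : ℕ} (hp : p ∈ Pr (u k)) (hp' : p' ∈ Pr (u k)) (hv : v ∈ Pr (u l))
    (hv' : v' ∈ Pr (u l)) (he : p * v = p' * v') : p = p' ∧ v = v' := by
  have hpp : p.Prime := (Finset.mem_filter.1 hp).2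
  have hpp' : p'.Prime := (Finset.mem_filter.1 hp').2
  have hvp' : v'.Prime := (Finset.mem_filter.1 hv').2
  have hplo : 2 ^ (u k - 2) < p := (Finset.mem_Ioc.1 (Finset.mem_filter.1 hp).1).1
  have hvhi : v' ≤ 2 ^ (u l) := (Finset.mem_Ioc.1 (Finset.mem_filter.1 hv').1).2
  have hu := h.um l k hl0 hlk
  have hpow : 2 ^ (u l) ≤ 2 ^ (u k - 2) := Nat.pow_le_pow_right (by norm_num) (by omega)
  have hdvd : p ∣ p' * v' := ⟨v, he.symm⟩
  have hpeq : p = p' := by
    rcases (hpp.dvd_mul).1 hdvd with h1 | h1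
    · exact (Nat.prime_dvd_prime_iff_eq hpp hpp').1 h1
    · have h2 := (Nat.prime_dvd_prime_iff_eq hpp hvp').1 h1
      omega
  refine ⟨hpeq, ?_⟩
  subst hpeq
  exact Nat.eq_of_mul_eq_mul_left hpp.pos he

/-- the difference of the products is a nonzero integer of size at most `Y` (`log_le` with
`N = 2^(u k + u l)`) -/
theorem diff_le (h : Params g β m u J M k0) {k l : ℕ} (hl0 : k0 ≤ l) (hlk : l < k)
    {p p' v v' : ℕ} (hp : p ∈ Pr (u k)) (hp' : p' ∈ Pr (u k)) (hv : v ∈ Pr (u l))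
    (hv' : v' ∈ Pr (u l)) (hne : p ≠ p')
    (hc : |Real.log p + Real.log v - (Real.log p' + Real.log v')| ≤ 1 / (4 * QQ m (J l))) :
    ((p * v : ℕ) : ℤ) - (p' * v' : ℕ) ≠ 0 ∧
      |(((p * v : ℕ) : ℤ) - (p' * v' : ℕ) : ℤ)| ≤ ⌊(2 : ℝ) ^ (u k + u l) / (4 * QQ m (J l))⌋ := by
  have hpp : p.Prime := (Finset.mem_filter.1 hp).2
  have hpp' : p'.Prime := (Finset.mem_filter.1 hp').2
  have hvp : v.Prime := (Finset.mem_filter.1 hv).2
  have hvp' : v'.Prime := (Finset.mem_filter.1 hv').2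
  have hphi : p ≤ 2 ^ (u k) := (Finset.mem_Ioc.1 (Finset.mem_filter.1 hp).1).2
  have hphi' : p' ≤ 2 ^ (u k) := (Finset.mem_Ioc.1 (Finset.mem_filter.1 hp').1).2
  have hvhi : v ≤ 2 ^ (u l) := (Finset.mem_Ioc.1 (Finset.mem_filter.1 hv).1).2
  have hvhi' : v' ≤ 2 ^ (u l) := (Finset.mem_Ioc.1 (Finset.mem_filter.1 hv').1).2
  refine ⟨?_, ?_⟩
  · intro h0
    have h1 : p * v = p' * v' := by
      have h2 : ((p * v : ℕ) : ℤ) = ((p' * v' : ℕ) : ℤ) := by linarith
      exact_mod_cast h2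
    exact hne (fac_unique h hl0 hlk hp hp' hv hv' h1).1
  · rw [Int.le_floor]
    have hN1 : p * v ≤ 2 ^ (u k + u l) := by
      rw [pow_add]
      exact Nat.mul_le_mul hphi hvhi
    have hN2 : p' * v' ≤ 2 ^ (u k + u l) := by
      rw [pow_add]
      exact Nat.mul_le_mul hphi' hvhi'
    have h1 := log_le (Nat.mul_pos hpp.pos hvp.pos) (Nat.mul_pos hpp'.pos hvp'.pos) hN1 hN2
    have hlog : Real.log ((p * v : ℕ) : ℝ) - Real.log ((p' * v' : ℕ) : ℝ) =
        Real.log p + Real.log v - (Real.log p' + Real.log v') := by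
      push_cast
      rw [Real.log_mul (by exact_mod_cast hpp.ne_zero) (by exact_mod_cast hvp.ne_zero),
        Real.log_mul (by exact_mod_cast hpp'.ne_zero) (by exact_mod_cast hvp'.ne_zero)]
    rw [hlog] at h1
    have h2 : (((2 ^ (u k + u l) : ℕ) : ℝ)) = (2 : ℝ) ^ (u k + u l) := by push_cast; rfl
    rw [h2] at h1
    have h3 : (2 : ℝ) ^ (u k + u l) * |Real.log p + Real.log v - (Real.log p' + Real.log v')| ≤
        (2 : ℝ) ^ (u k + u l) * (1 / (4 * QQ m (J l))) := mul_le_mul_of_nonneg_left hc (by positivity)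
    have h4 : ((|(((p * v : ℕ) : ℤ) - (p' * v' : ℕ) : ℤ)| : ℤ) : ℝ) = |((p * v : ℕ) : ℝ) - ((p' * v' : ℕ) : ℝ)| := by
      push_cast
      rfl
    rw [h4, div_eq_mul_one_div]
    exact h1.trans h3
-- END fac

-- BEGIN cnt
/-- the data of a dependent index -/
private def cnt_P (m J : ℕ → ℕ) (k l : ℕ) {r : ℕ} (p : Fin (r + 1) → ℕ) (i : Fin (r + 1))
    (d : ℕ × (Fin (r + 1) → ℤ)) : Prop :=
  lo k l ≤ d.1 ∧ d.1 < J k ∧ (∀ s, i < s → d.2 s = 0) ∧ d.2 0 = 0 ∧ d.2 i ≠ 0 ∧
    (∀ s, |d.2 s| ≤ 2 ^ m d.1) ∧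
    |∑ s, (d.2 s : ℝ) * (Real.log (p s) - Real.log (p 0))| < 2 ^ (m d.1 * r) / QQ m d.1

private theorem cnt_P_ex (m J : ℕ → ℕ) (k l : ℕ) {r : ℕ} (p : Fin (r + 1) → ℕ) (i : Fin (r + 1))
    (hi : i ∈ Ds m J k l p) : ∃ d, cnt_P m J k l p i d := by
  classical
  unfold Ds at hi
  obtain ⟨-, j, h1, h2, a, h3, h4, h5, h6, h7⟩ := Finset.mem_filter.1 hi
  exact ⟨(j, a), h1, h2, h3, h4, h5, h6, h7⟩

/-- the chosen data of a dependent index -/
private noncomputable def cnt_D (m J : ℕ → ℕ) (k l : ℕ) {r : ℕ} (p : Fin (r + 1) → ℕ) (i : Fin (r + 1)) :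
    ℕ × (Fin (r + 1) → ℤ) := Classical.epsilon (cnt_P m J k l p i)

private theorem cnt_D_spec (m J : ℕ → ℕ) (k l : ℕ) {r : ℕ} (p : Fin (r + 1) → ℕ) (i : Fin (r + 1))
    (hi : i ∈ Ds m J k l p) : cnt_P m J k l p i (cnt_D m J k l p i) :=
  Classical.epsilon_spec (cnt_P_ex m J k l p i hi)

open Classical in
/-- the code of a tuple -/
private noncomputable def cnt_F (m J : ℕ → ℕ) (k l : ℕ) {r : ℕ} (T : Finset (Fin (r + 1))) (x : Tu r) :
    (ℕ × ℕ) × (Fin (r + 1) → ℤ × (ℕ × (Fin (r + 1) → ℤ))) :=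
  ((x.1 0, x.2 0), fun i => if i ∈ T then (0, cnt_D m J k l x.1 i) else if i = 0 then (0, (0, 0)) else
    (((x.1 i * x.2 i : ℕ) : ℤ) - (x.1 0 * x.2 0 : ℕ), (0, 0)))

open Classical in
/-- the possible data -/
private noncomputable def cnt_B (m : ℕ → ℕ) (k : ℕ) {r : ℕ} (T : Finset (Fin (r + 1))) (Y : ℤ) (i : Fin (r + 1)) :
    Finset (ℤ × (ℕ × (Fin (r + 1) → ℤ))) :=
  if i ∈ T then {0} ×ˢ (range k ×ˢ Fintype.piFinset fun _ => Finset.Icc (-(2 ^ m k : ℤ)) (2 ^ m k))
  else if i = 0 then {(0, (0, 0))} else ((Finset.Icc (-Y) Y).erase 0) ×ˢ {(0, 0)}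

private theorem cnt_card_B (m : ℕ → ℕ) (k : ℕ) {r : ℕ} {T : Finset (Fin (r + 1))} (h0 : (0 : Fin (r + 1)) ∉ T) {Y : ℤ}
    (hY : 0 ≤ Y) :
    ((∏ i, (cnt_B m k T Y i).card : ℕ) : ℝ) = (2 * (Y : ℝ)) ^ (r - T.card) *
      ((k : ℝ) * (2 * 2 ^ m k + 1) ^ (r + 1)) ^ T.card := by
  classical
  have hA : ∀ i ∈ T, ((cnt_B m k T Y i).card : ℝ) = (k : ℝ) * (2 * 2 ^ m k + 1) ^ (r + 1) := by
    intro i hi
    unfold cnt_B
    rw [if_pos hi, Finset.card_product, Finset.card_product, Finset.card_singleton, Finset.card_range,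
      Fintype.card_piFinset, one_mul]
    simp only [Int.card_Icc, Finset.prod_const, Finset.card_univ, Fintype.card_fin]
    have h1 : ((2 ^ m k : ℤ) + 1 - -(2 ^ m k : ℤ)).toNat = 2 * 2 ^ m k + 1 := by
      have h2 : (2 ^ m k : ℤ) + 1 - -(2 ^ m k : ℤ) = ((2 * 2 ^ m k + 1 : ℕ) : ℤ) := by
        push_cast
        ring
      rw [h2, Int.toNat_natCast]
    rw [h1]
    push_cast
    ring
  have hB : ∀ i ∈ (univ \ T).erase 0, ((cnt_B m k T Y i).card : ℝ) = 2 * (Y : ℝ) := by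
    intro i hi
    rw [Finset.mem_erase, Finset.mem_sdiff] at hi
    unfold cnt_B
    rw [if_neg hi.2.2, if_neg hi.1, Finset.card_product, Finset.card_singleton, mul_one,
      Finset.card_erase_of_mem (Finset.mem_Icc.2 ⟨by omega, hY⟩), Int.card_Icc]
    have h1 : (Y + 1 - -Y).toNat - 1 = (2 * Y).toNat := by omega
    rw [h1]
    have h2 : (((2 * Y).toNat : ℤ) : ℝ) = ((2 * Y : ℤ) : ℝ) := by rw [Int.toNat_of_nonneg (by omega)]
    rw [← Int.cast_natCast, h2]
    push_cast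
    rfl
  have hC : ((cnt_B m k T Y 0).card : ℝ) = 1 := by
    unfold cnt_B
    rw [if_neg h0, if_pos rfl, Finset.card_singleton]
    norm_num
  have h0' : (0 : Fin (r + 1)) ∈ (univ : Finset (Fin (r + 1))) \ T := Finset.mem_sdiff.2 ⟨Finset.mem_univ _, h0⟩
  push_cast
  rw [← Finset.prod_sdiff (Finset.subset_univ T), Finset.prod_congr rfl hA, Finset.prod_const,
    ← Finset.mul_prod_erase _ _ h0', hC, one_mul, Finset.prod_congr rfl hB, Finset.prod_const]
  have hcard : ((univ \ T).erase (0 : Fin (r + 1))).card = r - T.card := by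
    rw [Finset.card_erase_of_mem h0', Finset.card_sdiff_of_subset (Finset.subset_univ T), Finset.card_univ,
      Fintype.card_fin]
    omega
  rw [hcard]

private theorem cnt_Pr_card (n : ℕ) : ((Pr n).card : ℝ) ≤ 2 ^ n := by
  have h1 : (Pr n).card ≤ 2 ^ n := by
    unfold Pr
    refine (Finset.card_filter_le _ _).trans ?_
    rw [Nat.card_Ioc]
    exact Nat.sub_le _ _
  exact_mod_cast h1

open Classical in
/-- PROOF. The tuple is determined by `p 0`, `v 0` and, for `i ≠ 0`: if `i ∉ T` by the integer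
`p i * v i - p 0 * v 0` (`diff_le`, `fac_unique`), which is nonzero and at most
`⌊2^(u k + u l) / (4 QQ m (J l))⌋` in absolute value; if `i ∈ T` by a level `j < k` and a vector
`a : Fin (r+1) → ℤ` with entries at most `2 ^ m k` (`dep_unique`, then `clo_unique`). Strong induction on
`i`; card of a product. For `T` with `0 ∈ T` the set is empty. -/
theorem count_T (h : Params g β m u J M k0) {k l : ℕ} (hl0 : k0 ≤ l) (hl : l < J k)
    (T : Finset (Fin (rr g k l + 1))) :
    (((Tp u (rr g k l) k l).filter (fun x => Clo m J l x ∧ Ds m J k l x.1 = T)).card : ℝ) ≤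
      (Pr (u k)).card * ((2 : ℝ) ^ u l * (2 ^ (u k + u l) / (2 * QQ m (J l))) ^ (rr g k l - T.card) *
        ((k : ℝ) * (2 * 2 ^ m k + 1) ^ (rr g k l + 1)) ^ T.card) := by
  have hlk : l < k := lt_of_lt_of_le hl (h.Jk k)
  have hk0 : k0 ≤ k := by omega
  have hrg := (rr_le h k l).2
  have hQ := QQ_pos m (J l)
  by_cases h0 : (0 : Fin (rr g k l + 1)) ∈ T
  · have he : (Tp u (rr g k l) k l).filter (fun x => Clo m J l x ∧ Ds m J k l x.1 = T) = ∅ := by
      rw [Finset.filter_eq_empty_iff]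
      rintro x - ⟨-, h2⟩
      rw [← h2] at h0
      unfold Ds at h0
      obtain ⟨-, j, -, -, h3⟩ := Finset.mem_filter.1 h0
      exact zero_not_dep x.1 j h3
    rw [he, Finset.card_empty, Nat.cast_zero]
    positivity
  · have hmmono : ∀ a b, a ≤ b → m a ≤ m b := by
      intro a b hab
      induction b, hab using Nat.le_induction with
      | base => exact le_rfl
      | succ b _ ih => have := h.m2 b; omega
    obtain ⟨Y, hYdef⟩ : ∃ Y : ℤ, Y = ⌊(2 : ℝ) ^ (u k + u l) / (4 * QQ m (J l))⌋ := ⟨_, rfl⟩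
    have hY0 : 0 ≤ Y := by
      rw [hYdef]
      exact Int.floor_nonneg.2 (by positivity)
    have hYle : 2 * (Y : ℝ) ≤ 2 ^ (u k + u l) / (2 * QQ m (J l)) := by
      have h1 : (Y : ℝ) ≤ (2 : ℝ) ^ (u k + u l) / (4 * QQ m (J l)) := by
        rw [hYdef]
        exact Int.floor_le _
      calc 2 * (Y : ℝ) ≤ 2 * ((2 : ℝ) ^ (u k + u l) / (4 * QQ m (J l))) := by linarith
        _ = 2 ^ (u k + u l) / (2 * QQ m (J l)) := by
          field_simp
          norm_num
    have hmem : ∀ x ∈ (Tp u (rr g k l) k l).filter (fun x => Clo m J l x ∧ Ds m J k l x.1 = T),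
        (∀ i, x.1 i ∈ Pr (u k)) ∧ (∀ i, x.2 i ∈ Pr (u l)) ∧ Function.Injective x.1 ∧ Clo m J l x ∧ Ds m J k l x.1 = T := by
      intro x hx
      rw [Finset.mem_filter] at hx
      obtain ⟨h1, h2, h3⟩ := hx
      unfold Tp at h1
      rw [Finset.mem_filter, Finset.mem_product, Fintype.mem_piFinset, Fintype.mem_piFinset] at h1
      exact ⟨h1.1.1, h1.1.2, h1.2.1, h2, h3⟩
    have hle : ((Tp u (rr g k l) k l).filter (fun x => Clo m J l x ∧ Ds m J k l x.1 = T)).card ≤
        ((Pr (u k) ×ˢ Pr (u l)) ×ˢ Fintype.piFinset (cnt_B m k T Y)).card := by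
      refine Finset.card_le_card_of_injOn (cnt_F m J k l T) ?_ ?_
      · intro x hx
        obtain ⟨h1, h2, h3, h4, h5⟩ := hmem x hx
        rw [Finset.mem_coe, Finset.mem_product, Finset.mem_product, Fintype.mem_piFinset]
        refine ⟨⟨h1 0, h2 0⟩, fun i => ?_⟩
        unfold cnt_F cnt_B
        dsimp only
        by_cases hi : i ∈ T
        · rw [if_pos hi, if_pos hi]
          obtain ⟨e1, e2, -, -, -, e6, -⟩ := cnt_D_spec m J k l x.1 i (by rw [h5]; exact hi)
          have e7 : (cnt_D m J k l x.1 i).1 < k := lt_of_lt_of_le e2 (h.Jk k)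
          rw [Finset.mem_product, Finset.mem_product]
          refine ⟨Finset.mem_singleton.2 rfl, Finset.mem_range.2 e7, ?_⟩
          rw [Fintype.mem_piFinset]
          intro s
          have e8 : |(cnt_D m J k l x.1 i).2 s| ≤ 2 ^ m k :=
            (e6 s).trans (pow_le_pow_right₀ (by norm_num) (hmmono _ _ e7.le))
          rw [Finset.mem_Icc]
          exact abs_le.1 e8
        · rw [if_neg hi, if_neg hi]
          by_cases hi0 : i = 0
          · rw [if_pos hi0, if_pos hi0]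
            exact Finset.mem_singleton.2 rfl
          · rw [if_neg hi0, if_neg hi0]
            have e1 := diff_le h hl0 hlk (h1 i) (h1 0) (h2 i) (h2 0) (fun e => hi0 (h3 e)) (h4 i)
            rw [← hYdef] at e1
            rw [Finset.mem_product, Finset.mem_erase, Finset.mem_Icc]
            exact ⟨⟨e1.1, abs_le.1 e1.2⟩, Finset.mem_singleton.2 rfl⟩
      · intro x hx y hy hxy
        obtain ⟨h1, h2, h3, h4, h5⟩ := hmem x hx
        obtain ⟨g1, g2, g3, g4, g5⟩ := hmem y hy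
        have hz : x.1 0 = y.1 0 ∧ x.2 0 = y.2 0 := by
          have h6 := congrArg Prod.fst hxy
          exact ⟨congrArg Prod.fst h6, congrArg Prod.snd h6⟩
        have hd : ∀ i, (cnt_F m J k l T x).2 i = (cnt_F m J k l T y).2 i := fun i => by rw [hxy]
        have hmain : ∀ n : ℕ, ∀ i : Fin (rr g k l + 1), (i : ℕ) = n → x.1 i = y.1 i ∧ x.2 i = y.2 i := by
          intro n
          induction n using Nat.strong_induction_on with
          | _ n ih =>
            intro i hin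
            have hdi := hd i
            unfold cnt_F at hdi
            dsimp only at hdi
            by_cases hi0 : i = 0
            · rw [hi0]; exact hz
            by_cases hi : i ∈ T
            · rw [if_pos hi, if_pos hi] at hdi
              have hD : cnt_D m J k l x.1 i = cnt_D m J k l y.1 i := congrArg Prod.snd hdi
              obtain ⟨e1, e2, e3, e4, e5, e6, e7⟩ := cnt_D_spec m J k l x.1 i (by rw [h5]; exact hi)
              obtain ⟨-, -, -, -, -, -, f7⟩ := cnt_D_spec m J k l y.1 i (by rw [g5]; exact hi)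
              rw [← hD] at f7
              have hp : x.1 i = y.1 i :=
                dep_unique h hrg hk0 (lo_sq k l _ e1) e2 h1 g1 (fun s hs => (ih s (by rw [← hin]; exact hs) s rfl).1)
                  e3 e5 hi0 e7 f7
              refine ⟨hp, ?_⟩
              have c1 := h4 i
              have c2 := g4 i
              rw [← hp, ← hz.1, ← hz.2] at c2
              exact clo_unique h hl0 (h2 i) (g2 i) c1 c2
            · rw [if_neg hi, if_neg hi, if_neg hi0, if_neg hi0] at hdi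
              have hv : ((x.1 i * x.2 i : ℕ) : ℤ) - (x.1 0 * x.2 0 : ℕ) = ((y.1 i * y.2 i : ℕ) : ℤ) - (y.1 0 * y.2 0 : ℕ) :=
                congrArg Prod.fst hdi
              rw [hz.1, hz.2] at hv
              have hv2 : x.1 i * x.2 i = y.1 i * y.2 i := by
                have hv3 : ((x.1 i * x.2 i : ℕ) : ℤ) = ((y.1 i * y.2 i : ℕ) : ℤ) := by linarith
                exact_mod_cast hv3
              exact fac_unique h hl0 hlk (h1 i) (g1 i) (h2 i) (g2 i) hv2
        exact Prod.ext (funext fun i => (hmain i i rfl).1) (funext fun i => (hmain i i rfl).2)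
    have hle' : (((Tp u (rr g k l) k l).filter (fun x => Clo m J l x ∧ Ds m J k l x.1 = T)).card : ℝ) ≤
        ((Pr (u k)).card * (Pr (u l)).card : ℝ) * ((∏ i, (cnt_B m k T Y i).card : ℕ) : ℝ) := by
      have h1 : ((Pr (u k) ×ˢ Pr (u l)) ×ˢ Fintype.piFinset (cnt_B m k T Y)).card =
          ((Pr (u k)).card * (Pr (u l)).card) * ∏ i, (cnt_B m k T Y i).card := by
        rw [Finset.card_product, Finset.card_product, Fintype.card_piFinset]
      rw [h1] at hle
      exact_mod_cast hle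
    refine hle'.trans ?_
    rw [cnt_card_B m k h0 hY0, mul_assoc, ← mul_assoc ((Pr (u l)).card : ℝ)]
    refine mul_le_mul_of_nonneg_left ?_ (Nat.cast_nonneg _)
    refine mul_le_mul_of_nonneg_right ?_ (by positivity)
    have hYr : (0 : ℝ) ≤ 2 * (Y : ℝ) := by
      have : (0 : ℝ) ≤ (Y : ℝ) := by exact_mod_cast hY0
      linarith
    exact mul_le_mul (cnt_Pr_card (u l)) (pow_le_pow_left₀ hYr hYle _) (pow_nonneg hYr _) (by positivity)
-- END cnt

end Pool.Agent.MnR
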