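import Pool.Agent.TwR.Defs

/-!
# At most g representations: definitions

Ruzsa's digits of logarithms with independent multipliers and random top digits.

* alphabets `D_j = 2^(m j)`, `sg m j = m 0 + ... + m (j-1)`, scales
  `QQ m j = D_0 ... D_(j-1) / (16 * 8^j)`;
* a choice `c = (h, xi)` at position `j`: the multiplier is `1 + h / HH m g j`, `xi` is a function
  with values `< D_j`;
* class `k`: the primes in `Pr (u k)`. Digit `j < k` of `p` in class `k` is the logarithm digit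
  `floor (D_j * frac (QQ m j * (1 + h / H) * log p))` if `j < J k`, and the random digit `xi p` if
  `J k <= j`.
-/

set_option autoImplicit false

namespace Pool.Agent.MnR

open Finset Pool.Agent.TwR

/-- the choice at one position: the number of the multiplier and the random digits -/
abbrev Ch : Type := ℕ × (ℕ → ℕ)

/-- the scale at position `j` -/
noncomputable def QQ (m : ℕ → ℕ) (j : ℕ) : ℝ := 2 ^ sg m j / (16 * 8 ^ j)

/-- the number of multipliers at position `j` -/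
def HH (m : ℕ → ℕ) (g j : ℕ) : ℕ := 2 ^ (sg m (j + 1) + g)

/-- the number whose fractional part gives the digit -/
noncomputable def arg (m : ℕ → ℕ) (g j h : ℕ) (y : ℝ) : ℝ := QQ m j * (1 + (h : ℝ) / HH m g j) * y

/-- distance to the nearest integer -/
noncomputable def nd (y : ℝ) : ℝ := |y - round y|

/-- the digit in `[0, 2^d)` given by the fractional part of `y` -/
noncomputable def dgt (d : ℕ) (y : ℝ) : ℕ := ⌊(2 : ℝ) ^ d * Int.fract y⌋₊

/-- digit `j` of an element `p` of class `k`, for the choice `c` at position `j` -/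
noncomputable def dg (m J : ℕ → ℕ) (g k j : ℕ) (c : Ch) (p : ℕ) : ℕ :=
  if j < J k then dgt (m j) (arg m g j c.1 (Real.log p)) else c.2 p

/-- the code of `p` in class `k` -/
noncomputable def cod (m J : ℕ → ℕ) (g : ℕ) (w : ℕ → Ch) (k p : ℕ) : ℕ :=
  ∑ j ∈ range k, (2 ^ m j + dg m J g k j (w j) p) * Bs (fun j => 2 ^ m j) j

open Classical in
/-- the functions with values `< D` on `[0, M)` and `0` from `M` on -/
noncomputable def Fs (M D : ℕ) : Finset (ℕ → ℕ) :=
  (Fintype.piFinset (fun _ : Fin M => range D)).image (fun f p => if h : p < M then f ⟨p, h⟩ else 0)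

/-- the choices at position `j` -/
noncomputable def Qs (m M : ℕ → ℕ) (g j : ℕ) : Finset Ch := range (HH m g j) ×ˢ Fs (M j) (2 ^ m j)

open Classical in
/-- the finite sequences with `w j` in `Q j` for `j < k` (and a fixed value from `k` on) -/
noncomputable def Sqc {T : Type} [Inhabited T] (Q : ℕ → Finset T) : ℕ → Finset (ℕ → T)
  | 0 => {fun _ => default}
  | (k + 1) => (Sqc Q k ×ˢ Q k).image (fun x => Function.update x.1 k x.2)

/-- `r + 1` pairs `(x.1 i, x.2 i)` -/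
abbrev Tu (r : ℕ) : Type := (Fin (r + 1) → ℕ) × (Fin (r + 1) → ℕ)

/-- the pairs `x.1 i` (class `k`), `x.2 i` (class `l`) coincide at position `j` -/
def Ev (m J : ℕ → ℕ) (g k l : ℕ) {r : ℕ} (x : Tu r) (j : ℕ) (c : Ch) : Prop :=
  ∀ i, dg m J g k j c (x.1 i) + (if j < l then dg m J g l j c (x.2 i) else 0) =
    dg m J g k j c (x.1 0) + (if j < l then dg m J g l j c (x.2 0) else 0)

open Classical in
/-- the tuples of `r + 1` pairs of classes `k`, `l`, with different first and different second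
members -/
noncomputable def Tp (u : ℕ → ℕ) (r k l : ℕ) : Finset (Tu r) :=
  ((Fintype.piFinset fun _ : Fin (r + 1) => Pr (u k)) ×ˢ
    (Fintype.piFinset fun _ : Fin (r + 1) => Pr (u l))).filter
    (fun x => Function.Injective x.1 ∧ Function.Injective x.2)

open Classical in
/-- the tuples which coincide at all positions -/
noncomputable def Tc (m J u : ℕ → ℕ) (g : ℕ) (w : ℕ → Ch) (r k l : ℕ) : Finset (Tu r) :=
  (Tp u r k l).filter (fun x => ∀ j < k, Ev m J g k l x j (w j))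

/-- pairs for small `l`, `(g+1)`-tuples for the other `l` -/
def rr (g k l : ℕ) : ℕ := if 2 * l ^ 2 < k ^ 2 then 1 else g

open Classical in
/-- the primes of class `k` that are removed -/
noncomputable def Bad (m J u : ℕ → ℕ) (g k0 : ℕ) (w : ℕ → Ch) (k : ℕ) : Finset ℕ :=
  (Pr (u k)).filter (fun p => ∃ l, k0 ≤ l ∧ l < J k ∧ ∃ x ∈ Tc m J u g w (rr g k l) k l, x.1 0 = p)

/-- the set -/
def Aset (m J u : ℕ → ℕ) (g k0 : ℕ) (w : ℕ → Ch) : Set ℕ :=
  {n | ∃ k, k0 ≤ k ∧ ∃ p ∈ Pr (u k), p ∉ Bad m J u g k0 w k ∧ n = cod m J g w k p}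

/-- the products are close together -/
def Clo (m J : ℕ → ℕ) (l : ℕ) {r : ℕ} (x : Tu r) : Prop :=
  ∀ i, |Real.log (x.1 i) + Real.log (x.2 i) - (Real.log (x.1 0) + Real.log (x.2 0))| ≤
    1 / (4 * QQ m (J l))

/-- `i` is dependent at level `j`: a near relation with small coefficients between the logarithms
of `p 0, ..., p i` -/
def Dep (m : ℕ → ℕ) {r : ℕ} (p : Fin (r + 1) → ℕ) (j : ℕ) (i : Fin (r + 1)) : Prop :=
  ∃ a : Fin (r + 1) → ℤ, (∀ s, i < s → a s = 0) ∧ a 0 = 0 ∧ a i ≠ 0 ∧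
    (∀ s, |a s| ≤ 2 ^ m j) ∧
    |∑ s, (a s : ℝ) * (Real.log (p s) - Real.log (p 0))| < 2 ^ (m j * r) / QQ m j

/-- the first level where the relations are considered -/
def lo (k l : ℕ) : ℕ := max l (Nat.sqrt (k ^ 2 / 2) + 1)

open Classical in
/-- the dependent indices -/
noncomputable def Ds (m J : ℕ → ℕ) (k l : ℕ) {r : ℕ} (p : Fin (r + 1) → ℕ) : Finset (Fin (r + 1)) :=
  univ.filter (fun i => ∃ j, lo k l ≤ j ∧ j < J k ∧ Dep m p j i)

/-- the exponent of the probability -/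
def wex (m J : ℕ → ℕ) (k l r t : ℕ) : ℕ :=
  r * (sg m l - sg m (J l)) + (r - t) * (sg m (J k) - sg m (lo k l)) + r * (sg m k - sg m (J k))

/-- the numerical hypotheses -/
structure Params (g : ℕ) (β : ℝ) (m u J M : ℕ → ℕ) (k0 : ℕ) : Prop where
  g1 : 1 ≤ g
  k1 : 1 ≤ k0
  m2 : ∀ j, m j + 2 ≤ m (j + 1)
  m0 : 8 ≤ m 0
  Jk : ∀ k, J k ≤ k
  Jm : Monotone J
  u2 : ∀ k, k0 ≤ k → 2 ≤ u k
  um : ∀ l k, k0 ≤ l → l < k → u l + 2 ≤ u k
  dom : ∀ k j, k0 ≤ k → J k ≤ j → j < k → 2 ^ u k < M j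
  inj : ∀ k, k0 ≤ k → (2 : ℝ) ^ (u k + 2) ≤ QQ m (J k)
  kill : ∀ k l, k0 ≤ l → l ≤ k → J k ≤ l → (2 : ℝ) ^ (u k + u l) ≤ QQ m (J l)
  big : ∀ k j, k0 ≤ k → k ^ 2 ≤ 2 * j ^ 2 → j < J k → (2 : ℝ) ^ (u k + 2 + m j * g) ≤ QQ m j
  main : ∀ k l t, k0 ≤ l → l < J k → t < rr g k l →
    (2 : ℝ) ^ u l * (2 ^ (u k + u l) / (2 * QQ m (J l))) ^ (rr g k l - t) *
      ((k : ℝ) * (2 * 2 ^ m k + 1) ^ (rr g k l + 1)) ^ t * 2 ^ ((4 * g + 1) * k) *
      (2 ^ (g + 1) * (2 * k * 2 ^ (k + 1))) ≤ 2 ^ wex m J k l (rr g k l) t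
  card : ∀ k, k0 ≤ k → 0 < (Pr (u k)).card
  dens : ∀ k, k0 ≤ k → ((2 : ℝ) ^ (sg m (k + 1) + 2 * (k + 1))) ^ β ≤ ((Pr (u k)).card : ℝ) / 2

end Pool.Agent.MnR
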