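import Pool.Agent.MnR.Defs
import Pool.Agent.TwR.Dig
import Pool.Agent.TwR.Num

/-! Digits. -/

set_option autoImplicit false

namespace Pool.Agent.MnR

open Finset Pool.Agent.TwR

-- BEGIN nd
theorem nd_flr (d : ℕ) (y : ℝ) : ((dgt d y : ℕ) : ℝ) ≤ 2 ^ d * Int.fract y ∧
    2 ^ d * Int.fract y < (dgt d y : ℕ) + 1 := by
  have h0 : (0 : ℝ) ≤ 2 ^ d * Int.fract y := mul_nonneg (by positivity) (Int.fract_nonneg y)
  exact ⟨Nat.floor_le h0, Nat.lt_floor_add_one _⟩

theorem dgt_lt (d : ℕ) (y : ℝ) : dgt d y < 2 ^ d := by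
  have h1 := (nd_flr d y).1
  have h2 : (2 : ℝ) ^ d * Int.fract y < 2 ^ d := by
    have h3 : (0 : ℝ) < 2 ^ d := by positivity
    have h4 := Int.fract_lt_one y
    nlinarith
  exact_mod_cast lt_of_le_of_lt h1 h2

theorem nd_eq_abs {y : ℝ} (h : |y| ≤ 1 / 2) : nd y = |y| := by
  unfold nd
  apply le_antisymm
  · have h1 := round_le y 0
    simpa using h1
  · rcases eq_or_ne (round y) 0 with h0 | h0
    · rw [h0]
      simp
    · have h1 : (1 : ℝ) ≤ |((round y : ℤ) : ℝ)| := by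
        rw [← Int.cast_abs]
        exact_mod_cast Int.one_le_abs h0
      have h2 : |((round y : ℤ) : ℝ)| ≤ |y - round y| + |y| := by
        have h3 := abs_sub_le ((round y : ℤ) : ℝ) y 0
        rw [sub_zero, sub_zero, abs_sub_comm] at h3
        exact h3
      linarith

theorem nd_le_int (y : ℝ) (n : ℤ) : nd y ≤ |y - n| := round_le y n

/-- PROOF. Both numbers `2^d fract y`, `2^d fract y'` are in the same interval `[n, n + 1)`; `y - y'`
differs from `fract y - fract y'` by an integer, and `nd z ≤ |z - n|` for every integer `n`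
(`round_le`). -/
theorem nd_dgt {d : ℕ} {y y' : ℝ} (h : dgt d y = dgt d y') : nd (y - y') < 1 / 2 ^ d := by
  obtain ⟨h1, h2⟩ := nd_flr d y
  obtain ⟨h3, h4⟩ := nd_flr d y'
  rw [← h] at h3 h4
  have h5 := nd_le_int (y - y') (⌊y⌋ - ⌊y'⌋)
  have e : y - y' - ((⌊y⌋ - ⌊y'⌋ : ℤ) : ℝ) = Int.fract y - Int.fract y' := by
    rw [Int.cast_sub]
    unfold Int.fract
    ring
  rw [e] at h5
  refine lt_of_le_of_lt h5 ?_
  have hp : (0 : ℝ) < 2 ^ d := by positivity
  rw [lt_div_iff₀ hp, ← abs_of_pos hp, ← abs_mul, abs_lt]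
  constructor <;> nlinarith

/-- the same with two summands -/
theorem nd_dgt4 {d : ℕ} {y1 y2 y3 y4 : ℝ} (h : dgt d y1 + dgt d y2 = dgt d y3 + dgt d y4) :
    nd (y1 + y2 - (y3 + y4)) < 2 / 2 ^ d := by
  obtain ⟨a1, b1⟩ := nd_flr d y1
  obtain ⟨a2, b2⟩ := nd_flr d y2
  obtain ⟨a3, b3⟩ := nd_flr d y3
  obtain ⟨a4, b4⟩ := nd_flr d y4
  have h' : ((dgt d y1 : ℕ) : ℝ) + dgt d y2 = dgt d y3 + dgt d y4 := by exact_mod_cast h
  have h5 := nd_le_int (y1 + y2 - (y3 + y4)) (⌊y1⌋ + ⌊y2⌋ - (⌊y3⌋ + ⌊y4⌋))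
  have e : y1 + y2 - (y3 + y4) - ((⌊y1⌋ + ⌊y2⌋ - (⌊y3⌋ + ⌊y4⌋) : ℤ) : ℝ) =
      Int.fract y1 + Int.fract y2 - (Int.fract y3 + Int.fract y4) := by
    push_cast
    unfold Int.fract
    ring
  rw [e] at h5
  refine lt_of_le_of_lt h5 ?_
  have hp : (0 : ℝ) < 2 ^ d := by positivity
  rw [lt_div_iff₀ hp, ← abs_of_pos hp, ← abs_mul, abs_lt]
  constructor <;> nlinarith
-- END nd

-- BEGIN QQ
theorem QQ_pos (m : ℕ → ℕ) (j : ℕ) : 0 < QQ m j := by
  unfold QQ; positivity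

theorem QQ_succ (m : ℕ → ℕ) (j : ℕ) : QQ m (j + 1) = QQ m j * 2 ^ m j / 8 := by
  have h : sg m (j + 1) = sg m j + m j := by
    simp only [sg, Finset.sum_range_succ]
  unfold QQ
  rw [h, pow_add, pow_succ]
  field_simp

/-- PROOF. Induction on `n`: `|Δ| ≤ 1 / (4 QQ m n)` gives `|QQ m n * α n * Δ| ≤ 1 / 2`, so
`nd` is the absolute value (`nd_eq_abs`) and `|Δ| ≤ 2 / (2 ^ m n * QQ m n) = 1 / (4 QQ m (n + 1))`.
For `n = 0`: `QQ m 0 = 1 / 16`. -/
theorem close_step {m : ℕ → ℕ} {α : ℕ → ℝ} {Δ : ℝ} (hα : ∀ j, 1 ≤ α j ∧ α j ≤ 2) (h4 : |Δ| ≤ 4)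
    (n : ℕ) (h : ∀ j < n, nd (QQ m j * α j * Δ) < 2 / 2 ^ m j) : |Δ| ≤ 1 / (4 * QQ m n) := by
  induction n with
  | zero =>
    have e : QQ m 0 = 1 / 16 := by
      unfold QQ
      simp [sg]
    rw [e]; norm_num; exact h4
  | succ n ih =>
    have ih' := ih (fun j hj => h j (Nat.lt_succ_of_lt hj))
    have hn := h n (Nat.lt_succ_self n)
    have hQ := QQ_pos m n
    obtain ⟨a1, a2⟩ := hα n
    have ha : 0 < α n := by linarith
    have e1 : |QQ m n * α n * Δ| = QQ m n * α n * |Δ| := by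
      rw [abs_mul, abs_of_pos (mul_pos hQ ha)]
    have e2 : QQ m n * |Δ| ≤ 1 / 4 := by
      have := mul_le_mul_of_nonneg_left ih' hQ.le
      have e3 : QQ m n * (1 / (4 * QQ m n)) = 1 / 4 := by field_simp
      rw [e3] at this; exact this
    have e4 : QQ m n * α n * |Δ| = α n * (QQ m n * |Δ|) := by ring
    have e5 : 0 ≤ QQ m n * |Δ| := mul_nonneg hQ.le (abs_nonneg _)
    have e6 : |QQ m n * α n * Δ| ≤ 1 / 2 := by
      rw [e1, e4]; nlinarith
    rw [nd_eq_abs e6, e1, e4] at hn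
    have e7 : QQ m n * |Δ| < 2 / 2 ^ m n := by nlinarith
    rw [QQ_succ]
    have hD : (0 : ℝ) < 2 ^ m n := by positivity
    rw [lt_div_iff₀ hD] at e7
    rw [le_div_iff₀ (by positivity)]
    nlinarith
-- END QQ

-- BEGIN logs
/-- PROOF. For `b < a`: `log (a / b) ≥ 1 - b / a ≥ 1 / a` (`Real.one_sub_inv_le_log_of_pos`). -/
private theorem logs_aux {a b : ℕ} (ha : 0 < a) (hb : 0 < b) :
    ((a : ℝ) - b) / a ≤ Real.log a - Real.log b := by
  have ha' : (0 : ℝ) < a := by exact_mod_cast ha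
  have hb' : (0 : ℝ) < b := by exact_mod_cast hb
  have h := Real.one_sub_inv_le_log_of_pos (div_pos ha' hb')
  rw [Real.log_div ha'.ne' hb'.ne', inv_div] at h
  have e : ((a : ℝ) - b) / a = 1 - b / a := by
    field_simp
  rw [e]
  exact h

theorem log_sep {a b N : ℕ} (ha : 0 < a) (hb : 0 < b) (haN : a ≤ N) (hbN : b ≤ N) (hab : a ≠ b) :
    1 / (N : ℝ) ≤ |Real.log a - Real.log b| := by
  rcases lt_or_gt_of_ne hab with h | h
  · rw [abs_sub_comm]
    have h1 := logs_aux hb ha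
    have hb' : (0 : ℝ) < b := by exact_mod_cast hb
    have h2 : (1 : ℝ) ≤ (b : ℝ) - a := by
      have : (a : ℝ) + 1 ≤ b := by exact_mod_cast h
      linarith
    calc 1 / (N : ℝ) ≤ 1 / (b : ℝ) := one_div_le_one_div_of_le hb' (by exact_mod_cast hbN)
      _ ≤ ((b : ℝ) - a) / b := div_le_div_of_nonneg_right h2 hb'.le
      _ ≤ Real.log b - Real.log a := h1
      _ ≤ _ := le_abs_self _
  · have h1 := logs_aux ha hb
    have ha' : (0 : ℝ) < a := by exact_mod_cast ha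
    have h2 : (1 : ℝ) ≤ (a : ℝ) - b := by
      have : (b : ℝ) + 1 ≤ a := by exact_mod_cast h
      linarith
    calc 1 / (N : ℝ) ≤ 1 / (a : ℝ) := one_div_le_one_div_of_le ha' (by exact_mod_cast haN)
      _ ≤ ((a : ℝ) - b) / a := div_le_div_of_nonneg_right h2 ha'.le
      _ ≤ Real.log a - Real.log b := h1
      _ ≤ _ := le_abs_self _

private theorem logs_aux2 {a b N : ℕ} (ha : 0 < a) (hb : 0 < b) (haN : a ≤ N) :
    (a : ℝ) - b ≤ N * |Real.log a - Real.log b| := by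
  have h1 := logs_aux ha hb
  have ha' : (0 : ℝ) < a := by exact_mod_cast ha
  rw [div_le_iff₀ ha'] at h1
  have h2 : Real.log a - Real.log b ≤ |Real.log a - Real.log b| := le_abs_self _
  have h3 : (a : ℝ) ≤ N := by exact_mod_cast haN
  calc (a : ℝ) - b ≤ (Real.log a - Real.log b) * a := h1
    _ ≤ |Real.log a - Real.log b| * a := mul_le_mul_of_nonneg_right h2 ha'.le
    _ ≤ |Real.log a - Real.log b| * N := mul_le_mul_of_nonneg_left h3 (abs_nonneg _)
    _ = _ := mul_comm _ _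

theorem log_le {a b N : ℕ} (ha : 0 < a) (hb : 0 < b) (haN : a ≤ N) (hbN : b ≤ N) :
    |(a : ℝ) - b| ≤ N * |Real.log a - Real.log b| := by
  rcases le_total b a with h | h
  · rw [abs_of_nonneg (sub_nonneg.2 (by exact_mod_cast h))]
    exact logs_aux2 ha hb haN
  · rw [abs_sub_comm, abs_of_nonneg (sub_nonneg.2 (by exact_mod_cast h)), abs_sub_comm (Real.log a)]
    exact logs_aux2 hb ha hbN

/-- `log 4 < 7 / 5` -/
private theorem logs_four : Real.log 4 ≤ 7 / 5 := by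
  have h : (4 : ℝ) = 2 ^ 2 := by norm_num
  rw [h, Real.log_pow]
  have := Real.log_two_lt_d9
  push_cast
  linarith

private theorem logs_lt {n p q : ℕ} (hp : p ∈ Pr n) (hq : q ∈ Pr n) : p < 4 * q := by
  unfold Pr at hp hq
  rw [mem_filter, mem_Ioc] at hp hq
  obtain ⟨⟨_, h1⟩, _⟩ := hp
  obtain ⟨⟨h2, _⟩, _⟩ := hq
  rcases Nat.lt_or_ge n 2 with hn | hn
  · have h3 : 2 ^ n ≤ 2 := by
      calc 2 ^ n ≤ 2 ^ 1 := Nat.pow_le_pow_right (by norm_num) (by omega)
        _ = 2 := by norm_num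
    have h4 : 1 ≤ 2 ^ (n - 2) := Nat.one_le_two_pow
    omega
  · obtain ⟨k, rfl⟩ := Nat.exists_eq_add_of_le hn
    have h3 : 2 + k - 2 = k := by omega
    rw [h3] at h2
    rw [pow_add] at h1
    omega

private theorem logs_pos {n p : ℕ} (hp : p ∈ Pr n) : 0 < p ∧ p ≤ 2 ^ n := by
  unfold Pr at hp
  rw [mem_filter, mem_Ioc] at hp
  exact ⟨hp.2.pos, hp.1.2⟩

private theorem logs_up {n p q : ℕ} (hp : p ∈ Pr n) (hq : q ∈ Pr n) :
    Real.log p - Real.log q ≤ 7 / 5 := by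
  have hp0 : (0 : ℝ) < p := by exact_mod_cast (logs_pos hp).1
  have hq0 : (0 : ℝ) < q := by exact_mod_cast (logs_pos hq).1
  have h1 : (p : ℝ) ≤ 4 * q := by exact_mod_cast (logs_lt hp hq).le
  have h2 : Real.log p ≤ Real.log (4 * q) := Real.log_le_log hp0 h1
  rw [Real.log_mul (by norm_num) hq0.ne'] at h2
  have h3 := logs_four
  linarith

/-- two elements of `Pr n` differ by a factor less than `4` -/
theorem log_Pr {n p q : ℕ} (hp : p ∈ Pr n) (hq : q ∈ Pr n) :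
    |Real.log p - Real.log q| ≤ 7 / 5 := by
  rw [abs_sub_le_iff]
  exact ⟨logs_up hp hq, logs_up hq hp⟩

theorem log_Pr_ne {n p q : ℕ} (hp : p ∈ Pr n) (hq : q ∈ Pr n) (h : p ≠ q) :
    1 / (2 : ℝ) ^ n ≤ |Real.log p - Real.log q| := by
  have h1 := log_sep (logs_pos hp).1 (logs_pos hq).1 (logs_pos hp).2 (logs_pos hq).2 h
  push_cast at h1
  exact h1
-- END logs

-- BEGIN fs
theorem mem_Fs {M D : ℕ} {f : ℕ → ℕ} :
    f ∈ Fs M D ↔ (∀ p < M, f p < D) ∧ ∀ p, M ≤ p → f p = 0 := by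
  classical
  unfold Fs
  simp only [mem_image]
  constructor
  · rintro ⟨a, ha, rfl⟩
    rw [Fintype.mem_piFinset] at ha
    refine ⟨fun p hp => ?_, fun p hp => ?_⟩
    · beta_reduce
      rw [dif_pos hp]
      exact mem_range.1 (ha ⟨p, hp⟩)
    · beta_reduce
      rw [dif_neg (not_lt.2 hp)]
  · rintro ⟨h1, h2⟩
    refine ⟨fun i => f i, Fintype.mem_piFinset.2 fun i => mem_range.2 (h1 i i.2), ?_⟩
    funext p
    beta_reduce
    by_cases hp : p < M
    · rw [dif_pos hp]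
    · rw [dif_neg hp, h2 p (by omega)]

theorem dg_lt {m J M : ℕ → ℕ} {g k j : ℕ} {c : Ch} (hc : c ∈ Qs m M g j) (p : ℕ) :
    dg m J g k j c p < 2 ^ m j := by
  unfold dg
  split_ifs with h
  · exact dgt_lt _ _
  · unfold Qs at hc
    rw [mem_product] at hc
    have h1 := mem_Fs.1 hc.2
    rcases Nat.lt_or_ge p (M j) with hp | hp
    · exact h1.1 p hp
    · rw [h1.2 p hp]
      exact Nat.two_pow_pos _

theorem Qs_ne (m M : ℕ → ℕ) (g j : ℕ) : (Qs m M g j).Nonempty := by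
  refine ⟨(0, fun _ => 0), ?_⟩
  unfold Qs
  rw [mem_product]
  refine ⟨mem_range.2 ?_, mem_Fs.2 ⟨fun p _ => Nat.two_pow_pos _, fun p _ => rfl⟩⟩
  unfold HH
  exact Nat.two_pow_pos _

/-- the multipliers are in `[1, 2]` -/
theorem mul_mem {m M : ℕ → ℕ} {g j : ℕ} {c : Ch} (hc : c ∈ Qs m M g j) :
    1 ≤ 1 + (c.1 : ℝ) / HH m g j ∧ 1 + (c.1 : ℝ) / HH m g j ≤ 2 := by
  unfold Qs at hc
  rw [mem_product] at hc
  have h1 := mem_range.1 hc.1
  have h2 : (0 : ℝ) < HH m g j := by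
    have h3 : 0 < HH m g j := by omega
    exact_mod_cast h3
  have h4 : (c.1 : ℝ) ≤ HH m g j := by exact_mod_cast h1.le
  have h5 : (c.1 : ℝ) / HH m g j ≤ 1 := (div_le_one h2).2 h4
  have h6 : 0 ≤ (c.1 : ℝ) / HH m g j := by positivity
  constructor <;> linarith
-- END fs

-- BEGIN cod
private theorem cod_ext (s a : ℕ → ℕ) {k K : ℕ} (h : k ≤ K) :
    ∑ j ∈ range k, a j * Bs s j = ∑ j ∈ range K, (if j < k then a j else 0) * Bs s j := by
  have h1 : ∑ j ∈ range k, (if j < k then a j else 0) * Bs s j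
      = ∑ j ∈ range K, (if j < k then a j else 0) * Bs s j :=
    Finset.sum_subset (Finset.range_mono h) (fun x _ hx => by
      rw [if_neg (fun hh => hx (Finset.mem_range.2 hh)), zero_mul])
  rw [← h1]
  exact Finset.sum_congr rfl (fun j hj => by rw [if_pos (Finset.mem_range.1 hj)])

private theorem cod_le1 {s a b a' b' : ℕ → ℕ} (hs : ∀ j, 2 ≤ s j) (ha' : ∀ j, s j ≤ a' j)
    {k l k' l' : ℕ} (hl : l ≤ k) (h : ∀ j < max k k',
      (if j < k then a j else 0) + (if j < l then b j else 0)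
      = (if j < k' then a' j else 0) + (if j < l' then b' j else 0)) :
    k' ≤ k := by
  by_contra hc
  have hc : k < k' := not_le.1 hc
  have h1 := h k (lt_of_lt_of_le hc (le_max_right _ _))
  rw [if_neg (lt_irrefl k), if_neg (not_lt.2 hl), if_pos hc] at h1
  have h2 := ha' k
  have h3 := hs k
  omega

private theorem cod_le2 {s a b a' b' : ℕ → ℕ} (hs : ∀ j, 2 ≤ s j) (ha : ∀ j, a j < 2 * s j)
    (ha' : ∀ j, s j ≤ a' j) (hb' : ∀ j, s j ≤ b' j) {k l l' : ℕ}
    (hl' : l' ≤ k) (h : ∀ j < k,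
      (if j < k then a j else 0) + (if j < l then b j else 0)
      = (if j < k then a' j else 0) + (if j < l' then b' j else 0)) :
    l' ≤ l := by
  by_contra hc
  have hc : l < l' := not_le.1 hc
  have hk : l < k := lt_of_lt_of_le hc hl'
  have h1 := h l hk
  rw [if_pos hk, if_neg (lt_irrefl l), if_pos hk, if_pos hc] at h1
  have h2 := ha l
  have h3 := ha' l
  have h4 := hb' l
  have h5 := hs l
  omega

private theorem cod_gen {s a b a' b' : ℕ → ℕ} (hs : ∀ j, 2 ≤ s j)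
    (ha : ∀ j, s j ≤ a j ∧ a j < 2 * s j) (hb : ∀ j, s j ≤ b j ∧ b j < 2 * s j)
    (ha' : ∀ j, s j ≤ a' j ∧ a' j < 2 * s j) (hb' : ∀ j, s j ≤ b' j ∧ b' j < 2 * s j)
    {k l k' l' : ℕ} (hl : l ≤ k) (hl' : l' ≤ k')
    (h : ∑ j ∈ range k, a j * Bs s j + ∑ j ∈ range l, b j * Bs s j =
      ∑ j ∈ range k', a' j * Bs s j + ∑ j ∈ range l', b' j * Bs s j) :
    k = k' ∧ l = l' ∧ (∀ j < l, a j + b j = a' j + b' j) ∧ ∀ j, l ≤ j → j < k → a j = a' j := by
  have hite : ∀ {c : ℕ → ℕ}, (∀ j, s j ≤ c j ∧ c j < 2 * s j) → ∀ k j,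
      (if j < k then c j else 0) < 2 * s j := by
    intro c hc k j
    have h1 := (hc j).2
    have h2 := hs j
    split_ifs <;> omega
  have hD : ∀ j < max k k',
      (if j < k then a j else 0) + (if j < l then b j else 0) < 4 * s j := fun j _ => by
    have h1 := hite ha k j
    have h2 := hite hb l j
    omega
  have hD' : ∀ j < max k k',
      (if j < k' then a' j else 0) + (if j < l' then b' j else 0) < 4 * s j := fun j _ => by
    have h1 := hite ha' k' j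
    have h2 := hite hb' l' j
    omega
  rw [cod_ext s a (le_max_left k k'), cod_ext s b (hl.trans (le_max_left k k')),
    cod_ext s a' (le_max_right k k'), cod_ext s b' (hl'.trans (le_max_right k k')),
    ← Finset.sum_add_distrib, ← Finset.sum_add_distrib] at h
  simp only [← add_mul] at h
  have hu := digits_unique hs hD hD' h
  have e1 : k' ≤ k := cod_le1 hs (fun j => (ha' j).1) hl hu
  have e2 : k ≤ k' := cod_le1 hs (fun j => (ha j).1) hl' (fun j hj => by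
    rw [max_comm] at hj
    exact (hu j hj).symm)
  have e : k = k' := le_antisymm e2 e1
  subst e
  rw [max_self] at hu
  have f1 : l' ≤ l := cod_le2 hs (fun j => (ha j).2) (fun j => (ha' j).1) (fun j => (hb' j).1)
    hl' hu
  have f2 : l ≤ l' := cod_le2 hs (fun j => (ha' j).2) (fun j => (ha j).1) (fun j => (hb j).1)
    hl (fun j hj => (hu j hj).symm)
  have f : l = l' := le_antisymm f2 f1
  subst f
  refine ⟨rfl, rfl, fun j hj => ?_, fun j hj hk => ?_⟩
  · have h1 := hu j (lt_of_lt_of_le hj hl)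
    rwa [if_pos (lt_of_lt_of_le hj hl), if_pos (lt_of_lt_of_le hj hl), if_pos hj, if_pos hj] at h1
  · have h1 := hu j hk
    rwa [if_pos hk, if_pos hk, if_neg (not_lt.2 hj), if_neg (not_lt.2 hj), add_zero, add_zero] at h1

private theorem cod_two {m : ℕ → ℕ} (hm : ∀ j, 1 ≤ m j) (j : ℕ) : 2 ≤ 2 ^ m j := by
  calc 2 = 2 ^ 1 := rfl
    _ ≤ 2 ^ m j := Nat.pow_le_pow_right (by norm_num) (hm j)

private theorem cod_dig {m J M : ℕ → ℕ} {g : ℕ} {w : ℕ → Ch}
    (hw : ∀ j, w j ∈ Qs m M g j) (k p j : ℕ) :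
    2 ^ m j ≤ 2 ^ m j + dg m J g k j (w j) p ∧
      2 ^ m j + dg m J g k j (w j) p < 2 * 2 ^ m j := by
  have := dg_lt (J := J) (k := k) (hw j) p
  omega

theorem cod_lt {m J M : ℕ → ℕ} {g : ℕ} {w : ℕ → Ch} (hm : ∀ j, 1 ≤ m j)
    (hw : ∀ j, w j ∈ Qs m M g j) (k p : ℕ) :
    cod m J g w k p < Bs (fun j => 2 ^ m j) k := by
  unfold cod
  refine sum_lt (s := fun j => 2 ^ m j) (cod_two hm) (fun j _ => ?_)
  have h1 := (cod_dig (J := J) hw k p j).2
  have h2 := cod_two hm j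
  show 2 ^ m j + dg m J g k j (w j) p < 4 * 2 ^ m j
  omega

theorem cod_pos {m J : ℕ → ℕ} {g : ℕ} {w : ℕ → Ch} {k : ℕ} (hk : 0 < k) (p : ℕ) :
    0 < cod m J g w k p := by
  unfold cod
  refine Finset.sum_pos ?_ ⟨0, Finset.mem_range.2 hk⟩
  intro j _
  refine Nat.mul_pos ?_ ?_
  · have : 0 < 2 ^ m j := by positivity
    omega
  · unfold Bs
    refine Finset.prod_pos ?_
    intro i _
    positivity

/-- as `Pool.Agent.TwR.code_inj` (file TwR/Dig.lean; the digits are in `[2^m j, 2 * 2^m j)`) -/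
theorem cod_inj {m J M : ℕ → ℕ} {g : ℕ} {w : ℕ → Ch} (hm : ∀ j, 1 ≤ m j)
    (hw : ∀ j, w j ∈ Qs m M g j) {k k' p p' : ℕ}
    (h : cod m J g w k p = cod m J g w k' p') :
    k = k' ∧ ∀ j < k, dg m J g k j (w j) p = dg m J g k j (w j) p' := by
  unfold cod at h
  obtain ⟨e1, -, -, e2⟩ := cod_gen (s := fun j => 2 ^ m j) (l := 0) (l' := 0) (cod_two hm)
    (cod_dig (J := J) hw k p) (cod_dig (J := J) hw k p) (cod_dig (J := J) hw k' p')
    (cod_dig (J := J) hw k' p') (Nat.zero_le _) (Nat.zero_le _)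
    (by simpa using h)
  subst e1
  refine ⟨rfl, fun j hj => ?_⟩
  exact Nat.add_left_cancel (e2 j (Nat.zero_le _) hj)

/-- as `Pool.Agent.TwR.code_sum` (file TwR/Dig.lean) -/
theorem cod_sum {m J M : ℕ → ℕ} {g : ℕ} {w : ℕ → Ch} (hm : ∀ j, 1 ≤ m j)
    (hw : ∀ j, w j ∈ Qs m M g j) {k l k' l' p v p' v' : ℕ} (hl : l ≤ k) (hl' : l' ≤ k')
    (h : cod m J g w k p + cod m J g w l v = cod m J g w k' p' + cod m J g w l' v') :
    k = k' ∧ l = l' ∧
      (∀ j < l, dg m J g k j (w j) p + dg m J g l j (w j) v =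
        dg m J g k j (w j) p' + dg m J g l j (w j) v') ∧
      ∀ j, l ≤ j → j < k → dg m J g k j (w j) p = dg m J g k j (w j) p' := by
  unfold cod at h
  obtain ⟨e1, e2, e3, e4⟩ := cod_gen (s := fun j => 2 ^ m j) (cod_two hm)
    (cod_dig (J := J) hw k p) (cod_dig (J := J) hw l v) (cod_dig (J := J) hw k' p')
    (cod_dig (J := J) hw l' v') hl hl' h
  subst e1
  subst e2
  refine ⟨rfl, rfl, fun j hj => ?_, fun j hj hk => ?_⟩
  · have := e3 j hj
    omega
  · exact Nat.add_left_cancel (e4 j hj hk)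
-- END cod

-- BEGIN clo
private theorem clo_alpha {m M : ℕ → ℕ} {g n : ℕ} {w : ℕ → Ch} (hw : ∀ j < n, w j ∈ Qs m M g j) (j : ℕ) :
    1 ≤ (if j < n then 1 + ((w j).1 : ℝ) / HH m g j else 1) ∧
      (if j < n then 1 + ((w j).1 : ℝ) / HH m g j else 1) ≤ 2 := by
  by_cases hj : j < n
  · rw [if_pos hj]
    exact mul_mem (hw j hj)
  · rw [if_neg hj]
    norm_num

/-- PROOF. `close_step` with `Δ = log p + log v - (log p' + log v')`, `|Δ| ≤ 14 / 5` by `log_Pr`;
for `j < J l` both digits are logarithm digits and `nd_dgt4` applies (`arg` is linear in `y`). -/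
theorem clo_pair {m J M u : ℕ → ℕ} {g k l : ℕ} {w : ℕ → Ch} (hw : ∀ j < J l, w j ∈ Qs m M g j)
    (hkl : J l ≤ J k) {p p' v v' : ℕ} (hp : p ∈ Pr (u k)) (hp' : p' ∈ Pr (u k))
    (hv : v ∈ Pr (u l)) (hv' : v' ∈ Pr (u l))
    (h : ∀ j < J l, dg m J g k j (w j) p + dg m J g l j (w j) v =
      dg m J g k j (w j) p' + dg m J g l j (w j) v') :
    |Real.log p + Real.log v - (Real.log p' + Real.log v')| ≤ 1 / (4 * QQ m (J l)) := by
  refine close_step (clo_alpha hw) ?_ (J l) fun j hj => ?_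
  · have h1 := log_Pr hp hp'
    have h2 := log_Pr hv hv'
    have h3 : Real.log p + Real.log v - (Real.log p' + Real.log v') =
        (Real.log p - Real.log p') + (Real.log v - Real.log v') := by ring
    rw [h3]
    have h4 := abs_add_le (Real.log p - Real.log p') (Real.log v - Real.log v')
    linarith
  · have h1 := h j hj
    unfold dg at h1
    rw [if_pos (lt_of_lt_of_le hj hkl), if_pos hj, if_pos (lt_of_lt_of_le hj hkl), if_pos hj] at h1
    have h2 := nd_dgt4 h1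
    rw [if_pos hj]
    have h3 : QQ m j * (1 + ((w j).1 : ℝ) / HH m g j) *
        (Real.log p + Real.log v - (Real.log p' + Real.log v')) =
        arg m g j (w j).1 (Real.log p) + arg m g j (w j).1 (Real.log v) -
          (arg m g j (w j).1 (Real.log p') + arg m g j (w j).1 (Real.log v')) := by
      unfold arg
      ring
    rw [h3]
    exact h2

/-- the same for one digit -/
theorem clo_one {m J M u : ℕ → ℕ} {g k : ℕ} {w : ℕ → Ch} (hw : ∀ j < J k, w j ∈ Qs m M g j)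
    {p p' : ℕ} (hp : p ∈ Pr (u k)) (hp' : p' ∈ Pr (u k))
    (h : ∀ j < J k, dg m J g k j (w j) p = dg m J g k j (w j) p') :
    |Real.log p - Real.log p'| ≤ 1 / (4 * QQ m (J k)) := by
  refine close_step (clo_alpha hw) ?_ (J k) fun j hj => ?_
  · have h1 := log_Pr hp hp'
    linarith
  · have h1 := h j hj
    unfold dg at h1
    rw [if_pos hj, if_pos hj] at h1
    have h2 := nd_dgt h1
    rw [if_pos hj]
    have h3 : QQ m j * (1 + ((w j).1 : ℝ) / HH m g j) * (Real.log p - Real.log p') =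
        arg m g j (w j).1 (Real.log p) - arg m g j (w j).1 (Real.log p') := by
      unfold arg
      ring
    rw [h3]
    refine lt_of_lt_of_le h2 ?_
    exact div_le_div_of_nonneg_right (by norm_num) (by positivity)
-- END clo

end Pool.Agent.MnR
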