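import Pool.Agent.MnR.Pos
import Pool.Agent.MnR.Cnt

/-! The expected number of coincidences. -/

set_option autoImplicit false

namespace Pool.Agent.MnR

open Finset Pool.Agent.TwR

variable {g : ℕ} {β : ℝ} {m u J M : ℕ → ℕ} {k0 : ℕ}

-- BEGIN tcc
/-- a coinciding tuple is close -/
theorem clo_of_Tc (h : Params g β m u J M k0) {k l : ℕ} (hl : l < J k) {w : ℕ → Ch}
    (hw : ∀ j < k, w j ∈ Qs m M g j) {r : ℕ} {x : Tu r} (hx : x ∈ Tc m J u g w r k l) :
    Clo m J l x := by
  classical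
  unfold Tc Tp at hx
  rw [Finset.mem_filter, Finset.mem_filter, Finset.mem_product, Fintype.mem_piFinset,
    Fintype.mem_piFinset] at hx
  obtain ⟨⟨⟨hx1, hx2⟩, -⟩, hev⟩ := hx
  have hlk : l ≤ k := le_of_lt (lt_of_lt_of_le hl (h.Jk k))
  have hJJ : J l ≤ J k := h.Jm hlk
  have hJl : J l ≤ l := h.Jk l
  intro i
  refine clo_pair (m := m) (J := J) (M := M) (u := u) (g := g) (k := k) (l := l) (w := w)
    (fun j hj => hw j (by omega)) hJJ (hx1 i) (hx1 0) (hx2 i) (hx2 0) ?_
  intro j hj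
  have h1 := hev j (by omega) i
  rw [if_pos (by omega), if_pos (by omega)] at h1
  exact h1

/-- `Tc` depends only on the choices at the first `k` positions -/
theorem Tc_congr {w w' : ℕ → Ch} {k : ℕ} (hw : ∀ j < k, w j = w' j) (r l : ℕ) :
    Tc m J u g w r k l = Tc m J u g w' r k l := by
  classical
  ext x
  unfold Tc
  rw [Finset.mem_filter, Finset.mem_filter]
  constructor
  · rintro ⟨h0, h1⟩
    refine ⟨h0, fun j hj => ?_⟩
    rw [← hw j hj]
    exact h1 j hj
  · rintro ⟨h0, h1⟩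
    refine ⟨h0, fun j hj => ?_⟩
    rw [hw j hj]
    exact h1 j hj

theorem card_Bad_le (w : ℕ → Ch) (k : ℕ) :
    (Bad m J u g k0 w k).card ≤ ∑ l ∈ Ico k0 (J k), (Tc m J u g w (rr g k l) k l).card := by
  classical
  have hsub : Bad m J u g k0 w k ⊆ (Ico k0 (J k)).biUnion
      (fun l => (Tc m J u g w (rr g k l) k l).image (fun x => x.1 0)) := by
    intro p hp
    unfold Bad at hp
    rw [Finset.mem_filter] at hp
    obtain ⟨-, l, h1, h2, x, hx, hxp⟩ := hp
    rw [Finset.mem_biUnion]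
    exact ⟨l, Finset.mem_Ico.mpr ⟨h1, h2⟩, Finset.mem_image.mpr ⟨x, hx, hxp⟩⟩
  refine (Finset.card_le_card hsub).trans (Finset.card_biUnion_le.trans ?_)
  exact Finset.sum_le_sum (fun l _ => Finset.card_image_le)
-- END tcc

-- BEGIN exq
open Classical in
theorem exq_fiber (h : Params g β m u J M k0) {k l : ℕ} (hl0 : k0 ≤ l) (hl : l < J k)
    (T : Finset (Fin (rr g k l + 1))) :
    (∑ x ∈ (Tp u (rr g k l) k l).filter (fun x => Clo m J l x ∧ Ds m J k l x.1 = T),
      (((Sqc (Qs m M g) k).filter (fun w => ∀ j < k, Ev m J g k l x j (w j))).card : ℝ)) *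
        (2 ^ (g + 1) * (2 * k * 2 ^ (k + 1))) ≤ (Pr (u k)).card * (Sqc (Qs m M g) k).card := by
  by_cases hTc : T.card < rr g k l
  · set W : ℝ := 2 ^ wex m J k l (rr g k l) T.card with hW
    have hW0 : 0 < W := by positivity
    have hF : ∀ x ∈ (Tp u (rr g k l) k l).filter (fun x => Clo m J l x ∧ Ds m J k l x.1 = T),
        (((Sqc (Qs m M g) k).filter (fun w => ∀ j < k, Ev m J g k l x j (w j))).card : ℝ) * W ≤
          2 ^ ((4 * g + 1) * k) * (Sqc (Qs m M g) k).card := by
      intro x hx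
      rw [Finset.mem_filter] at hx
      have h1 := pos_prod h hl0 hl hx.1
      rw [hx.2.2] at h1
      rw [card_filter_Sqc (Qs m M g) (fun j c => Ev m J g k l x j c) k, card_Sqc]
      push_cast
      exact h1
    have h2 := Finset.sum_le_sum hF
    rw [← Finset.sum_mul, Finset.sum_const, nsmul_eq_mul] at h2
    have h3 := count_T h hl0 hl T
    have h4 := h.main k l T.card hl0 hl hTc
    have hR : (0 : ℝ) ≤ (Pr (u k)).card := Nat.cast_nonneg _
    have hS : (0 : ℝ) ≤ (Sqc (Qs m M g) k).card := Nat.cast_nonneg _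
    have h5 := mul_le_mul_of_nonneg_right h3
      (show (0 : ℝ) ≤ 2 ^ ((4 * g + 1) * k) * (Sqc (Qs m M g) k).card by positivity)
    have h6 := mul_le_mul_of_nonneg_right (h2.trans h5)
      (show (0 : ℝ) ≤ 2 ^ (g + 1) * (2 * k * 2 ^ (k + 1)) by positivity)
    have h7 := mul_le_mul_of_nonneg_left h4 (mul_nonneg hR hS)
    refine le_of_mul_le_mul_right ?_ hW0
    refine le_trans (le_of_eq ?_) (h6.trans (le_trans (le_of_eq ?_) h7))
    · ring
    · ring
  · have h1 : (Tp u (rr g k l) k l).filter (fun x => Clo m J l x ∧ Ds m J k l x.1 = T) = ∅ := by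
      apply Finset.filter_eq_empty_iff.2
      rintro x hx ⟨_, h2⟩
      exact hTc (h2 ▸ Ds_card_lt h hl0 hl hx)
    rw [h1, Finset.sum_empty, zero_mul]
    positivity

/-- PROOF. Exchange the sums: `∑_w #Tc w = ∑_x #{w | x coincides}`; only close `x` count (`clo_of_Tc`), for them
the number of `w` is `∏_j #(filter)` (`card_filter_Sqc`), bounded by `pos_prod`. Divide the `x` according to
`T = Ds m J k l x.1` (at most `2 ^ (rr + 1) ≤ 2 ^ (g + 1)` sets, `T.card < rr` by `Ds_card_lt`), `count_T`,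
and `h.main` with `t = T.card`. -/
theorem expect (h : Params g β m u J M k0) {k l : ℕ} (hl0 : k0 ≤ l) (hl : l < J k) :
    2 * (k : ℝ) * 2 ^ (k + 1) *
      ∑ w ∈ Sqc (Qs m M g) k, ((Tc m J u g w (rr g k l) k l).card : ℝ) ≤
      (Pr (u k)).card * (Sqc (Qs m M g) k).card := by
  classical
  have h1 : ∑ w ∈ Sqc (Qs m M g) k, ((Tc m J u g w (rr g k l) k l).card : ℝ) =
      ∑ x ∈ Tp u (rr g k l) k l,
        (((Sqc (Qs m M g) k).filter (fun w => ∀ j < k, Ev m J g k l x j (w j))).card : ℝ) := by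
    unfold Tc
    simp only [Finset.card_filter]
    push_cast
    rw [Finset.sum_comm]
  have h2 : ∑ x ∈ Tp u (rr g k l) k l,
        (((Sqc (Qs m M g) k).filter (fun w => ∀ j < k, Ev m J g k l x j (w j))).card : ℝ) =
      ∑ x ∈ (Tp u (rr g k l) k l).filter (fun x => Clo m J l x),
        (((Sqc (Qs m M g) k).filter (fun w => ∀ j < k, Ev m J g k l x j (w j))).card : ℝ) := by
    symm
    apply Finset.sum_subset (Finset.filter_subset _ _)
    intro x hx hx'
    have h3 : (Sqc (Qs m M g) k).filter (fun w => ∀ j < k, Ev m J g k l x j (w j)) = ∅ := by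
      apply Finset.filter_eq_empty_iff.2
      intro w hw hE
      apply hx'
      rw [Finset.mem_filter]
      refine ⟨hx, clo_of_Tc h hl (mem_Sqc hw).1 ?_⟩
      unfold Tc
      rw [Finset.mem_filter]
      exact ⟨hx, hE⟩
    rw [h3]
    simp
  have h3 : ∑ x ∈ (Tp u (rr g k l) k l).filter (fun x => Clo m J l x),
        (((Sqc (Qs m M g) k).filter (fun w => ∀ j < k, Ev m J g k l x j (w j))).card : ℝ) =
      ∑ T : Finset (Fin (rr g k l + 1)),
        ∑ x ∈ (Tp u (rr g k l) k l).filter (fun x => Clo m J l x ∧ Ds m J k l x.1 = T),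
        (((Sqc (Qs m M g) k).filter (fun w => ∀ j < k, Ev m J g k l x j (w j))).card : ℝ) := by
    rw [← Finset.sum_fiberwise _ (fun x : Tu (rr g k l) => Ds m J k l x.1)]
    refine Finset.sum_congr rfl fun T _ => ?_
    rw [Finset.filter_filter]
  rw [h1, h2, h3]
  have hG : (0 : ℝ) < 2 ^ (g + 1) := by positivity
  have h4 := Finset.sum_le_sum (fun T (_ : T ∈ (Finset.univ : Finset (Finset (Fin (rr g k l + 1))))) =>
    exq_fiber h hl0 hl T)
  rw [← Finset.sum_mul, Finset.sum_const, nsmul_eq_mul, Finset.card_univ, Fintype.card_finset,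
    Fintype.card_fin] at h4
  have h5 : ((2 ^ (rr g k l + 1) : ℕ) : ℝ) ≤ 2 ^ (g + 1) := by
    push_cast
    exact pow_le_pow_right₀ (by norm_num) (by have := (rr_le h k l).2; omega)
  have h6 := mul_le_mul_of_nonneg_right h5
    (show (0 : ℝ) ≤ (Pr (u k)).card * (Sqc (Qs m M g) k).card by positivity)
  refine le_of_mul_le_mul_left ?_ hG
  refine le_trans (le_of_eq ?_) (h4.trans h6)
  ring
-- END exq

end Pool.Agent.MnR
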