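import Pool.Agent.MnR.Dgt
import Pool.Agent.TwR.Prm

/-! The parameters. -/

set_option autoImplicit false

namespace Pool.Agent.MnR

open Finset Pool.Agent.TwR

/-- `m j = 2 j + 8` -/
def mm (j : ℕ) : ℕ := 2 * j + 8

/-- `u k = floor (c k^2)` -/
noncomputable def uu (c : ℝ) (k : ℕ) : ℕ := ⌊c * (k : ℝ) ^ 2⌋₊

/-- `J k = floor (s k)`, `s = √θ` -/
noncomputable def JJ (s : ℝ) (k : ℕ) : ℕ := ⌊s * (k : ℝ)⌋₊

/-- the domain of the random digits -/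
noncomputable def MM (c s : ℝ) (j : ℕ) : ℕ := 2 ^ (uu c ⌈((j : ℝ) + 1) / s⌉₊) + 1

-- BEGIN par0
theorem sg_mm (k : ℕ) : sg mm k = k ^ 2 + 7 * k := by
  induction k with
  | zero => simp [sg]
  | succ k ih =>
    have h : sg mm (k + 1) = sg mm k + mm k := by
      unfold sg
      rw [Finset.sum_range_succ]
    rw [h, ih]
    unfold mm
    ring

theorem QQ_mm (j : ℕ) : QQ mm j = (2 : ℝ) ^ ((j : ℝ) ^ 2 + 4 * j - 4) := by
  unfold QQ
  rw [sg_mm]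
  have h1 : (16 : ℝ) * 8 ^ j = 2 ^ (4 + 3 * j) := by
    rw [pow_add, pow_mul]
    norm_num
  rw [h1, ← Real.rpow_natCast, ← Real.rpow_natCast, ← Real.rpow_sub (by norm_num)]
  congr 1
  push_cast
  ring

/-- every quadratic with negative leading coefficient is eventually negative -/
theorem quad_neg (a b d : ℝ) (ha : a < 0) : ∃ K : ℕ, ∀ k : ℕ, K ≤ k → a * (k : ℝ) ^ 2 + b * k + d ≤ 0 := by
  obtain ⟨K, hK⟩ := exists_nat_ge ((|b| + |d|) / (-a) + 1)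
  refine ⟨K, fun k hk => ?_⟩
  have ha' : 0 < -a := by linarith
  have hq : 0 ≤ (|b| + |d|) / (-a) := by positivity
  have hkK : (K : ℝ) ≤ k := by exact_mod_cast hk
  have hk1 : (1 : ℝ) ≤ k := by linarith
  have h1 : (|b| + |d|) / (-a) ≤ k := by linarith
  have h2 : |b| + |d| ≤ k * (-a) := by rwa [div_le_iff₀ ha'] at h1
  have h3 : b * k ≤ |b| * k := mul_le_mul_of_nonneg_right (le_abs_self b) (by linarith)
  have h4 : d ≤ |d| * k := by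
    have h5 := le_abs_self d
    have h6 := abs_nonneg d
    nlinarith
  have h7 : (|b| + |d|) * k ≤ k * (-a) * k := mul_le_mul_of_nonneg_right h2 (by linarith)
  nlinarith
-- END par0

-- BEGIN par1
theorem p_um {c : ℝ} (hc : 0 < c) : ∃ K : ℕ, (∀ k, K ≤ k → 2 ≤ uu c k) ∧
    ∀ l k, K ≤ l → l < k → uu c l + 2 ≤ uu c k := by
  have hK : 3 / c ≤ ((⌈3 / c⌉₊ + 1 : ℕ) : ℝ) := by
    push_cast
    have := Nat.le_ceil (3 / c)
    linarith
  refine ⟨⌈3 / c⌉₊ + 1, fun k hk => ?_, fun l k hl hlk => ?_⟩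
  · unfold uu
    apply Nat.le_floor
    have h1 : ((⌈3 / c⌉₊ + 1 : ℕ) : ℝ) ≤ (k : ℝ) := by exact_mod_cast hk
    have h2 : 3 ≤ c * (k : ℝ) := by
      have h3 : 3 / c ≤ (k : ℝ) := hK.trans h1
      rw [div_le_iff₀ hc] at h3
      linarith
    have h4 : (1 : ℝ) ≤ (k : ℝ) := by
      have : 1 ≤ k := by omega
      exact_mod_cast this
    push_cast
    nlinarith
  · unfold uu
    have h1 : ((⌈3 / c⌉₊ + 1 : ℕ) : ℝ) ≤ (l : ℝ) := by exact_mod_cast hl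
    have h2 : 3 ≤ c * (l : ℝ) := by
      have h3 : 3 / c ≤ (l : ℝ) := hK.trans h1
      rw [div_le_iff₀ hc] at h3
      linarith
    have h4 : (l : ℝ) + 1 ≤ (k : ℝ) := by exact_mod_cast hlk
    have h5 : c * (l : ℝ) ^ 2 + 2 ≤ c * (k : ℝ) ^ 2 := by
      have h6 : ((l : ℝ) + 1) ^ 2 ≤ (k : ℝ) ^ 2 := pow_le_pow_left₀ (by positivity) h4 2
      nlinarith
    have h7 : (0 : ℝ) ≤ c * (l : ℝ) ^ 2 := by positivity
    apply Nat.le_floor
    push_cast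
    have h8 := Nat.floor_le h7
    linarith

theorem p_dom {c s : ℝ} (hc : 0 < c) (hs : 0 < s) (k j : ℕ) (h1 : JJ s k ≤ j) :
    2 ^ uu c k < MM c s j := by
  unfold MM
  apply Nat.lt_succ_of_le
  apply Nat.pow_le_pow_right (by norm_num)
  unfold uu
  apply Nat.floor_le_floor
  unfold JJ at h1
  have h2 : s * (k : ℝ) < (j : ℝ) + 1 := by
    have h3 := Nat.lt_floor_add_one (s * (k : ℝ))
    have h4 : ((⌊s * (k : ℝ)⌋₊ : ℕ) : ℝ) ≤ (j : ℝ) := by exact_mod_cast h1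
    linarith
  have h3 : (k : ℝ) ≤ ((j : ℝ) + 1) / s := by
    rw [le_div_iff₀ hs]
    linarith
  have h4 : (k : ℝ) ≤ ((⌈((j : ℝ) + 1) / s⌉₊ : ℕ) : ℝ) := h3.trans (Nat.le_ceil _)
  exact mul_le_mul_of_nonneg_left (pow_le_pow_left₀ (by positivity) h4 2) hc.le

theorem p_J {s : ℝ} (hs : 0 < s) (hs1 : s < 1) : (∀ k, JJ s k ≤ k) ∧ Monotone (JJ s) := by
  refine ⟨fun k => ?_, fun a b hab => ?_⟩
  · unfold JJ
    have h1 : s * (k : ℝ) ≤ (k : ℝ) := by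
      have : (0 : ℝ) ≤ (k : ℝ) := Nat.cast_nonneg k
      nlinarith
    calc ⌊s * (k : ℝ)⌋₊ ≤ ⌊(k : ℝ)⌋₊ := Nat.floor_le_floor h1
      _ = k := Nat.floor_natCast k
  · unfold JJ
    apply Nat.floor_le_floor
    have : (a : ℝ) ≤ (b : ℝ) := by exact_mod_cast hab
    exact mul_le_mul_of_nonneg_left this hs.le
-- END par1

-- BEGIN pinj
/-- exponents: `c k^2 + 2 ≤ (s k - 1)^2 + 4 (s k - 1) - 4` for large `k` -/
theorem p_inj {c s : ℝ} (hc : 0 < c) (hs : 0 < s) (hcs : c < s ^ 2) :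
    ∃ K : ℕ, ∀ k, K ≤ k → (2 : ℝ) ^ (uu c k + 2) ≤ QQ mm (JJ s k) := by
  obtain ⟨K1, h1⟩ := quad_neg (c - s ^ 2) (-2 * s) 9 (by linarith)
  obtain ⟨K2, hK2⟩ := exists_nat_ge (1 / s)
  refine ⟨max K1 K2, fun k hk => ?_⟩
  have hk1 := h1 k ((le_max_left _ _).trans hk)
  have hk2 : (K2 : ℝ) ≤ k := by exact_mod_cast (le_max_right _ _).trans hk
  have hsk : 1 ≤ s * k := by
    have h2 : 1 / s ≤ k := hK2.trans hk2
    rw [div_le_iff₀ hs] at h2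
    linarith
  have hJ : s * k - 1 < (JJ s k : ℝ) := by
    have := Nat.lt_floor_add_one (s * (k : ℝ))
    unfold JJ
    linarith
  have hu : (uu c k : ℝ) ≤ c * (k : ℝ) ^ 2 := by
    unfold uu
    exact Nat.floor_le (by positivity)
  rw [QQ_mm, ← Real.rpow_natCast]
  apply Real.rpow_le_rpow_of_exponent_le (by norm_num)
  push_cast
  have h3 : 0 ≤ s * k - 1 := by linarith
  have h4 : (s * k - 1) ^ 2 ≤ (JJ s k : ℝ) ^ 2 := pow_le_pow_left₀ h3 hJ.le 2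
  nlinarith

-- END pinj

-- BEGIN pkil
/-- exponents: `l ≥ J k` gives `s k ≤ l + 1`, so `c k^2 + c l^2 ≤ c (l+1)^2 / s^2 + c l^2`, with leading coefficient
`c / s^2 + c < s^2` -/
theorem p_kill {c s : ℝ} (hc : 0 < c) (hs : 0 < s) (hs1 : s < 1) (hcs : c * (1 + s ^ 2) < s ^ 4) :
    ∃ K : ℕ, ∀ k l, K ≤ l → l ≤ k → JJ s k ≤ l → (2 : ℝ) ^ (uu c k + uu c l) ≤ QQ mm (JJ s l) := by
  have ha : c / s ^ 2 + c - s ^ 2 < 0 := by
    have h1 : (c / s ^ 2 + c - s ^ 2) * s ^ 2 = c * (1 + s ^ 2) - s ^ 4 := by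
      field_simp
    have h2 : (c / s ^ 2 + c - s ^ 2) * s ^ 2 < 0 := by rw [h1]; linarith
    have h3 : (0 : ℝ) < s ^ 2 := by positivity
    by_contra hcon
    push Not at hcon
    have := mul_nonneg hcon h3.le
    linarith
  obtain ⟨K, hK⟩ := quad_neg (c / s ^ 2 + c - s ^ 2) (2 * (c / s ^ 2) - 2 * s) (c / s ^ 2 + 7) ha
  refine ⟨max K ⌈1 / s⌉₊, fun k l hl hlk hJ => ?_⟩
  have hq := hK l ((le_max_left _ _).trans hl)
  have hl1 : 1 ≤ s * (l : ℝ) := by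
    have h1 : ((⌈1 / s⌉₊ : ℕ) : ℝ) ≤ (l : ℝ) := by exact_mod_cast (le_max_right _ _).trans hl
    have h2 : 1 / s ≤ (l : ℝ) := (Nat.le_ceil _).trans h1
    rw [div_le_iff₀ hs] at h2
    linarith
  rw [QQ_mm, ← Real.rpow_natCast]
  apply Real.rpow_le_rpow_of_exponent_le (by norm_num)
  push_cast
  have h1 : ((uu c k : ℕ) : ℝ) ≤ c * (k : ℝ) ^ 2 := Nat.floor_le (by positivity)
  have h2 : ((uu c l : ℕ) : ℝ) ≤ c * (l : ℝ) ^ 2 := Nat.floor_le (by positivity)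
  have h3 : s * (k : ℝ) ≤ (l : ℝ) + 1 := by
    have h4 := Nat.lt_floor_add_one (s * (k : ℝ))
    have h5 : ((⌊s * (k : ℝ)⌋₊ : ℕ) : ℝ) ≤ (l : ℝ) := by exact_mod_cast hJ
    linarith
  have h4 : c * (k : ℝ) ^ 2 ≤ c / s ^ 2 * ((l : ℝ) + 1) ^ 2 := by
    have h5 : (s * (k : ℝ)) ^ 2 ≤ ((l : ℝ) + 1) ^ 2 := pow_le_pow_left₀ (by positivity) h3 2
    have h6 : c / s ^ 2 * (s * (k : ℝ)) ^ 2 = c * (k : ℝ) ^ 2 := by
      field_simp
    rw [← h6]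
    exact mul_le_mul_of_nonneg_left h5 (by positivity)
  have h5 : s * (l : ℝ) - 1 ≤ ((JJ s l : ℕ) : ℝ) := by
    have h6 := Nat.lt_floor_add_one (s * (l : ℝ))
    unfold JJ
    linarith
  have h6 : (s * (l : ℝ) - 1) ^ 2 ≤ ((JJ s l : ℕ) : ℝ) ^ 2 :=
    pow_le_pow_left₀ (by linarith) h5 2
  nlinarith
-- END pkil

-- BEGIN pbig
/-- exponents: `c k^2 + 2 + g (2 j + 8) ≤ j^2 + 4 j - 4` for `k^2 ≤ 2 j^2` and large `k`, `c < 1/2` -/
theorem p_big (g : ℕ) {c : ℝ} (hc : 0 < c) (hc2 : c < 1 / 2) :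
    ∃ K : ℕ, ∀ k j : ℕ, K ≤ k → k ^ 2 ≤ 2 * j ^ 2 →
      (2 : ℝ) ^ (uu c k + 2 + mm j * g) ≤ QQ mm j := by
  obtain ⟨K, hK⟩ := quad_neg (2 * c - 1) (2 * g - 4) (8 * g + 6) (by linarith)
  refine ⟨2 * K, ?_⟩
  intro k j hk hkj
  have hj : K ≤ j := by
    by_contra hlt
    push Not at hlt
    have h1 : j ^ 2 < K ^ 2 := Nat.pow_lt_pow_left hlt (by norm_num)
    have h2 : (2 * K) ^ 2 ≤ k ^ 2 := Nat.pow_le_pow_left hk 2
    rw [mul_pow] at h2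
    omega
  have hq := hK j hj
  rw [QQ_mm, ← Real.rpow_natCast]
  apply Real.rpow_le_rpow_of_exponent_le (by norm_num)
  have hu : (uu c k : ℝ) ≤ c * (k : ℝ) ^ 2 := Nat.floor_le (by positivity)
  have hkj' : (k : ℝ) ^ 2 ≤ 2 * (j : ℝ) ^ 2 := by exact_mod_cast hkj
  have h3 : c * (k : ℝ) ^ 2 ≤ c * (2 * (j : ℝ) ^ 2) := mul_le_mul_of_nonneg_left hkj' hc.le
  unfold mm
  push_cast
  nlinarith
-- END pbig

-- BEGIN par3
/-- `card_Pr_ge` (file TwR/Prm.lean) and `β (k^2 + O(k)) ≤ c k^2 - log2 (c k^2) - O(1)` -/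
theorem p_dens {c β : ℝ} (hβ : 0 < β) (hc : β < c) :
    ∃ K : ℕ, ∀ k, K ≤ k → 0 < (Pr (uu c k)).card ∧
      ((2 : ℝ) ^ (sg mm (k + 1) + 2 * (k + 1))) ^ β ≤ ((Pr (uu c k)).card : ℝ) / 2 := by
  have h20 : (0 : ℝ) < 2 := by norm_num
  have hc0 : 0 < c := hβ.trans hc
  obtain ⟨e, he0, m0, he⟩ := card_Pr_ge
  obtain ⟨g0, hg0⟩ : ∃ g0 : ℕ, (2 : ℝ) ^ (-(g0 : ℝ)) ≤ e := by
    obtain ⟨g0, hg0⟩ := exists_pow_lt_of_lt_one he0 (by norm_num : (1 / 2 : ℝ) < 1)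
    refine ⟨g0, ?_⟩
    rw [Real.rpow_neg h20.le, Real.rpow_natCast]
    rw [one_div, inv_pow] at hg0
    exact hg0.le
  obtain ⟨g1, hg1⟩ : ∃ g1 : ℕ, c ≤ (2 : ℝ) ^ (g1 : ℝ) := by
    obtain ⟨g1, hg1⟩ := pow_unbounded_of_one_lt c (by norm_num : (1 : ℝ) < 2)
    exact ⟨g1, by rw [Real.rpow_natCast]; exact hg1.le⟩
  obtain ⟨K1, hK1⟩ := quad_neg (β - c) (11 * β + 2) (10 * β + 2 + g0 + g1) (by linarith)
  obtain ⟨K2, hK2⟩ := quad_neg (-c) 0 (m0 + 2) (by linarith)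
  refine ⟨max K1 K2, ?_⟩
  intro k hk
  have h1 := hK1 k (le_trans (le_max_left _ _) hk)
  have h2 := hK2 k (le_trans (le_max_right _ _) hk)
  have hlow : c * (k : ℝ) ^ 2 - 1 < (uu c k : ℝ) := by
    have := Nat.lt_floor_add_one (c * (k : ℝ) ^ 2)
    unfold uu
    linarith
  have hup : (uu c k : ℝ) ≤ c * (k : ℝ) ^ 2 := Nat.floor_le (by positivity)
  have hum : (m0 : ℝ) + 1 ≤ (uu c k : ℝ) := by linarith
  have hum' : m0 + 1 ≤ uu c k := by exact_mod_cast hum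
  have hupos : (0 : ℝ) < (uu c k : ℝ) := by
    have : 0 < uu c k := by omega
    exact_mod_cast this
  have hcard := he (uu c k) (by omega)
  have hu2 : (uu c k : ℝ) ≤ (2 : ℝ) ^ ((g1 : ℝ) + 2 * k) := by
    have t1 : (k : ℝ) ≤ 2 ^ k := by exact_mod_cast (Nat.lt_two_pow_self (n := k)).le
    have t2 : (k : ℝ) ^ 2 ≤ ((2 : ℝ) ^ k) ^ 2 := by gcongr
    have t3 : ((2 : ℝ) ^ k) ^ 2 = (2 : ℝ) ^ (2 * (k : ℝ)) := by
      rw [← pow_mul, ← Real.rpow_natCast]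
      congr 1
      push_cast
      ring
    rw [t3] at t2
    rw [Real.rpow_add h20]
    refine hup.trans ?_
    exact mul_le_mul hg1 t2 (by positivity) (Real.rpow_nonneg h20.le _)
  have hmain : (2 : ℝ) ^ ((uu c k : ℝ) - g0 - g1 - 2 * k) ≤ e * 2 ^ uu c k / uu c k := by
    rw [le_div_iff₀ hupos]
    have t1 : (2 : ℝ) ^ ((uu c k : ℝ) - g0 - g1 - 2 * k) * (2 : ℝ) ^ ((g1 : ℝ) + 2 * k) =
        (2 : ℝ) ^ (-(g0 : ℝ)) * 2 ^ uu c k := by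
      rw [← Real.rpow_natCast 2 (uu c k), ← Real.rpow_add h20, ← Real.rpow_add h20]
      congr 1
      ring
    calc (2 : ℝ) ^ ((uu c k : ℝ) - g0 - g1 - 2 * k) * uu c k
        ≤ (2 : ℝ) ^ ((uu c k : ℝ) - g0 - g1 - 2 * k) * (2 : ℝ) ^ ((g1 : ℝ) + 2 * k) :=
          mul_le_mul_of_nonneg_left hu2 (Real.rpow_nonneg h20.le _)
      _ = (2 : ℝ) ^ (-(g0 : ℝ)) * 2 ^ uu c k := t1
      _ ≤ e * 2 ^ uu c k := mul_le_mul_of_nonneg_right hg0 (by positivity)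
  have hc1 : (2 : ℝ) ^ ((uu c k : ℝ) - g0 - g1 - 2 * k) ≤ ((Pr (uu c k)).card : ℝ) :=
    hmain.trans hcard
  constructor
  · have : (0 : ℝ) < ((Pr (uu c k)).card : ℝ) := lt_of_lt_of_le (Real.rpow_pos_of_pos h20 _) hc1
    exact_mod_cast this
  · rw [le_div_iff₀ h20]
    refine le_trans ?_ hc1
    rw [← Real.rpow_natCast 2 (sg mm (k + 1) + 2 * (k + 1)), ← Real.rpow_mul h20.le]
    have t1 : (2 : ℝ) ^ (((sg mm (k + 1) + 2 * (k + 1) : ℕ) : ℝ) * β) * 2 =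
        (2 : ℝ) ^ (((sg mm (k + 1) + 2 * (k + 1) : ℕ) : ℝ) * β + 1) := by
      rw [Real.rpow_add h20, Real.rpow_one]
    rw [t1]
    apply Real.rpow_le_rpow_of_exponent_le (by norm_num)
    rw [sg_mm]
    push_cast
    nlinarith
-- END par3

-- BEGIN par4
private theorem par4_sub (a b : ℕ) : (a : ℝ) - b ≤ ((a - b : ℕ) : ℝ) := by
  have h : a ≤ (a - b) + b := le_tsub_add
  have : (a : ℝ) ≤ ((a - b : ℕ) : ℝ) + b := by exact_mod_cast h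
  linarith

/-- the exponent on the right -/
private theorem par4_wex (s : ℝ) (k l r t : ℕ) (ht : t < r) :
    (r : ℝ) * ((l : ℝ) ^ 2 + 7 * l - ((JJ s l : ℝ) ^ 2 + 7 * JJ s l)) +
      ((r : ℝ) - t) * ((JJ s k : ℝ) ^ 2 + 7 * JJ s k - ((lo k l : ℝ) ^ 2 + 7 * lo k l)) +
      r * ((k : ℝ) ^ 2 + 7 * k - ((JJ s k : ℝ) ^ 2 + 7 * JJ s k)) ≤
    ((wex mm (JJ s) k l r t : ℕ) : ℝ) := by
  have hrt : ((r - t : ℕ) : ℝ) = (r : ℝ) - t := by
    rw [Nat.cast_sub ht.le]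
  have e : ∀ a b : ℕ, (a : ℝ) ^ 2 + 7 * a - ((b : ℝ) ^ 2 + 7 * b) ≤ ((sg mm a - sg mm b : ℕ) : ℝ) := by
    intro a b
    have := par4_sub (sg mm a) (sg mm b)
    rw [sg_mm, sg_mm] at this
    push_cast at this
    rw [sg_mm, sg_mm]
    exact this
  unfold wex
  push_cast [hrt]
  have h1 := mul_le_mul_of_nonneg_left (e l (JJ s l)) (Nat.cast_nonneg (α := ℝ) r)
  have h2 := mul_le_mul_of_nonneg_left (e (JJ s k) (lo k l))
    (show (0 : ℝ) ≤ (r : ℝ) - t by rw [← hrt]; positivity)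
  have h3 := mul_le_mul_of_nonneg_left (e k (JJ s k)) (Nat.cast_nonneg (α := ℝ) r)
  rw [← hrt] at h2 ⊢
  exact add_le_add (add_le_add h1 h2) h3

/-- the exponent on the left -/
private theorem par4_left (g : ℕ) (c s : ℝ) (k l r t : ℕ) (ht : t < r) :
    (2 : ℝ) ^ uu c l * (2 ^ (uu c k + uu c l) / (2 * QQ mm (JJ s l))) ^ (r - t) *
        ((k : ℝ) * (2 * 2 ^ mm k + 1) ^ (r + 1)) ^ t * 2 ^ ((4 * g + 1) * k) *
        (2 ^ (g + 1) * (2 * k * 2 ^ (k + 1))) ≤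
      (2 : ℝ) ^ ((uu c l : ℝ) + ((r : ℝ) - t) * ((uu c k : ℝ) + uu c l - 1 -
        ((JJ s l : ℝ) ^ 2 + 4 * JJ s l - 4)) + t * ((k : ℝ) + (r + 1) * (2 * k + 10)) +
        (4 * g + 1) * k + (g + 1 + (1 + k + (k + 1)))) := by
  have hrt : ((r - t : ℕ) : ℝ) = (r : ℝ) - t := by
    rw [Nat.cast_sub ht.le]
  have hk2 : (k : ℝ) ≤ 2 ^ k := by exact_mod_cast Nat.lt_two_pow_self.le
  have e1 : (2 : ℝ) ^ uu c l = (2 : ℝ) ^ (uu c l : ℝ) := (Real.rpow_natCast _ _).symm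
  have e2 : ((2 : ℝ) ^ (uu c k + uu c l) / (2 * QQ mm (JJ s l))) ^ (r - t) =
      (2 : ℝ) ^ (((r : ℝ) - t) * ((uu c k : ℝ) + uu c l - 1 -
        ((JJ s l : ℝ) ^ 2 + 4 * JJ s l - 4))) := by
    rw [QQ_mm, ← hrt, mul_comm (((r - t : ℕ) : ℝ)), Real.rpow_mul (by norm_num), Real.rpow_natCast]
    congr 1
    generalize (JJ s l : ℝ) ^ 2 + 4 * JJ s l - 4 = Y
    rw [Real.rpow_sub (by norm_num), Real.rpow_sub (by norm_num), Real.rpow_add (by norm_num),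
      Real.rpow_natCast, Real.rpow_natCast, Real.rpow_one, pow_add, div_div]
  have e3 : ((k : ℝ) * (2 * 2 ^ mm k + 1) ^ (r + 1)) ^ t ≤
      (2 : ℝ) ^ ((t : ℝ) * ((k : ℝ) + (r + 1) * (2 * k + 10))) := by
    have hb : (2 : ℝ) * 2 ^ mm k + 1 ≤ 2 ^ (2 * k + 10) := by
      have h1 : (1 : ℝ) ≤ 2 ^ mm k := one_le_pow₀ (by norm_num)
      have h2 : (2 : ℝ) ^ (2 * k + 10) = 4 * 2 ^ mm k := by
        unfold mm
        rw [show 2 * k + 10 = (2 * k + 8) + 2 by ring, pow_add]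
        ring
      rw [h2]
      linarith
    calc ((k : ℝ) * (2 * 2 ^ mm k + 1) ^ (r + 1)) ^ t
        ≤ (2 ^ k * (2 ^ (2 * k + 10)) ^ (r + 1)) ^ t := by gcongr
      _ = (2 : ℝ) ^ (t * (k + (r + 1) * (2 * k + 10)) : ℕ) := by
          rw [← pow_mul, ← pow_add, ← pow_mul]
          congr 1
          ring
      _ = (2 : ℝ) ^ ((t : ℝ) * ((k : ℝ) + (r + 1) * (2 * k + 10))) := by
          rw [← Real.rpow_natCast]
          push_cast
          rfl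
  have e4 : (2 : ℝ) ^ ((4 * g + 1) * k) = (2 : ℝ) ^ ((4 * (g : ℝ) + 1) * k) := by
    rw [← Real.rpow_natCast]
    push_cast
    rfl
  have e5 : (2 : ℝ) ^ (g + 1) * (2 * k * 2 ^ (k + 1)) ≤ (2 : ℝ) ^ ((g : ℝ) + 1 + (1 + k + (k + 1))) := by
    calc (2 : ℝ) ^ (g + 1) * (2 * k * 2 ^ (k + 1)) ≤ 2 ^ (g + 1) * (2 * 2 ^ k * 2 ^ (k + 1)) := by
          gcongr
      _ = (2 : ℝ) ^ (g + 1 + (1 + k + (k + 1)) : ℕ) := by
          rw [pow_add 2 (g + 1), pow_add 2 (1 + k), pow_add 2 1 k, pow_one]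
      _ = _ := by
          rw [← Real.rpow_natCast]
          push_cast
          rfl
  have h2 : (0 : ℝ) < 2 := by norm_num
  rw [Real.rpow_add h2, Real.rpow_add h2, Real.rpow_add h2, Real.rpow_add h2, ← e1, ← e2, ← e4]
  have hq : 0 < QQ mm (JJ s l) := by
    rw [QQ_mm]
    positivity
  gcongr

/-- the quadratic form in the first case -/
private theorem par4_F {g t c s X K : ℝ} (htg : t ≤ g) (hg : 1 ≤ g) (hc : 0 < c)
    (hs : 0 < s) (hs1 : s < 1)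
    (hcs : c * (1 + s ^ 2) < s ^ 4) (hX0 : 0 ≤ X) (hXK : X ≤ s ^ 2 * K) (hK : 0 ≤ K) :
    c * X + (g - t) * (c * (K + X)) + t * (s ^ 2 * (K + X)) - g * (K + X) + (g - t) * X ≤
      - min (1 - s ^ 2) (g * (1 - s ^ 4) - c * s ^ 2) * K := by
  have hs2 : s ^ 2 < 1 := by nlinarith
  have hs2' : 0 < s ^ 2 := by positivity
  have hcs2 : c < s ^ 2 := by nlinarith
  set δ := min (1 - s ^ 2) (g * (1 - s ^ 4) - c * s ^ 2) with hδ
  have hδ1 : δ ≤ 1 - s ^ 2 := min_le_left _ _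
  have hδ2 : δ ≤ g * (1 - s ^ 4) - c * s ^ 2 := min_le_right _ _
  have ha : 0 ≤ g - t := by linarith
  -- value at 0
  have v0 : (g - t) * c + t * s ^ 2 - g ≤ -δ := by
    have h1 : (g - t) * c ≤ (g - t) * s ^ 2 := mul_le_mul_of_nonneg_left hcs2.le ha
    have h2 : (1 - s ^ 2) ≤ g * (1 - s ^ 2) := by nlinarith
    linarith
  have v1 : (c * (1 + (g - t)) - t * (1 - s ^ 2)) * s ^ 2 + ((g - t) * c + t * s ^ 2 - g) ≤ -δ := by
    have h1 : (g - t) * (c * (1 + s ^ 2)) ≤ (g - t) * s ^ 4 :=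
      mul_le_mul_of_nonneg_left hcs.le ha
    linarith
  have e : c * X + (g - t) * (c * (K + X)) + t * (s ^ 2 * (K + X)) - g * (K + X) + (g - t) * X =
      (c * (1 + (g - t)) - t * (1 - s ^ 2)) * X + ((g - t) * c + t * s ^ 2 - g) * K := by ring
  rw [e]
  rcases le_total (c * (1 + (g - t)) - t * (1 - s ^ 2)) 0 with h | h
  · have h1 : (c * (1 + (g - t)) - t * (1 - s ^ 2)) * X ≤ 0 := mul_nonpos_of_nonpos_of_nonneg h hX0
    have h2 : ((g - t) * c + t * s ^ 2 - g) * K ≤ -δ * K := mul_le_mul_of_nonneg_right v0 hK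
    linarith
  · have h1 : (c * (1 + (g - t)) - t * (1 - s ^ 2)) * X ≤
        (c * (1 + (g - t)) - t * (1 - s ^ 2)) * (s ^ 2 * K) := mul_le_mul_of_nonneg_left hXK h
    have h2 : ((c * (1 + (g - t)) - t * (1 - s ^ 2)) * s ^ 2 + ((g - t) * c + t * s ^ 2 - g)) * K ≤
        -δ * K := mul_le_mul_of_nonneg_right v1 hK
    linarith

/-- the linear terms -/
private theorem par4_lin {g r t k l Jk Jl L ul uk : ℝ} (ht0 : 0 ≤ t) (htr : t ≤ r) (hrg : r ≤ g)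
    (hJk0 : 0 ≤ Jk) (hJk : Jk ≤ k) (hJl0 : 0 ≤ Jl) (hJl : Jl ≤ l) (hk : 0 ≤ k)
    (hL : L ≤ k + 1) :
    ul + (r - t) * (uk + ul - 1 - (Jl ^ 2 + 4 * Jl - 4)) + t * (k + (r + 1) * (2 * k + 10)) +
        (4 * g + 1) * k + (g + 1 + (1 + k + (k + 1))) -
      (r * (l ^ 2 + 7 * l - (Jl ^ 2 + 7 * Jl)) +
        (r - t) * (Jk ^ 2 + 7 * Jk - (L ^ 2 + 7 * L)) +
        r * (k ^ 2 + 7 * k - (Jk ^ 2 + 7 * Jk))) ≤
      (ul + (r - t) * (uk + ul) + t * (Jl ^ 2 + Jk ^ 2) - r * (k ^ 2 + l ^ 2) + (r - t) * L ^ 2) +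
        ((2 * g ^ 2 + 14 * g + 3) * k + (10 * g ^ 2 + 21 * g + 3)) := by
  have h0 : 0 ≤ r - t := by linarith
  have hr0 : 0 ≤ r := by linarith
  have hg0 : 0 ≤ g := by linarith
  have a1 : 0 ≤ (r - t) * Jl := mul_nonneg h0 hJl0
  have a2 : 0 ≤ (r - t) * Jk := mul_nonneg h0 hJk0
  have a3 : r * Jl ≤ r * l := mul_le_mul_of_nonneg_left hJl hr0
  have a4 : r * Jk ≤ r * k := mul_le_mul_of_nonneg_left hJk hr0
  have a5 : (r - t) * L ≤ g * (k + 1) :=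
    (mul_le_mul_of_nonneg_left hL h0).trans (mul_le_mul_of_nonneg_right (by linarith) (by linarith))
  have a6 : t * (k + (r + 1) * (2 * k + 10)) ≤ g * (k + (g + 1) * (2 * k + 10)) := by
    apply mul_le_mul (by linarith) _ (by positivity) hg0
    have : (r + 1) * (2 * k + 10) ≤ (g + 1) * (2 * k + 10) :=
      mul_le_mul_of_nonneg_right (by linarith) (by linarith)
    linarith
  linarith

/-- PROOF. All factors are powers of two; the difference of the exponents is at most `F + C k + C`,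
`F = c l^2 + (r - t) c (k^2 + l^2) + t s^2 (k^2 + l^2) - r (k^2 + l^2) + (r - t) lo^2`, which is a negative
definite form in `k` for `0 ≤ l ≤ s k` (`par4_F`). -/
theorem p_main {g : ℕ} (hg : 1 ≤ g) {c s : ℝ} (hc : 0 < c) (hs : 0 < s) (hs1 : s < 1)
    (hcs : c * (1 + s ^ 2) < s ^ 4) (hcg : c * s ^ 2 < g * (1 - s ^ 4)) :
    ∃ K : ℕ, ∀ k l t, K ≤ k → l < JJ s k → t < rr g k l →
      (2 : ℝ) ^ uu c l * (2 ^ (uu c k + uu c l) / (2 * QQ mm (JJ s l))) ^ (rr g k l - t) *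
        ((k : ℝ) * (2 * 2 ^ mm k + 1) ^ (rr g k l + 1)) ^ t * 2 ^ ((4 * g + 1) * k) *
        (2 ^ (g + 1) * (2 * k * 2 ^ (k + 1))) ≤ 2 ^ wex mm (JJ s) k l (rr g k l) t := by
  have hg' : (1 : ℝ) ≤ g := by exact_mod_cast hg
  have hs2 : s ^ 2 < 1 := by nlinarith
  have hs2' : 0 < s ^ 2 := by positivity
  have hc2 : c < 1 / 2 := by nlinarith
  set δ := min (min (1 - s ^ 2) (g * (1 - s ^ 4) - c * s ^ 2)) (1 / 2 - c) with hδ
  have hδ0 : 0 < δ := by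
    refine lt_min (lt_min (by linarith) (by linarith)) (by linarith)
  have hδ1 : δ ≤ min (1 - s ^ 2) (g * (1 - s ^ 4) - c * s ^ 2) := min_le_left _ _
  have hδ2 : δ ≤ 1 / 2 - c := min_le_right _ _
  obtain ⟨K, hK⟩ := quad_neg (-δ) (2 * g + (2 * g ^ 2 + 14 * g + 3)) (g + (10 * g ^ 2 + 21 * g + 3))
    (by linarith)
  refine ⟨K, fun k l t hk hl ht => ?_⟩
  refine (par4_left g c s k l _ t ht).trans ?_
  rw [← Real.rpow_natCast (2 : ℝ) (wex mm (JJ s) k l (rr g k l) t)]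
  apply Real.rpow_le_rpow_of_exponent_le (by norm_num)
  refine le_trans ?_ (par4_wex s k l _ t ht)
  have hkk := hK k hk
  -- sizes
  have hl' : (l : ℝ) ≤ s * k := by
    have h1 : (l : ℝ) ≤ JJ s k := by exact_mod_cast hl.le
    exact h1.trans (Nat.floor_le (by positivity))
  have hlk : (l : ℝ) ≤ k := hl'.trans (by nlinarith [Nat.cast_nonneg (α := ℝ) k])
  have hlkN : l ≤ k := by exact_mod_cast hlk
  have hJs : ∀ n : ℕ, (JJ s n : ℝ) ≤ s * n := fun n => Nat.floor_le (by positivity)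
  have hJn : ∀ n : ℕ, (JJ s n : ℝ) ≤ n := fun n =>
    (hJs n).trans (by nlinarith [Nat.cast_nonneg (α := ℝ) n])
  have hJ2 : ∀ n : ℕ, (JJ s n : ℝ) ^ 2 ≤ s ^ 2 * (n : ℝ) ^ 2 := by
    intro n
    rw [← mul_pow]
    exact pow_le_pow_left₀ (Nat.cast_nonneg _) (hJs n) 2
  have huc : ∀ n : ℕ, (uu c n : ℝ) ≤ c * (n : ℝ) ^ 2 := fun n => Nat.floor_le (by positivity)
  have hk0 : (0 : ℝ) ≤ k := Nat.cast_nonneg k
  have hl0 : (0 : ℝ) ≤ l := Nat.cast_nonneg l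
  have ht0 : (0 : ℝ) ≤ t := Nat.cast_nonneg t
  have hl2 : (l : ℝ) ^ 2 ≤ s ^ 2 * (k : ℝ) ^ 2 := by
    rw [← mul_pow]
    exact pow_le_pow_left₀ hl0 hl' 2
  by_cases hcase : 2 * l ^ 2 < k ^ 2
  · -- pairs
    have hr : rr g k l = 1 := by
      unfold rr
      rw [if_pos hcase]
    rw [hr] at ht ⊢
    obtain rfl : t = 0 := by omega
    have hsq : Nat.sqrt (k ^ 2 / 2) ^ 2 ≤ k ^ 2 / 2 := Nat.sqrt_le' _
    have hlsq : l ≤ Nat.sqrt (k ^ 2 / 2) := by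
      rw [Nat.le_sqrt']
      omega
    have hlo : lo k l = Nat.sqrt (k ^ 2 / 2) + 1 := by
      unfold lo
      exact max_eq_right (by omega)
    have hq1 : (Nat.sqrt (k ^ 2 / 2) : ℝ) ^ 2 ≤ (k : ℝ) ^ 2 / 2 := by
      have h1 : 2 * Nat.sqrt (k ^ 2 / 2) ^ 2 ≤ k ^ 2 := by omega
      have h2 : 2 * (Nat.sqrt (k ^ 2 / 2) : ℝ) ^ 2 ≤ (k : ℝ) ^ 2 := by exact_mod_cast h1
      linarith
    have hq2 : (Nat.sqrt (k ^ 2 / 2) : ℝ) ≤ k := by
      apply le_of_sq_le_sq _ hk0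
      linarith [sq_nonneg (k : ℝ)]
    have hL1 : (lo k l : ℝ) ≤ k + 1 := by
      rw [hlo]
      push_cast
      linarith
    have hL2 : (lo k l : ℝ) ^ 2 ≤ (k : ℝ) ^ 2 / 2 + (2 * k + 1) := by
      rw [hlo]
      push_cast
      have e : ((Nat.sqrt (k ^ 2 / 2) : ℝ) + 1) ^ 2 =
        (Nat.sqrt (k ^ 2 / 2) : ℝ) ^ 2 + (2 * (Nat.sqrt (k ^ 2 / 2) : ℝ) + 1) := by ring
      linarith
    have key := par4_lin (g := (g : ℝ)) (r := 1) (t := 0) (k := k) (l := l) (Jk := JJ s k)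
      (Jl := JJ s l) (L := lo k l) (ul := uu c l) (uk := uu c k) le_rfl zero_le_one hg'
      (Nat.cast_nonneg _) (hJn k) (Nat.cast_nonneg _) (hJn l) hk0 hL1
    have h1 := huc l
    have h2 := huc k
    push_cast
    have h3 : -δ * (k : ℝ) ^ 2 ≥ -(1 / 2 - c) * (k : ℝ) ^ 2 := by
      have := mul_le_mul_of_nonneg_right hδ2 (sq_nonneg (k : ℝ))
      linarith
    have h4 : (2 * c - 1) * (l : ℝ) ^ 2 ≤ 0 :=
      mul_nonpos_of_nonpos_of_nonneg (by linarith) (sq_nonneg _)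
    have h5 : 1 * (k : ℝ) ≤ g * k := mul_le_mul_of_nonneg_right hg' hk0
    linarith
  · have hr : rr g k l = g := by
      unfold rr
      rw [if_neg hcase]
    rw [hr] at ht ⊢
    have hcase' : k ^ 2 ≤ 2 * l ^ 2 := by omega
    have hsq : Nat.sqrt (k ^ 2 / 2) ≤ l := by
      have h1 : k ^ 2 / 2 ≤ l ^ 2 := by omega
      calc Nat.sqrt (k ^ 2 / 2) ≤ Nat.sqrt (l ^ 2) := Nat.sqrt_le_sqrt h1
        _ = l := Nat.sqrt_eq' l
    have hloN : lo k l ≤ l + 1 := by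
      unfold lo
      omega
    have hlo : (lo k l : ℝ) ≤ l + 1 := by exact_mod_cast hloN
    have hL1 : (lo k l : ℝ) ≤ k + 1 := by linarith
    have hL2 : (lo k l : ℝ) ^ 2 ≤ (l : ℝ) ^ 2 + (2 * k + 1) := by
      have h1 := pow_le_pow_left₀ (Nat.cast_nonneg _) hlo 2
      have e : ((l : ℝ) + 1) ^ 2 = (l : ℝ) ^ 2 + (2 * l + 1) := by ring
      linarith
    have htg : (t : ℝ) ≤ g := by exact_mod_cast ht.le
    have key := par4_lin (g := (g : ℝ)) (r := g) (t := t) (k := k) (l := l) (Jk := JJ s k)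
      (Jl := JJ s l) (L := lo k l) (ul := uu c l) (uk := uu c k) ht0 htg le_rfl
      (Nat.cast_nonneg _) (hJn k) (Nat.cast_nonneg _) (hJn l) hk0 hL1
    have hF := par4_F (g := (g : ℝ)) (t := t) (c := c) (s := s) (X := (l : ℝ) ^ 2)
      (K := (k : ℝ) ^ 2) htg hg' hc hs hs1 hcs (sq_nonneg _) hl2 (sq_nonneg _)
    have h0 : (0 : ℝ) ≤ g - t := by linarith
    have h1 := huc l
    have h2 : ((g : ℝ) - t) * (uu c k + uu c l) ≤ (g - t) * (c * ((k : ℝ) ^ 2 + (l : ℝ) ^ 2)) := by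
      apply mul_le_mul_of_nonneg_left _ h0
      have := huc k
      linarith
    have h3 : (t : ℝ) * ((JJ s l : ℝ) ^ 2 + (JJ s k : ℝ) ^ 2) ≤
        t * (s ^ 2 * ((k : ℝ) ^ 2 + (l : ℝ) ^ 2)) := by
      apply mul_le_mul_of_nonneg_left _ ht0
      have h4 := hJ2 k
      have h5 := hJ2 l
      linarith
    have h6 : ((g : ℝ) - t) * (lo k l : ℝ) ^ 2 ≤ (g - t) * (l : ℝ) ^ 2 + g * (2 * k + 1) := by
      have h7 := mul_le_mul_of_nonneg_left hL2 h0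
      have h8 : ((g : ℝ) - t) * (2 * k + 1) ≤ g * (2 * k + 1) :=
        mul_le_mul_of_nonneg_right (by linarith) (by linarith)
      linarith
    have h9 : - min (1 - s ^ 2) (g * (1 - s ^ 4) - c * s ^ 2) * (k : ℝ) ^ 2 ≤ -δ * (k : ℝ) ^ 2 := by
      have := mul_le_mul_of_nonneg_right hδ1 (sq_nonneg (k : ℝ))
      linarith
    linarith
-- END par4

-- BEGIN par5
/-- PROOF. Take `s = √θ` and `c` between `β` and `θ^2 / (1 + θ)`; then `c (1 + s^2) < s^4`,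
`c s^2 < θ^3 / (1 + θ) ≤ g (1 - θ) (1 + θ) = g (1 - s^4)`, `c < θ = s^2`, `c < 1 / 2`; `k0` the maximum of the `K` and `1`. -/
theorem exists_params {g : ℕ} (hg : 1 ≤ g) {θ β : ℝ} (h0 : 0 < θ) (h1 : θ < 1)
    (h2 : θ ^ 3 ≤ g * (1 - θ) * (1 + θ) ^ 2) (hβ : 0 < β) (h3 : β < θ ^ 2 / (1 + θ)) :
    ∃ (m u J M : ℕ → ℕ) (k0 : ℕ), Params g β m u J M k0 := by
  obtain ⟨c, hβc, hcθ⟩ := exists_between h3
  have hc : 0 < c := hβ.trans hβc
  have h1θ : (0 : ℝ) < 1 + θ := by linarith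
  have hcθ' : c * (1 + θ) < θ ^ 2 := (lt_div_iff₀ h1θ).1 hcθ
  set s : ℝ := √θ with hsdef
  have hs : 0 < s := Real.sqrt_pos.2 h0
  have hs2 : s ^ 2 = θ := Real.sq_sqrt h0.le
  have hs4 : s ^ 4 = θ ^ 2 := by
    rw [← hs2]
    ring
  have hs1 : s < 1 := by
    nlinarith [hs2]
  have hcs : c * (1 + s ^ 2) < s ^ 4 := by
    rw [hs2, hs4]
    exact hcθ'
  have hθ2 : θ ^ 2 < θ := by nlinarith
  have hcθ2 : c < θ := by nlinarith
  have hc12 : c < 1 / 2 := by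
    nlinarith
  have hcg : c * s ^ 2 < g * (1 - s ^ 4) := by
    rw [hs2, hs4]
    have e1 : c * θ * (1 + θ) < θ ^ 3 := by nlinarith
    have e2 : (g : ℝ) * (1 - θ) * (1 + θ) ^ 2 = (g * (1 - θ ^ 2)) * (1 + θ) := by ring
    have e3 : c * θ * (1 + θ) < (g * (1 - θ ^ 2)) * (1 + θ) := by linarith
    exact lt_of_mul_lt_mul_right e3 h1θ.le
  obtain ⟨Ka, hKa1, hKa2⟩ := p_um hc
  obtain ⟨hJ1, hJ2⟩ := p_J hs hs1
  obtain ⟨Kb, hKb⟩ := p_inj hc hs (by rw [hs2]; exact hcθ2)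
  obtain ⟨Kc, hKc⟩ := p_kill hc hs hs1 hcs
  obtain ⟨Kd, hKd⟩ := p_big g hc hc12
  obtain ⟨Ke, hKe⟩ := p_dens hβ hβc
  obtain ⟨Kf, hKf⟩ := p_main hg hc hs hs1 hcs hcg
  obtain ⟨K, hK⟩ : ∃ K : ℕ, K = Ka + Kb + Kc + Kd + Ke + Kf + 1 := ⟨_, rfl⟩
  refine ⟨mm, uu c, JJ s, MM c s, K, ?_⟩
  exact
    { g1 := hg
      k1 := by omega
      m2 := fun j => by unfold mm; omega
      m0 := by unfold mm; omega
      Jk := hJ1
      Jm := hJ2
      u2 := fun k hk => hKa1 k (by omega)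
      um := fun l k hl hlk => hKa2 l k (by omega) hlk
      dom := fun k j _ h1 _ => p_dom hc hs k j h1
      inj := fun k hk => hKb k (by omega)
      kill := fun k l hl hlk hJ => hKc k l (by omega) hlk hJ
      big := fun k j hk hkj _ => hKd k j (by omega) hkj
      main := fun k l t hl hlJ ht => hKf k l t (by have := hJ1 k; omega) hlJ ht
      card := fun k hk => (hKe k (by omega)).1
      dens := fun k hk => (hKe k (by omega)).2 }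
-- END par5

end Pool.Agent.MnR
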