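import Pool.Agent.MnR.Dgt
import Pool.Agent.TwR.Dns

/-! At most g representations; the number of elements up to N. -/

set_option autoImplicit false

namespace Pool.Agent.MnR

open Finset Pool.Agent.TwR

variable {g : ℕ} {β : ℝ} {m u J M : ℕ → ℕ} {k0 : ℕ}

-- BEGIN kil
/-- if `J k ≤ l` the sum determines the pair. PROOF. `clo_pair`: the products differ by less than
`1 / 2^(u k + u l)` in logarithm, so they are equal (`log_sep`). -/
theorem killed (h : Params g β m u J M k0) {w : ℕ → Ch} (hw : ∀ j, w j ∈ Qs m M g j) {k l : ℕ}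
    (hl0 : k0 ≤ l) (hlk : l ≤ k) (hJ : J k ≤ l) {p p' v v' : ℕ} (hp : p ∈ Pr (u k))
    (hp' : p' ∈ Pr (u k)) (hv : v ∈ Pr (u l)) (hv' : v' ∈ Pr (u l))
    (hd : ∀ j < l, dg m J g k j (w j) p + dg m J g l j (w j) v =
        dg m J g k j (w j) p' + dg m J g l j (w j) v') :
    p * v = p' * v' := by
  by_contra hne
  have hc := clo_pair (m := m) (J := J) (M := M) (u := u) (g := g) (k := k) (l := l) (w := w)
    (fun j _ => hw j) (h.Jm hlk) hp hp' hv hv' (fun j hj => hd j (hj.trans_le (h.Jk l)))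
  have hk := h.kill k l hl0 hlk hJ
  have hmem : ∀ {n x : ℕ}, x ∈ Pr n → 0 < x ∧ x ≤ 2 ^ n := by
    intro n x hx
    have hx1 := hx
    simp only [Pr, Finset.mem_filter, Finset.mem_Ioc] at hx1
    exact ⟨hx1.2.pos, hx1.1.2⟩
  have h1 := hmem hp
  have h2 := hmem hp'
  have h3 := hmem hv
  have h4 := hmem hv'
  have hs := log_sep (a := p * v) (b := p' * v') (N := 2 ^ (u k + u l)) (Nat.mul_pos h1.1 h3.1)
    (Nat.mul_pos h2.1 h4.1) (by rw [pow_add]; exact Nat.mul_le_mul h1.2 h3.2)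
    (by rw [pow_add]; exact Nat.mul_le_mul h2.2 h4.2) hne
  have e1 : Real.log ((p * v : ℕ) : ℝ) = Real.log p + Real.log v := by
    push_cast
    exact Real.log_mul (by exact_mod_cast h1.1.ne') (by exact_mod_cast h3.1.ne')
  have e2 : Real.log ((p' * v' : ℕ) : ℝ) = Real.log p' + Real.log v' := by
    push_cast
    exact Real.log_mul (by exact_mod_cast h2.1.ne') (by exact_mod_cast h4.1.ne')
  rw [e1, e2] at hs
  have hpos : (0 : ℝ) < 2 ^ (u k + u l) := by positivity
  have h5 : (1 : ℝ) / (4 * QQ m (J l)) ≤ 1 / (4 * 2 ^ (u k + u l)) :=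
    one_div_le_one_div_of_le (by positivity) (by linarith)
  have h6 : (1 : ℝ) / (4 * 2 ^ (u k + u l)) < 1 / 2 ^ (u k + u l) :=
    one_div_lt_one_div_of_lt hpos (by linarith)
  push_cast at hs
  linarith
-- END kil

-- BEGIN rep1
/-- a representation as a code of class `k` plus a code of class `l ≤ k` -/
theorem rep_form {w : ℕ → Ch} {n : ℕ} {x : ℕ × ℕ} (h1 : x.1 ∈ Aset m J u g k0 w)
    (h2 : x.2 ∈ Aset m J u g k0 w) (h3 : x.1 + x.2 = n) :
    ∃ k l p v, k0 ≤ l ∧ l ≤ k ∧ p ∈ Pr (u k) ∧ p ∉ Bad m J u g k0 w k ∧ v ∈ Pr (u l) ∧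
      cod m J g w k p + cod m J g w l v = n ∧
      (x = (cod m J g w k p, cod m J g w l v) ∨ x = (cod m J g w l v, cod m J g w k p)) := by
  obtain ⟨k1, a1, p1, b1, c1, d1⟩ := h1
  obtain ⟨k2, a2, p2, b2, c2, d2⟩ := h2
  rcases le_total k2 k1 with h | h
  · refine ⟨k1, k2, p1, p2, a2, h, b1, c1, b2, ?_, Or.inl ?_⟩
    · rw [← d1, ← d2]; exact h3
    · rw [← d1, ← d2]
  · refine ⟨k2, k1, p2, p1, a1, h, b2, c2, b1, ?_, Or.inr ?_⟩
    · rw [← d1, ← d2, add_comm]; exact h3
    · rw [← d1, ← d2]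

-- END rep1

-- BEGIN rep2
private theorem rep2_m1 (h : Params g β m u J M k0) : ∀ j, 1 ≤ m j := by
  intro j
  induction j with
  | zero => have := h.m0; omega
  | succ j ih => have := h.m2 j; omega

private theorem rep2_Pr {n p : ℕ} (hp : p ∈ Pr n) : p.Prime ∧ 2 ^ (n - 2) < p ∧ p ≤ 2 ^ n := by
  unfold Pr at hp
  rw [mem_filter, mem_Ioc] at hp
  exact ⟨hp.2, hp.1.1, hp.1.2⟩

private theorem rep2_pair {x y : ℕ × ℕ} {A B A' B' : ℕ}
    (hx : x.1 ≤ x.2) (hy : y.1 ≤ y.2) (h1 : x = (A, B) ∨ x = (B, A)) (h2 : y = (A', B') ∨ y = (B', A'))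
    (h : (A = A' ∧ B = B') ∨ (A = B' ∧ B = A')) : x = y := by
  rcases h1 with rfl | rfl <;> rcases h2 with rfl | rfl <;> rcases h with ⟨rfl, rfl⟩ | ⟨rfl, rfl⟩ <;>
    simp only at hx hy <;> (try rfl) <;> (apply Prod.ext <;> simp only <;> omega)

/-- PROOF. Assume `g + 1` different representations `x i` with `x.1 ≤ x.2`, written as in `rep_form`. By `cod_sum` `k`,
`l` and all digit sums are the same for all `i`. If two `p i` are equal, the codes are equal and the
representations coincide; the same for the `v i`. If `J k ≤ l`: `killed` gives `p i * v i = p 0 * v 0`, so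
`{p i, v i} = {p 0, v 0}`, and the representations coincide. If `l < J k`: the first `rr g k l + 1 ≤ g + 1` pairs
form an element of `Tc`, so `p 0 ∈ Bad`. -/
theorem reps (h : Params g β m u J M k0) {w : ℕ → Ch} (hw : ∀ j, w j ∈ Qs m M g j) (n : ℕ) :
    {x : ℕ × ℕ | x.1 ∈ Aset m J u g k0 w ∧ x.2 ∈ Aset m J u g k0 w ∧ x.1 ≤ x.2 ∧
      x.1 + x.2 = n}.ncard ≤ g := by
  classical
  have hm1 := rep2_m1 h
  by_contra hcon
  rw [not_le] at hcon
  set S : Set (ℕ × ℕ) := {x : ℕ × ℕ | x.1 ∈ Aset m J u g k0 w ∧ x.2 ∈ Aset m J u g k0 w ∧ x.1 ≤ x.2 ∧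
      x.1 + x.2 = n} with hSdef
  have hfin : S.Finite := Set.finite_of_ncard_pos (by omega)
  have hcard : g + 1 ≤ hfin.toFinset.card := by
    rw [← Set.ncard_eq_toFinset_card S hfin]
    exact hcon
  obtain ⟨t, htS, htc⟩ := Finset.exists_subset_card_eq hcard
  have hxex : ∃ x : Fin (g + 1) → ℕ × ℕ, Function.Injective x ∧ ∀ i, x i ∈ S := by
    refine ⟨fun i => (t.equivFin.symm (Fin.cast htc.symm i)).1, ?_, ?_⟩
    · intro i j hij
      have h1 := t.equivFin.symm.injective (Subtype.ext hij)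
      exact Fin.cast_injective _ h1
    · intro i
      exact hfin.mem_toFinset.1 (htS (t.equivFin.symm (Fin.cast htc.symm i)).2)
  obtain ⟨x, hxinj, hxS⟩ := hxex
  choose K Lf P V hL0 hLK hP hPB hV hsum hform using
    fun i => rep_form (hxS i).1 (hxS i).2.1 (hxS i).2.2.2
  -- all have the same `k`, `l`
  have hsame : ∀ i, K i = K 0 ∧ Lf i = Lf 0 ∧
      (∀ j < Lf 0, dg m J g (K 0) j (w j) (P i) + dg m J g (Lf 0) j (w j) (V i) =
        dg m J g (K 0) j (w j) (P 0) + dg m J g (Lf 0) j (w j) (V 0)) ∧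
      ∀ j, Lf 0 ≤ j → j < K 0 → dg m J g (K 0) j (w j) (P i) = dg m J g (K 0) j (w j) (P 0) := by
    intro i
    have h1 := cod_sum hm1 hw (hLK i) (hLK 0) ((hsum i).trans (hsum 0).symm)
    obtain ⟨e1, e2, e3, e4⟩ := h1
    rw [e1, e2] at e3 e4
    exact ⟨e1, e2, e3, e4⟩
  have hPi : ∀ i, P i ∈ Pr (u (K 0)) := fun i => by
    have := hP i
    rwa [(hsame i).1] at this
  have hVi : ∀ i, V i ∈ Pr (u (Lf 0)) := fun i => by
    have := hV i
    rwa [(hsame i).2.1] at this
  have hsumi : ∀ i, cod m J g w (K 0) (P i) + cod m J g w (Lf 0) (V i) = n := fun i => by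
    have := hsum i
    rwa [(hsame i).1, (hsame i).2.1] at this
  have hformi : ∀ i, x i = (cod m J g w (K 0) (P i), cod m J g w (Lf 0) (V i)) ∨
      x i = (cod m J g w (Lf 0) (V i), cod m J g w (K 0) (P i)) := fun i => by
    have := hform i
    rwa [(hsame i).1, (hsame i).2.1] at this
  have hPinj : Function.Injective P := by
    intro i j hij
    apply hxinj
    have e1 := hsumi i
    have e2 := hsumi j
    rw [hij] at e1
    exact rep2_pair
      (hxS i).2.2.1 (hxS j).2.2.1 (hformi i) (hformi j) (Or.inl ⟨by rw [hij], by omega⟩)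
  have hVinj : Function.Injective V := by
    intro i j hij
    apply hxinj
    have e1 := hsumi i
    have e2 := hsumi j
    rw [hij] at e1
    exact rep2_pair
      (hxS i).2.2.1 (hxS j).2.2.1 (hformi i) (hformi j) (Or.inl ⟨by omega, by rw [hij]⟩)
  have hg1 := h.g1
  rcases le_or_gt (J (K 0)) (Lf 0) with hJ | hJ
  · -- the products are equal
    obtain ⟨i, hi⟩ : ∃ i : Fin (g + 1), i ≠ 0 := ⟨⟨1, by omega⟩, fun h0 => by
      have := congrArg Fin.val h0
      simp at this⟩
    have hmul := killed h hw (hL0 0) (hLK 0) hJ (hPi i) (hPi 0) (hVi i) (hVi 0) (hsame i).2.2.1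
    obtain ⟨q1, -, -⟩ := rep2_Pr (hPi i)
    obtain ⟨q0, q0a, q0b⟩ := rep2_Pr (hPi 0)
    obtain ⟨r0, r0a, r0b⟩ := rep2_Pr (hVi 0)
    have hd : P i ∣ P 0 * V 0 := ⟨V i, hmul.symm⟩
    rcases (q1.dvd_mul).1 hd with h2 | h2
    · exact hi (hPinj ((Nat.prime_dvd_prime_iff_eq q1 q0).1 h2))
    · have hpp : P i = V 0 := (Nat.prime_dvd_prime_iff_eq q1 r0).1 h2
      have hvv : V i = P 0 := by
        rw [hpp, mul_comm (P 0)] at hmul
        exact Nat.eq_of_mul_eq_mul_left r0.pos hmul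
      rcases (hLK 0).lt_or_eq with hlt | heq
      · -- different classes
        obtain ⟨-, s1, -⟩ := rep2_Pr (hPi i)
        have h3 := h.um (Lf 0) (K 0) (hL0 0) hlt
        have h4 : 2 ^ u (Lf 0) ≤ 2 ^ (u (K 0) - 2) := Nat.pow_le_pow_right (by norm_num) (by omega)
        rw [hpp] at s1
        omega
      · apply hi
        apply hxinj
        refine rep2_pair
          (hxS i).2.2.1 (hxS 0).2.2.1 (hformi i) (hformi 0) (Or.inr ⟨?_, ?_⟩)
        · rw [hpp, heq]
        · rw [hvv, heq]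
  · -- the first pairs form an element of `Tc`
    have hr : rr g (K 0) (Lf 0) + 1 ≤ g + 1 := by
      unfold rr
      split_ifs <;> omega
    apply hPB 0
    unfold Bad
    rw [mem_filter]
    refine ⟨hP 0, Lf 0, hL0 0, hJ, (fun i => P (Fin.castLE hr i), fun i => V (Fin.castLE hr i)), ?_, ?_⟩
    · unfold Tc
      rw [mem_filter]
      refine ⟨?_, ?_⟩
      · unfold Tp
        rw [mem_filter, mem_product, Fintype.mem_piFinset, Fintype.mem_piFinset]
        exact ⟨⟨fun i => hPi _, fun i => hVi _⟩, hPinj.comp (Fin.castLE_injective hr),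
          hVinj.comp (Fin.castLE_injective hr)⟩
      · intro j hj i
        show dg m J g (K 0) j (w j) (P (Fin.castLE hr i)) +
            (if j < Lf 0 then dg m J g (Lf 0) j (w j) (V (Fin.castLE hr i)) else 0) =
          dg m J g (K 0) j (w j) (P (Fin.castLE hr 0)) +
            (if j < Lf 0 then dg m J g (Lf 0) j (w j) (V (Fin.castLE hr 0)) else 0)
        have e0 : Fin.castLE hr 0 = 0 := rfl
        rw [e0]
        by_cases hjl : j < Lf 0
        · rw [if_pos hjl, if_pos hjl]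
          exact (hsame _).2.2.1 j hjl
        · rw [if_neg hjl, if_neg hjl]
          rw [(hsame (Fin.castLE hr i)).2.2.2 j (not_lt.1 hjl) hj]
    · show P (Fin.castLE hr 0) = P 0
      rfl
-- END rep2

-- BEGIN dns
/-- as `Pool.Agent.TwR.card_ge` (file TwR/Dns.lean); injectivity: `cod_inj`, `clo_one`, `h.inj`, `log_Pr_ne` -/
theorem card_ge (h : Params g β m u J M k0) {w : ℕ → Ch} (hw : ∀ j, w j ∈ Qs m M g j) {k N : ℕ}
    (hk : k0 ≤ k) (hbad : 2 * (Bad m J u g k0 w k).card ≤ (Pr (u k)).card)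
    (hN : Bs (fun j => 2 ^ m j) k ≤ N) :
    (Pr (u k)).card ≤ 2 * (Aset m J u g k0 w ∩ Set.Icc 1 N).ncard := by
  classical
  have hm1 : ∀ j, 1 ≤ m j := by
    intro j
    induction j with
    | zero => have := h.m0; omega
    | succ n ih => have := h.m2 n; omega
  have hk1 := h.k1
  have hfin : (Aset m J u g k0 w ∩ Set.Icc 1 N).Finite :=
    (Set.finite_Icc 1 N).subset Set.inter_subset_right
  have hcard : (Pr (u k) \ Bad m J u g k0 w k).card ≤ (Aset m J u g k0 w ∩ Set.Icc 1 N).ncard := by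
    rw [← Set.ncard_coe_finset]
    refine Set.ncard_le_ncard_of_injOn (fun p => cod m J g w k p) ?_ ?_ hfin
    · intro p hp
      rw [Finset.mem_coe, Finset.mem_sdiff] at hp
      refine ⟨⟨k, hk, p, hp.1, hp.2, rfl⟩, ?_⟩
      have h1 : 0 < cod m J g w k p := cod_pos (by omega) p
      have h2 : cod m J g w k p < Bs (fun j => 2 ^ m j) k := cod_lt hm1 hw k p
      exact Set.mem_Icc.2 ⟨h1, by omega⟩
    · intro p hp p' hp' he
      rw [Finset.mem_coe, Finset.mem_sdiff] at hp hp'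
      have h1 := (cod_inj hm1 hw he).2
      have h2 : |Real.log p - Real.log p'| ≤ 1 / (4 * QQ m (J k)) :=
        clo_one (fun j _ => hw j) hp.1 hp'.1 (fun j hj => h1 j (lt_of_lt_of_le hj (h.Jk k)))
      by_contra hne
      have h3 := log_Pr_ne hp.1 hp'.1 hne
      have hQ := QQ_pos m (J k)
      have h4 := h.inj k hk
      have h7 : (0 : ℝ) < 2 ^ (u k) := by positivity
      have h8 : (1 : ℝ) / (4 * QQ m (J k)) < 1 / 2 ^ (u k) := by
        apply one_div_lt_one_div_of_lt h7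
        have h10 : (2 : ℝ) ^ (u k + 2) = 4 * 2 ^ (u k) := by ring
        rw [h10] at h4
        linarith
      linarith
  have h3 : (Pr (u k)).card ≤ (Pr (u k) \ Bad m J u g k0 w k).card + (Bad m J u g k0 w k).card := by
    have h4 := Finset.le_card_sdiff (Bad m J u g k0 w k) (Pr (u k))
    omega
  omega

theorem Bs_two (m : ℕ → ℕ) (k : ℕ) : Bs (fun j => 2 ^ m j) k = 2 ^ (sg m k + 2 * k) := by
  induction k with
  | zero => simp [Bs, sg]
  | succ n ih =>
    have h1 : Bs (fun j => 2 ^ m j) (n + 1) = Bs (fun j => 2 ^ m j) n * (4 * 2 ^ m n) := by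
      unfold Bs
      rw [Finset.prod_range_succ]
    have h2 : sg m (n + 1) = sg m n + m n := by
      unfold sg
      rw [Finset.sum_range_succ]
    rw [h1, h2, ih]
    ring
-- END dns

end Pool.Agent.MnR
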