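import Pool.Agent.MnR.Exq
import Pool.Agent.MnR.Rep
import Pool.Agent.MnR.Par

/-! Assembly. -/

set_option autoImplicit false

namespace Pool.Agent.MnR

open Finset Pool.Agent.TwR

variable {g : ℕ} {β : ℝ} {m u J M : ℕ → ℕ} {k0 : ℕ}

/-- the fraction (times 2) of removed primes of class `k` -/
noncomputable def fr (m J u : ℕ → ℕ) (g k0 k : ℕ) (w : ℕ → Ch) : ℝ :=
  if k0 ≤ k then
    2 * (∑ l ∈ Ico k0 (J k), ((Tc m J u g w (rr g k l) k l).card : ℝ)) / (Pr (u k)).card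
  else 0

theorem fr_sum (h : Params g β m u J M k0) (k : ℕ) :
    ∑ s ∈ Sqc (Qs m M g) k, fr m J u g k0 k s ≤
      (1 / 2) ^ (k + 1) * ((Sqc (Qs m M g) k).card : ℝ) := by
  by_cases hk : k0 ≤ k
  · have hP : (0 : ℝ) < (Pr (u k)).card := by exact_mod_cast h.card k hk
    have hk1 : (1 : ℝ) ≤ k := by exact_mod_cast h.k1.trans hk
    set Q : ℝ := ((Sqc (Qs m M g) k).card : ℝ) with hQ
    have hQ0 : 0 ≤ Q := Nat.cast_nonneg _
    have h5 : ∑ s ∈ Sqc (Qs m M g) k, fr m J u g k0 k s =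
        2 * (∑ l ∈ Ico k0 (J k), ∑ s ∈ Sqc (Qs m M g) k,
          ((Tc m J u g s (rr g k l) k l).card : ℝ)) / (Pr (u k)).card := by
      rw [Finset.sum_comm, Finset.mul_sum, Finset.sum_div]
      refine Finset.sum_congr rfl (fun s _ => ?_)
      unfold fr
      rw [if_pos hk]
    rw [h5, div_le_iff₀ hP]
    have h6 : (2 * (k : ℝ) * 2 ^ (k + 1)) * ∑ l ∈ Ico k0 (J k),
        ∑ s ∈ Sqc (Qs m M g) k, ((Tc m J u g s (rr g k l) k l).card : ℝ) ≤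
        k * (((Pr (u k)).card : ℝ) * Q) := by
      rw [Finset.mul_sum]
      calc ∑ l ∈ Ico k0 (J k), 2 * (k : ℝ) * 2 ^ (k + 1) *
            ∑ s ∈ Sqc (Qs m M g) k, ((Tc m J u g s (rr g k l) k l).card : ℝ)
          ≤ ∑ l ∈ Ico k0 (J k), ((Pr (u k)).card : ℝ) * Q :=
            Finset.sum_le_sum (fun l hl => by
              rw [Finset.mem_Ico] at hl
              exact expect h hl.1 hl.2)
        _ = ((J k - k0 : ℕ) : ℝ) * (((Pr (u k)).card : ℝ) * Q) := by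
            rw [Finset.sum_const, Nat.card_Ico, nsmul_eq_mul]
        _ ≤ k * (((Pr (u k)).card : ℝ) * Q) := by
            refine mul_le_mul_of_nonneg_right ?_ (mul_nonneg hP.le hQ0)
            exact Nat.cast_le.2 ((Nat.sub_le _ _).trans (h.Jk k))
    set Z : ℝ := ∑ l ∈ Ico k0 (J k), ∑ s ∈ Sqc (Qs m M g) k,
      ((Tc m J u g s (rr g k l) k l).card : ℝ) with hZ
    have h7 : (2 : ℝ) ^ (k + 1) * (2 * Z) ≤ ((Pr (u k)).card : ℝ) * Q := by
      have hk0 : (0 : ℝ) < k := by linarith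
      have h8 : (k : ℝ) * ((2 : ℝ) ^ (k + 1) * (2 * Z)) ≤ k * (((Pr (u k)).card : ℝ) * Q) := by
        calc (k : ℝ) * ((2 : ℝ) ^ (k + 1) * (2 * Z)) = (2 * (k : ℝ) * 2 ^ (k + 1)) * Z := by ring
          _ ≤ _ := h6
      exact le_of_mul_le_mul_left h8 hk0
    have h9 : (1 / 2 : ℝ) ^ (k + 1) * 2 ^ (k + 1) = 1 := by
      rw [← mul_pow]; norm_num
    calc 2 * Z = (1 / 2 : ℝ) ^ (k + 1) * (2 ^ (k + 1) * (2 * Z)) := by
          rw [← mul_assoc, h9, one_mul]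
      _ ≤ (1 / 2 : ℝ) ^ (k + 1) * (((Pr (u k)).card : ℝ) * Q) :=
          mul_le_mul_of_nonneg_left h7 (pow_nonneg (by norm_num) _)
      _ = (1 / 2) ^ (k + 1) * Q * (Pr (u k)).card := by ring
  · have h1 : ∑ s ∈ Sqc (Qs m M g) k, fr m J u g k0 k s = 0 := by
      refine Finset.sum_eq_zero (fun s _ => ?_)
      unfold fr
      rw [if_neg hk]
    rw [h1]
    exact mul_nonneg (pow_nonneg (by norm_num) _) (Nat.cast_nonneg _)

theorem exists_set {g : ℕ} (hg : 1 ≤ g) {θ β : ℝ} (h0 : 0 < θ) (h1 : θ < 1)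
    (h2 : θ ^ 3 ≤ g * (1 - θ) * (1 + θ) ^ 2) (hβ : 0 < β) (h3 : β < θ ^ 2 / (1 + θ)) :
    ∃ A : Set ℕ, (∀ a ∈ A, 0 < a) ∧
      (∀ n, {x : ℕ × ℕ | x.1 ∈ A ∧ x.2 ∈ A ∧ x.1 ≤ x.2 ∧ x.1 + x.2 = n}.ncard ≤ g) ∧
      ∃ N0 : ℕ, ∀ N : ℕ, N0 ≤ N → (N : ℝ) ^ β ≤ ((A ∩ Set.Icc 1 N).ncard : ℝ) := by
  obtain ⟨m, u, J, M, k0, hP⟩ := exists_params hg h0 h1 h2 hβ h3
  obtain ⟨w, hw, hf⟩ := select (Q := Qs m M g) (f := fr m J u g k0)
    (by
      intro k s s' hss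
      unfold fr
      by_cases hk : k0 ≤ k
      · rw [if_pos hk, if_pos hk]
        have : ∀ l ∈ Ico k0 (J k), ((Tc m J u g s (rr g k l) k l).card : ℝ) =
            ((Tc m J u g s' (rr g k l) k l).card : ℝ) := by
          intro l _
          rw [Tc_congr hss]
        rw [Finset.sum_congr rfl this]
      · rw [if_neg hk, if_neg hk])
    (by
      intro k s
      unfold fr
      split_ifs
      · exact div_nonneg (mul_nonneg (by norm_num)
          (Finset.sum_nonneg (fun _ _ => Nat.cast_nonneg _))) (Nat.cast_nonneg _)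
      · exact le_rfl)
    (Qs_ne m M g) (fun k => fr_sum hP k)
  have hm1 : ∀ j, 1 ≤ m j := fun j => by
    have := m_ge hP.m2 j
    have := hP.m0
    omega
  have hs2 : ∀ j, 2 ≤ (fun j => 2 ^ m j) j := fun j => by
    calc 2 = 2 ^ 1 := by norm_num
      _ ≤ 2 ^ m j := Nat.pow_le_pow_right (by norm_num) (hm1 j)
  refine ⟨Aset m J u g k0 w, ?_, ?_, ?_⟩
  · rintro a ⟨k, hk, p, hp, hpb, rfl⟩
    exact cod_pos (hP.k1.trans hk) p
  · exact reps hP hw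
  · obtain ⟨N0, hN0⟩ := exists_level hs2 k0
    refine ⟨N0, fun N hN => ?_⟩
    obtain ⟨k, hk, hk1, hk2⟩ := hN0 N hN
    have hPc : (0 : ℝ) < (Pr (u k)).card := by exact_mod_cast hP.card k hk
    have hbad : 2 * (Bad m J u g k0 w k).card ≤ (Pr (u k)).card := by
      have g1 := card_Bad_le (m := m) (J := J) (u := u) (g := g) (k0 := k0) w k
      have g2 := hf k
      unfold fr at g2
      rw [if_pos hk, div_lt_one hPc] at g2
      have g3 : 2 * ∑ l ∈ Ico k0 (J k), (Tc m J u g w (rr g k l) k l).card < (Pr (u k)).card := by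
        exact_mod_cast g2
      omega
    have hc := card_ge hP hw hk hbad hk1
    rw [Bs_two] at hk2
    calc (N : ℝ) ^ β ≤ ((2 : ℝ) ^ (sg m (k + 1) + 2 * (k + 1))) ^ β :=
          Real.rpow_le_rpow (Nat.cast_nonneg N) (by exact_mod_cast hk2.le) hβ.le
      _ ≤ ((Pr (u k)).card : ℝ) / 2 := hP.dens k hk
      _ ≤ ((Aset m J u g k0 w ∩ Set.Icc 1 N).ncard : ℝ) := by
          rw [div_le_iff₀ (by norm_num)]
          have : ((Pr (u k)).card : ℝ) ≤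
              2 * ((Aset m J u g k0 w ∩ Set.Icc 1 N).ncard : ℝ) := by
            exact_mod_cast hc
          linarith

/-- at most `g` representations -/
theorem main {g : ℕ} (hg : 1 ≤ g) {θ ε : ℝ} (h0 : 0 < θ) (h1 : θ < 1)
    (h2 : θ ^ 3 ≤ g * (1 - θ) * (1 + θ) ^ 2) (hε : 0 < ε) :
    ∃ A : Set ℕ, (∀ a ∈ A, 0 < a) ∧
      (∀ n, {x : ℕ × ℕ | x.1 ∈ A ∧ x.2 ∈ A ∧ x.1 ≤ x.2 ∧ x.1 + x.2 = n}.ncard ≤ g) ∧
      ∃ N0 : ℕ, ∀ N : ℕ, N0 ≤ N →
        (N : ℝ) ^ (θ ^ 2 / (1 + θ) - ε) ≤ ((A ∩ Set.Icc 1 N).ncard : ℝ) := by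
  have hb : 0 < θ ^ 2 / (1 + θ) := by positivity
  obtain ⟨A, hA0, hA1, N0, hA2⟩ := exists_set (β := max (θ ^ 2 / (1 + θ) - ε) (θ ^ 2 / (1 + θ) / 2)) hg h0 h1 h2
    (lt_of_lt_of_le (by linarith) (le_max_right _ _)) (max_lt (by linarith) (by linarith))
  refine ⟨A, hA0, hA1, max N0 1, fun N hN => ?_⟩
  have hN1 : 1 ≤ N := (le_max_right _ _).trans hN
  refine le_trans ?_ (hA2 N ((le_max_left _ _).trans hN))
  exact Real.rpow_le_rpow_of_exponent_le (by exact_mod_cast hN1) (le_max_left _ _)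

end Pool.Agent.MnR
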