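import Pool.Agent.MnR.Dgt

/-! The Fourier estimate at one position, and random digits. -/

set_option autoImplicit false

namespace Pool.Agent.MnR

open Finset Pool.Agent.TwR

/-- `exp (2 π i y)` -/
noncomputable def ee (y : ℝ) : ℂ := Complex.exp (2 * Real.pi * y * Complex.I)

-- BEGIN ee
theorem ee_add (x y : ℝ) : ee (x + y) = ee x * ee y := by
  unfold ee
  rw [← Complex.exp_add]
  congr 1
  push_cast
  ring

theorem ee_real (y : ℝ) : ee y = Complex.exp (((2 * Real.pi * y : ℝ) : ℂ) * Complex.I) := by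
  unfold ee
  push_cast
  rfl

theorem norm_ee (y : ℝ) : ‖ee y‖ = 1 := by
  rw [ee_real, Complex.norm_exp_ofReal_mul_I]

theorem conj_ee (y : ℝ) : (starRingEnd ℂ) (ee y) = ee (-y) := by
  rw [ee_real, ee_real, ← Complex.exp_conj]
  congr 1
  rw [map_mul, Complex.conj_ofReal, Complex.conj_I]
  push_cast
  ring

theorem ee_nat_mul (n : ℕ) (y : ℝ) : ee (n * y) = ee y ^ n := by
  unfold ee
  rw [← Complex.exp_nat_mul]
  congr 1
  push_cast
  ring

/-- PROOF. Geometric series: `(ee β - 1) * ∑ = ee (H β) - 1`, of modulus at most `2`, and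
`‖ee β - 1‖ = 2 |sin (π β)| ≥ 4 |β|` for `|β| ≤ 1 / 2` (`Real.mul_le_sin`). -/
theorem geom_ee (H : ℕ) {β : ℝ} (h0 : β ≠ 0) (h1 : |β| ≤ 1 / 2) :
    ‖∑ h ∈ range H, ee (h * β)‖ ≤ 1 / (2 * |β|) := by
  have hb : 0 < |β| := abs_pos.2 h0
  have h2 : (ee β - 1) * ∑ h ∈ range H, ee (h * β) = ee (H * β) - 1 := by
    simp only [ee_nat_mul]
    exact mul_geom_sum (ee β) H
  have h3 : ‖ee β - 1‖ * ‖∑ h ∈ range H, ee (h * β)‖ ≤ 2 := by
    rw [← norm_mul, h2]
    calc ‖ee (H * β) - 1‖ ≤ ‖ee (H * β)‖ + ‖(1 : ℂ)‖ := norm_sub_le _ _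
      _ = 2 := by rw [norm_ee, norm_one]; norm_num
  have h4 : 4 * |β| ≤ ‖ee β - 1‖ := by
    have h5 : ‖ee β - 1‖ = ‖2 * Real.sin (2 * Real.pi * β / 2)‖ := by
      rw [ee_real, mul_comm _ Complex.I, Complex.norm_exp_I_mul_ofReal_sub_one]
    have h6 : 2 / Real.pi * |Real.pi * β| ≤ |Real.sin (Real.pi * β)| := by
      apply Real.mul_abs_le_abs_sin
      rw [abs_mul, abs_of_pos Real.pi_pos]
      nlinarith [Real.pi_pos]
    have h7 : 2 / Real.pi * |Real.pi * β| = 2 * |β| := by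
      rw [abs_mul, abs_of_pos Real.pi_pos]
      field_simp
    rw [h5, show 2 * Real.pi * β / 2 = Real.pi * β by ring, norm_mul, Real.norm_eq_abs, Real.norm_eq_abs]
    rw [h7] at h6
    rw [abs_of_pos (by norm_num : (0 : ℝ) < 2)]
    linarith
  have h8 : 4 * |β| * ‖∑ h ∈ range H, ee (h * β)‖ ≤ 2 :=
    (mul_le_mul_of_nonneg_right h4 (norm_nonneg _)).trans h3
  rw [le_div_iff₀ (by positivity)]
  linarith
-- END ee

-- BEGIN low
/-- PROOF. `y = n0 + z` with an integer `n0` and `|z| = nd y < 1 / 2^m`; all `n z`, `n < 2^(m-3)`,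
are at most `1 / 8` in absolute value, so `Re (ee (n y)) = cos (2 π n z) ≥ cos (π / 4) = √2 / 2`. The real
part of the sum is at least `2^(m-3) * √2 / 2`. -/
theorem low_sum {m : ℕ} (hm : 3 ≤ m) {y : ℝ} (h : nd y < 1 / 2 ^ m) :
    ((2 : ℝ) ^ (m - 3)) ^ 2 / 2 ≤ ‖∑ n ∈ range (2 ^ (m - 3)), ee (n * y)‖ ^ 2 := by
  obtain ⟨d, rfl⟩ : ∃ d, m = d + 3 := ⟨m - 3, by omega⟩
  simp only [Nat.add_sub_cancel]
  have h1 : ∀ n ∈ range (2 ^ d), √2 / 2 ≤ (ee (n * y)).re := by
    intro n hn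
    have hn' : (n : ℝ) ≤ 2 ^ d := by
      have := (Finset.mem_range.1 hn).le
      exact_mod_cast this
    have h2 : ee (n * y) = ee (n * (y - round y)) := by
      have h3 : ee ((n * round y : ℤ) : ℝ) = 1 := by
        unfold ee
        rw [Complex.exp_eq_one_iff]
        exact ⟨n * round y, by push_cast; ring⟩
      calc ee (n * y) = ee (n * (y - round y) + ((n * round y : ℤ) : ℝ)) := by
            congr 1
            push_cast
            ring
        _ = ee (n * (y - round y)) := by rw [ee_add, h3, mul_one]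
    rw [h2, ee_real, Complex.exp_ofReal_mul_I_re]
    have h4 : |n * (y - round y)| ≤ 1 / 8 := by
      rw [abs_mul, abs_of_nonneg (Nat.cast_nonneg n)]
      have h5 : |y - round y| ≤ 1 / 2 ^ (d + 3) := by
        have h6 := h.le
        unfold nd at h6
        exact h6
      calc (n : ℝ) * |y - round y| ≤ 2 ^ d * (1 / 2 ^ (d + 3)) :=
            mul_le_mul hn' h5 (abs_nonneg _) (by positivity)
        _ = 1 / 8 := by rw [pow_add]; field_simp; norm_num
    rw [← Real.cos_pi_div_four, ← Real.cos_abs (2 * Real.pi * (n * (y - round y)))]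
    apply Real.cos_le_cos_of_nonneg_of_le_pi (abs_nonneg _)
    · linarith [Real.pi_pos]
    · rw [abs_mul, abs_of_pos (by positivity : 0 < 2 * Real.pi)]
      nlinarith [Real.pi_pos]
  have h7 : (2 : ℝ) ^ d * (√2 / 2) ≤ (∑ n ∈ range (2 ^ d), ee (n * y)).re := by
    rw [Complex.re_sum]
    calc (2 : ℝ) ^ d * (√2 / 2) = ∑ n ∈ range (2 ^ d), √2 / 2 := by
          rw [Finset.sum_const, Finset.card_range, nsmul_eq_mul]
          push_cast
          rfl
      _ ≤ _ := Finset.sum_le_sum h1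
  have h8 : (2 : ℝ) ^ d * (√2 / 2) ≤ ‖∑ n ∈ range (2 ^ d), ee (n * y)‖ :=
    h7.trans (Complex.re_le_norm _)
  calc ((2 : ℝ) ^ d) ^ 2 / 2 = (2 ^ d * (√2 / 2)) ^ 2 := by
        rw [mul_pow, div_pow, Real.sq_sqrt (by norm_num)]
        ring
    _ ≤ _ := pow_le_pow_left₀ (by positivity) h8 2
-- END low

-- BEGIN upp
private theorem upp_sq (M : ℕ) (y : ℝ) : ((‖∑ n ∈ range M, ee (n * y)‖ ^ 2 : ℝ) : ℂ) =
    ∑ q ∈ range M ×ˢ range M, ee (((q.1 : ℝ) - q.2) * y) := by
  rw [Complex.ofReal_pow, ← Complex.mul_conj', map_sum, Finset.sum_mul_sum, ← Finset.sum_product']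
  refine Finset.sum_congr rfl (fun q _ => ?_)
  rw [conj_ee, ← ee_add]
  congr 1
  ring

private theorem upp_prod {ι : Type} [Fintype ι] (y : ι → ℝ) : ∏ s, ee (y s) = ee (∑ s, y s) := by
  unfold ee
  rw [← Complex.exp_sum]
  congr 1
  rw [Complex.ofReal_sum, Finset.mul_sum, Finset.sum_mul]

/-- PROOF. Put `M = 2^(m-3)`. For each `h` the product is
`∑_{f, f' : ι → range M} ee (∑ s, (f s - f' s) y_s)` (`Finset.prod_univ_sum`, `‖z‖^2 = z * conj z`),
`y_s = Q (1 + h / H) x_s`. Sum over `h`: for `f = f'` it is `H` (there are `M ^ card ι` of them);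
for `f ≠ f'`, `b = f - f'`, it is at most `1 / (2 |β|) = H / (2 Q |∑ b_s x_s|) ≤ H / (2 * 2^(m card ι))` by
`geom_ee` with `β = Q (∑ b_s x_s) / H`; there are at most `M ^ (2 card ι)` of them, and
`M ^ (2 c) / (2 * 2 ^ (m c)) ≤ M ^ c`. -/
theorem upp_sum {ι : Type} [Fintype ι] [DecidableEq ι] (x : ι → ℝ) {m : ℕ} (hm : 3 ≤ m) {Q : ℝ}
    (hQ : 0 < Q) {H : ℕ} (hH : 0 < H)
    (hsmall : ∀ b : ι → ℤ, (∀ s, |b s| ≤ 2 ^ m) → 2 * Q * |∑ s, (b s : ℝ) * x s| ≤ H)
    (hind : ∀ b : ι → ℤ, (∀ s, |b s| ≤ 2 ^ m) → b ≠ 0 →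
      (2 : ℝ) ^ (m * Fintype.card ι) / Q ≤ |∑ s, (b s : ℝ) * x s|) :
    ∑ h ∈ range H, ∏ s, ‖∑ n ∈ range (2 ^ (m - 3)), ee (n * (Q * (1 + (h : ℝ) / H) * x s))‖ ^ 2 ≤
      2 * ((2 : ℝ) ^ (m - 3)) ^ Fintype.card ι * H := by
  have hMR : ((2 ^ (m - 3) : ℕ) : ℝ) = (2 : ℝ) ^ (m - 3) := by push_cast; rfl
  rw [← hMR]
  have hMle : 2 ^ (m - 3) ≤ 2 ^ m := Nat.pow_le_pow_right (by norm_num) (by omega)
  generalize 2 ^ (m - 3) = M at hMle ⊢
  have hHR : (0 : ℝ) < H := by exact_mod_cast hH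
  set PF : Finset (ι → ℕ × ℕ) := Fintype.piFinset (fun _ => range M ×ˢ range M) with hPF
  let S : (ι → ℕ × ℕ) → ℝ := fun f => ∑ s, (((f s).1 : ℝ) - (f s).2) * x s
  have h1 : ∀ h : ℕ,
      ((∏ s, ‖∑ n ∈ range M, ee (n * (Q * (1 + (h : ℝ) / H) * x s))‖ ^ 2 : ℝ) : ℂ) =
      ∑ f ∈ PF, ee (Q * S f) * ee (h * (Q * S f / H)) := by
    intro h
    rw [Complex.ofReal_prod, Finset.prod_congr rfl (fun s _ => upp_sq M _), Finset.prod_univ_sum]
    refine Finset.sum_congr rfl (fun f _ => ?_)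
    rw [upp_prod, ← ee_add]
    congr 1
    have h2 : ∑ s, (((f s).1 : ℝ) - (f s).2) * (Q * (1 + (h : ℝ) / H) * x s) =
        Q * (1 + (h : ℝ) / H) * S f := by
      simp only [S]
      rw [Finset.mul_sum]
      exact Finset.sum_congr rfl (fun s _ => by ring)
    rw [h2]
    ring
  set T : ℝ := ∑ h ∈ range H, ∏ s, ‖∑ n ∈ range M, ee (n * (Q * (1 + (h : ℝ) / H) * x s))‖ ^ 2
    with hT
  have h2 : (T : ℂ) = ∑ f ∈ PF, ee (Q * S f) * ∑ h ∈ range H, ee (h * (Q * S f / H)) := by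
    rw [hT, Complex.ofReal_sum, Finset.sum_congr rfl (fun h _ => h1 h), Finset.sum_comm]
    exact Finset.sum_congr rfl (fun f _ => (Finset.mul_sum _ _ _).symm)
  have h3 : T ≤ ∑ f ∈ PF, ‖∑ h ∈ range H, ee (h * (Q * S f / H))‖ := by
    calc T ≤ |T| := le_abs_self T
      _ = ‖(T : ℂ)‖ := by rw [Complex.norm_real, Real.norm_eq_abs]
      _ = ‖∑ f ∈ PF, ee (Q * S f) * ∑ h ∈ range H, ee (h * (Q * S f / H))‖ := by rw [h2]
      _ ≤ ∑ f ∈ PF, ‖ee (Q * S f) * ∑ h ∈ range H, ee (h * (Q * S f / H))‖ := norm_sum_le _ _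
      _ = ∑ f ∈ PF, ‖∑ h ∈ range H, ee (h * (Q * S f / H))‖ := by
          refine Finset.sum_congr rfl (fun f _ => ?_)
          rw [norm_mul, norm_ee, one_mul]
  have hpow : (0 : ℝ) < 2 ^ (m * Fintype.card ι) := by positivity
  have h4 : ∀ f ∈ PF, ‖∑ h ∈ range H, ee (h * (Q * S f / H))‖ ≤
      (if ∀ s, (f s).1 = (f s).2 then (H : ℝ) else 0) + H / (2 * 2 ^ (m * Fintype.card ι)) := by
    intro f hf
    by_cases hd : ∀ s, (f s).1 = (f s).2
    · rw [if_pos hd]
      have h5 : ‖∑ h ∈ range H, ee (h * (Q * S f / H))‖ ≤ H := by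
        refine le_trans (norm_sum_le _ _) ?_
        rw [Finset.sum_congr rfl (fun h _ => norm_ee _)]
        simp
      have h6 : (0 : ℝ) ≤ H / (2 * 2 ^ (m * Fintype.card ι)) := by positivity
      linarith
    · rw [if_neg hd, zero_add]
      have hb : ∀ s, |(((f s).1 : ℤ) - ((f s).2 : ℤ))| ≤ 2 ^ m := by
        intro s
        have h5 := Finset.mem_product.1 (Fintype.mem_piFinset.1 hf s)
        rw [Finset.mem_range, Finset.mem_range] at h5
        have h6 : ((2 ^ m : ℕ) : ℤ) = 2 ^ m := by push_cast; rfl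
        rw [← h6, abs_le]
        omega
      have hb0 : (fun s => (((f s).1 : ℤ) - ((f s).2 : ℤ))) ≠ 0 := by
        intro h5
        refine hd (fun s => ?_)
        have h6 := congrFun h5 s
        simp only [Pi.zero_apply] at h6
        omega
      have hS : ∑ s, ((((f s).1 : ℤ) - ((f s).2 : ℤ) : ℤ) : ℝ) * x s = S f := by
        simp only [S]
        refine Finset.sum_congr rfl (fun s _ => ?_)
        push_cast
        ring
      have h7 := hsmall _ hb
      have h8 := hind _ hb hb0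
      rw [hS] at h7 h8
      have h9 : 0 < |S f| := lt_of_lt_of_le (by positivity) h8
      have hS0 : S f ≠ 0 := abs_pos.1 h9
      have habs : |Q * S f / H| = Q * |S f| / H := by
        rw [abs_div, abs_mul, abs_of_pos hQ, abs_of_pos hHR]
      have h10 : Q * S f / H ≠ 0 := div_ne_zero (mul_ne_zero hQ.ne' hS0) hHR.ne'
      have h11 : |Q * S f / H| ≤ 1 / 2 := by
        rw [habs, div_le_iff₀ hHR]
        linarith
      refine le_trans (geom_ee H h10 h11) ?_
      rw [habs]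
      have h12 : (2 : ℝ) ^ (m * Fintype.card ι) ≤ Q * |S f| := by
        rw [div_le_iff₀ hQ] at h8
        linarith
      have h13 : (1 : ℝ) / (2 * (Q * |S f| / H)) = H / (2 * (Q * |S f|)) := by
        field_simp
      rw [h13]
      exact div_le_div_of_nonneg_left hHR.le (by positivity) (by linarith)
  have h5 : T ≤ ∑ f ∈ PF, ((if ∀ s, (f s).1 = (f s).2 then (H : ℝ) else 0) +
      H / (2 * 2 ^ (m * Fintype.card ι))) := le_trans h3 (Finset.sum_le_sum h4)
  rw [Finset.sum_add_distrib, Finset.sum_const, nsmul_eq_mul] at h5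
  have h6 : ∑ f ∈ PF, (if ∀ s, (f s).1 = (f s).2 then (H : ℝ) else 0) ≤
      (M : ℝ) ^ Fintype.card ι * H := by
    rw [← Finset.sum_filter, Finset.sum_const, nsmul_eq_mul]
    refine mul_le_mul_of_nonneg_right ?_ hHR.le
    have h7 : (PF.filter (fun f => ∀ s, (f s).1 = (f s).2)).card ≤
        (Fintype.piFinset (fun _ : ι => range M)).card := by
      refine Finset.card_le_card_of_injOn (fun f s => (f s).1) ?_ ?_
      · intro f hf
        have h8 := (Finset.mem_filter.1 hf).1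
        exact Finset.mem_coe.2 (Fintype.mem_piFinset.2 (fun s =>
          (Finset.mem_product.1 (Fintype.mem_piFinset.1 h8 s)).1))
      · intro f hf g hg hfg
        have h8 := (Finset.mem_filter.1 hf).2
        have h9 := (Finset.mem_filter.1 hg).2
        funext s
        have h10 : (f s).1 = (g s).1 := congrFun hfg s
        exact Prod.ext h10 (by rw [← h8 s, ← h9 s, h10])
    rw [Fintype.card_piFinset, Finset.prod_const, Finset.card_univ, Finset.card_range] at h7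
    exact_mod_cast h7
  have h7 : (PF.card : ℝ) * (H / (2 * 2 ^ (m * Fintype.card ι))) ≤
      (M : ℝ) ^ Fintype.card ι * H := by
    have h8 : (PF.card : ℝ) = (M : ℝ) ^ Fintype.card ι * (M : ℝ) ^ Fintype.card ι := by
      rw [hPF, Fintype.card_piFinset, Finset.prod_const, Finset.card_univ, Finset.card_product,
        Finset.card_range]
      push_cast
      rw [mul_pow]
    have h9 : (M : ℝ) ^ Fintype.card ι ≤ 2 ^ (m * Fintype.card ι) := by
      rw [pow_mul]
      refine pow_le_pow_left₀ (Nat.cast_nonneg M) ?_ _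
      exact_mod_cast hMle
    rw [h8]
    calc (M : ℝ) ^ Fintype.card ι * (M : ℝ) ^ Fintype.card ι *
          (H / (2 * 2 ^ (m * Fintype.card ι)))
        ≤ (M : ℝ) ^ Fintype.card ι * 2 ^ (m * Fintype.card ι) *
          (H / (2 * 2 ^ (m * Fintype.card ι))) := by
          refine mul_le_mul_of_nonneg_right ?_ (by positivity)
          exact mul_le_mul_of_nonneg_left h9 (by positivity)
      _ = (M : ℝ) ^ Fintype.card ι * H / 2 := by
          field_simp
      _ ≤ (M : ℝ) ^ Fintype.card ι * H := by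
          have : (0 : ℝ) ≤ (M : ℝ) ^ Fintype.card ι * H := by positivity
          linarith
  linarith
-- END upp

-- BEGIN prob
/-- PROOF. `low_sum` for every `s` and `upp_sum`: the number `B` of these `h` satisfies
`B * (M^2 / 2)^c ≤ 2 M^c H`, `M = 2^(m-3)`, `c = card ι`. -/
theorem prob_fourier {ι : Type} [Fintype ι] [DecidableEq ι] (x : ι → ℝ) {m : ℕ} (hm : 3 ≤ m) {Q : ℝ}
    (hQ : 0 < Q) {H : ℕ} (hH : 0 < H)
    (hsmall : ∀ b : ι → ℤ, (∀ s, |b s| ≤ 2 ^ m) → 2 * Q * |∑ s, (b s : ℝ) * x s| ≤ H)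
    (hind : ∀ b : ι → ℤ, (∀ s, |b s| ≤ 2 ^ m) → b ≠ 0 →
      (2 : ℝ) ^ (m * Fintype.card ι) / Q ≤ |∑ s, (b s : ℝ) * x s|)
    {B : Finset ℕ} (hB : ∀ h ∈ B, h < H ∧ ∀ s, nd (Q * (1 + (h : ℝ) / H) * x s) < 1 / 2 ^ m) :
    (B.card : ℝ) * 2 ^ (m * Fintype.card ι) ≤ 2 ^ (4 * Fintype.card ι + 1) * H := by
  have hupp := upp_sum x hm hQ hH hsmall hind
  have hM : (0 : ℝ) < 2 ^ (m - 3) := by positivity
  have h1 : (B.card : ℝ) * (((2 : ℝ) ^ (m - 3)) ^ 2 / 2) ^ Fintype.card ι ≤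
      ∑ h ∈ range H, ∏ s, ‖∑ n ∈ range (2 ^ (m - 3)), ee (n * (Q * (1 + (h : ℝ) / H) * x s))‖ ^ 2 := by
    calc (B.card : ℝ) * (((2 : ℝ) ^ (m - 3)) ^ 2 / 2) ^ Fintype.card ι
        = ∑ h ∈ B, (((2 : ℝ) ^ (m - 3)) ^ 2 / 2) ^ Fintype.card ι := by
          rw [Finset.sum_const, nsmul_eq_mul]
      _ ≤ ∑ h ∈ B, ∏ s, ‖∑ n ∈ range (2 ^ (m - 3)), ee (n * (Q * (1 + (h : ℝ) / H) * x s))‖ ^ 2 := by
          refine Finset.sum_le_sum fun h hh => ?_
          calc (((2 : ℝ) ^ (m - 3)) ^ 2 / 2) ^ Fintype.card ι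
              = ∏ _s : ι, (((2 : ℝ) ^ (m - 3)) ^ 2 / 2) := by
                rw [Finset.prod_const, Finset.card_univ]
            _ ≤ _ := Finset.prod_le_prod (fun s _ => by positivity) fun s _ => low_sum hm ((hB h hh).2 s)
      _ ≤ _ := by
          refine Finset.sum_le_sum_of_subset_of_nonneg (fun h hh => Finset.mem_range.2 (hB h hh).1) ?_
          intro h _ _
          exact Finset.prod_nonneg fun s _ => by positivity
  have h2 : (B.card : ℝ) * ((2 : ℝ) ^ (m - 3) / 2) ^ Fintype.card ι ≤ 2 * H := by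
    have h3 : (((2 : ℝ) ^ (m - 3)) ^ 2 / 2) ^ Fintype.card ι =
        ((2 : ℝ) ^ (m - 3)) ^ Fintype.card ι * ((2 : ℝ) ^ (m - 3) / 2) ^ Fintype.card ι := by
      rw [← mul_pow]
      congr 1
      ring
    have h4 := h1.trans hupp
    rw [h3] at h4
    have h5 : (0 : ℝ) < ((2 : ℝ) ^ (m - 3)) ^ Fintype.card ι := by positivity
    refine le_of_mul_le_mul_left ?_ h5
    linarith
  have h6 : (2 : ℝ) ^ (m - 3) / 2 = 2 ^ m / 16 := by
    obtain ⟨d, rfl⟩ : ∃ d, m = d + 3 := ⟨m - 3, by omega⟩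
    simp only [Nat.add_sub_cancel]
    rw [pow_add]
    ring
  rw [h6, div_pow] at h2
  have h7 : (0 : ℝ) < 16 ^ Fintype.card ι := by positivity
  rw [mul_div_assoc', div_le_iff₀ h7] at h2
  calc (B.card : ℝ) * 2 ^ (m * Fintype.card ι) = (B.card : ℝ) * (2 ^ m) ^ Fintype.card ι := by rw [pow_mul]
    _ ≤ 2 * H * 16 ^ Fintype.card ι := h2
    _ = 2 ^ (4 * Fintype.card ι + 1) * H := by
      rw [pow_succ, pow_mul]
      norm_num
      ring
-- END prob

-- BEGIN probX
open Classical in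
private noncomputable def probX_map {r : ℕ} (y : Fin (r + 1) → ℕ) (z : (ℕ → ℕ) × (Fin r → ℕ)) : ℕ → ℕ :=
  fun p => if h : ∃ i : Fin r, y i.succ = p then z.2 h.choose else z.1 p

private theorem probX_map_succ {r : ℕ} {y : Fin (r + 1) → ℕ} (hy : Function.Injective y)
    (z : (ℕ → ℕ) × (Fin r → ℕ)) (i : Fin r) : probX_map y z (y i.succ) = z.2 i := by
  have h : ∃ j : Fin r, y j.succ = y i.succ := ⟨i, rfl⟩
  rw [probX_map, dif_pos h]
  have h1 : h.choose = i := Fin.succ_injective _ (hy h.choose_spec)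
  rw [h1]

private theorem probX_map_other {r : ℕ} {y : Fin (r + 1) → ℕ} (z : (ℕ → ℕ) × (Fin r → ℕ)) {p : ℕ}
    (h : ∀ i : Fin r, y i.succ ≠ p) : probX_map y z p = z.1 p := by
  rw [probX_map, dif_neg]
  rintro ⟨i, hi⟩
  exact h i hi

open Classical in
/-- PROOF. The map `(f, e) ↦ f` changed to `e i` at `y i.succ`, `i : Fin r`, from
`(filtered set) × (Fin r → range D)` to `Fs M D` is injective: `e` is read off from the values at
`y i.succ`, and the old value of `f` at `y i.succ` is `f (y 0) + a 0 - a i.succ`. -/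
theorem prob_X {M D r : ℕ} (y : Fin (r + 1) → ℕ) (hy : Function.Injective y) (hM : ∀ i, y i < M)
    (a : Fin (r + 1) → ℕ) :
    ((Fs M D).filter (fun f => ∀ i, f (y i) + a i = f (y 0) + a 0)).card * D ^ r ≤ (Fs M D).card := by
  have hcard : ((Fs M D).filter (fun f => ∀ i, f (y i) + a i = f (y 0) + a 0)).card * D ^ r =
      (((Fs M D).filter (fun f => ∀ i, f (y i) + a i = f (y 0) + a 0)) ×ˢ
        (Fintype.piFinset fun _ : Fin r => range D)).card := by
    rw [Finset.card_product, Fintype.card_piFinset_const, Finset.card_range]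
  rw [hcard]
  refine Finset.card_le_card_of_injOn (probX_map y) ?_ ?_
  · rintro ⟨f, e⟩ hz
    rw [Finset.mem_coe, Finset.mem_product, Finset.mem_filter, Fintype.mem_piFinset] at hz
    obtain ⟨⟨hf, -⟩, he⟩ := hz
    obtain ⟨h1, h2⟩ := mem_Fs.1 hf
    rw [Finset.mem_coe, mem_Fs]
    refine ⟨fun p hp => ?_, fun p hp => ?_⟩
    · by_cases h : ∃ i : Fin r, y i.succ = p
      · obtain ⟨i, rfl⟩ := h
        rw [probX_map_succ hy]
        exact Finset.mem_range.1 (he i)
      · rw [probX_map_other _ (fun i hi => h ⟨i, hi⟩)]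
        exact h1 p hp
    · rw [probX_map_other]
      · exact h2 p hp
      · intro i hi
        have := hM i.succ
        omega
  · rintro ⟨f, e⟩ hz ⟨f', e'⟩ hz' heq
    rw [Finset.mem_coe, Finset.mem_product, Finset.mem_filter] at hz hz'
    have hf : ∀ i, f (y i) + a i = f (y 0) + a 0 := hz.1.2
    have hf' : ∀ i, f' (y i) + a i = f' (y 0) + a 0 := hz'.1.2
    have hv : ∀ p, probX_map y (f, e) p = probX_map y (f', e') p := fun p => congrFun heq p
    have he : e = e' := by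
      funext i
      have h1 := hv (y i.succ)
      rwa [probX_map_succ hy, probX_map_succ hy] at h1
    have ho : ∀ p, (∀ i : Fin r, y i.succ ≠ p) → f p = f' p := by
      intro p hp
      have h1 := hv p
      rwa [probX_map_other _ hp, probX_map_other _ hp] at h1
    have h0 : f (y 0) = f' (y 0) := ho _ fun i hi => Fin.succ_ne_zero i (hy hi)
    have hff : f = f' := by
      funext p
      by_cases h : ∃ i : Fin r, y i.succ = p
      · obtain ⟨i, rfl⟩ := h
        have h1 := hf i.succ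
        have h2 := hf' i.succ
        rw [h0] at h1
        omega
      · exact ho p fun i hi => h ⟨i, hi⟩
    rw [hff, he]
-- END probX

end Pool.Agent.MnR
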