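import Pool.Agent.MnR.Defs

/-! Choosing the digits: averages over finite sequences and compactness. -/

set_option autoImplicit false

namespace Pool.Agent.MnR

open Finset Pool.Agent.TwR

variable {T : Type} [Inhabited T]

-- BEGIN sqc
private theorem sqc_iff (Q : ℕ → Finset T) (k : ℕ) (s : ℕ → T) :
    s ∈ Sqc Q k ↔ (∀ j < k, s j ∈ Q j) ∧ ∀ j, k ≤ j → s j = default := by
  classical
  induction k generalizing s with
  | zero =>
    rw [Sqc, mem_singleton]
    constructor
    · rintro rfl
      exact ⟨fun j hj => absurd hj (Nat.not_lt_zero j), fun j _ => rfl⟩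
    · intro h
      funext j
      exact h.2 j (Nat.zero_le j)
  | succ k ih =>
    rw [Sqc, mem_image]
    constructor
    · rintro ⟨⟨s', t⟩, hx, rfl⟩
      rw [mem_product] at hx
      obtain ⟨h1, h2⟩ := hx
      obtain ⟨h3, h4⟩ := (ih s').1 h1
      refine ⟨fun j hj => ?_, fun j hj => ?_⟩
      · by_cases hjk : j = k
        · subst hjk
          rw [Function.update_self]
          exact h2
        · rw [Function.update_of_ne hjk]
          exact h3 j (by omega)
      · rw [Function.update_of_ne (by omega)]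
        exact h4 j (by omega)
    · rintro ⟨h1, h2⟩
      refine ⟨(Function.update s k default, s k), ?_, ?_⟩
      · rw [mem_product]
        refine ⟨(ih (Function.update s k default)).2 ⟨fun j hj => ?_, fun j hj => ?_⟩,
          h1 k (Nat.lt_succ_self k)⟩
        · rw [Function.update_of_ne (by omega)]
          exact h1 j (by omega)
        · by_cases hjk : j = k
          · subst hjk
            rw [Function.update_self]
          · rw [Function.update_of_ne hjk]
            exact h2 j (by omega)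
      · rw [Function.update_idem, Function.update_eq_self]

theorem mem_Sqc {Q : ℕ → Finset T} {k : ℕ} {s : ℕ → T} (h : s ∈ Sqc Q k) :
    (∀ j < k, s j ∈ Q j) ∧ ∀ j, k ≤ j → s j = default :=
  (sqc_iff Q k s).1 h

theorem card_Sqc (Q : ℕ → Finset T) (k : ℕ) : (Sqc Q k).card = ∏ j ∈ range k, (Q j).card := by
  classical
  induction k with
  | zero =>
    rw [Sqc, card_singleton, prod_range_zero]
  | succ k ih =>
    rw [Sqc, card_image_of_injOn, card_product, ih, prod_range_succ]
    rintro ⟨s, t⟩ hx ⟨s', t'⟩ hy hxy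
    rw [mem_coe, mem_product] at hx hy
    beta_reduce at hxy
    have h1 := (sqc_iff Q k s).1 hx.1
    have h2 := (sqc_iff Q k s').1 hy.1
    have h3 : ∀ j, Function.update s k t j = Function.update s' k t' j := fun j => congrFun hxy j
    have h4 : t = t' := by
      have := h3 k
      rwa [Function.update_self, Function.update_self] at this
    have h5 : s = s' := by
      funext j
      by_cases hjk : j = k
      · rw [h1.2 j (by omega), h2.2 j (by omega)]
      · have := h3 j
        rwa [Function.update_of_ne hjk, Function.update_of_ne hjk] at this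
    rw [h4, h5]

open Classical in
/-- the number of sequences with a condition at every place is a product -/
theorem card_filter_Sqc (Q : ℕ → Finset T) (E : ℕ → T → Prop) (k : ℕ) :
    ((Sqc Q k).filter (fun w => ∀ j < k, E j (w j))).card =
      ∏ j ∈ range k, ((Q j).filter (E j)).card := by
  rw [← card_Sqc (fun j => (Q j).filter (E j)) k]
  congr 1
  ext s
  rw [mem_filter, sqc_iff, sqc_iff]
  simp only [mem_filter]
  constructor
  · rintro ⟨⟨h1, h2⟩, h3⟩
    exact ⟨fun j hj => ⟨h1 j hj, h3 j hj⟩, h2⟩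
  · rintro ⟨h1, h2⟩
    exact ⟨⟨fun j hj => (h1 j hj).1, h2⟩, fun j hj => (h1 j hj).2⟩
-- END sqc

-- BEGIN select
private theorem select_inj (Q : ℕ → Finset T) (k : ℕ) :
    Set.InjOn (fun x : (ℕ → T) × T => Function.update x.1 k x.2) (Sqc Q k ×ˢ Q k : Finset ((ℕ → T) × T)) := by
  rintro ⟨t, q⟩ h ⟨t', q'⟩ h' he
  have h1 := mem_Sqc (mem_product.1 (mem_coe.1 h)).1
  have h2 := mem_Sqc (mem_product.1 (mem_coe.1 h')).1
  have h3 := congrFun he
  have h4 : q = q' := by
    have := h3 k
    simpa only [Function.update_self] using this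
  have h5 : t = t' := by
    funext j
    rcases eq_or_ne j k with rfl | hj
    · exact (h1.2 j le_rfl).trans (h2.2 j le_rfl).symm
    · have := h3 j
      simpa only [Function.update_of_ne hj] using this
  rw [h4, h5]

/-- a function that depends only on the first `k` terms -/
private theorem select_ss {Q : ℕ → Finset T} {k : ℕ} {f : (ℕ → T) → ℝ}
    (hloc : ∀ s s' : ℕ → T, (∀ j < k, s j = s' j) → f s = f s') :
    ∑ s ∈ Sqc Q (k + 1), f s = (Q k).card * ∑ s ∈ Sqc Q k, f s := by
  classical
  have h1 : ∑ s ∈ Sqc Q (k + 1), f s = ∑ x ∈ Sqc Q k ×ˢ Q k, f (Function.update x.1 k x.2) := by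
    conv_lhs => unfold Sqc
    exact sum_image (select_inj Q k)
  rw [h1, sum_product, mul_sum]
  refine sum_congr rfl fun t _ => ?_
  rw [← nsmul_eq_mul, ← sum_const]
  refine sum_congr rfl fun q _ => hloc _ _ fun j hj => ?_
  rw [Function.update_of_ne (by omega)]

private theorem select_avg {Q : ℕ → Finset T} {f : ℕ → (ℕ → T) → ℝ}
    (hloc : ∀ k, ∀ s s' : ℕ → T, (∀ j < k, s j = s' j) → f k s = f k s')
    (h : ∀ k, ∑ s ∈ Sqc Q k, f k s ≤ (1 / 2) ^ (k + 1) * (Sqc Q k).card) (k m : ℕ) (hkm : k ≤ m) :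
    ∑ s ∈ Sqc Q m, f k s ≤ (1 / 2) ^ (k + 1) * (Sqc Q m).card := by
  induction m, hkm using Nat.le_induction with
  | base => exact h k
  | succ m hm ih =>
    rw [select_ss (fun s s' hss => hloc k s s' fun j hj => hss j (lt_of_lt_of_le hj hm))]
    have h1 : ((Sqc Q (m + 1)).card : ℝ) = (Q m).card * (Sqc Q m).card := by
      rw [card_Sqc, card_Sqc, Finset.prod_range_succ]
      push_cast
      ring
    rw [h1]
    have h2 := mul_le_mul_of_nonneg_left ih (Nat.cast_nonneg (Q m).card : (0 : ℝ) ≤ (Q m).card)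
    linarith

private theorem select_geo (K : ℕ) :
    ∑ k ∈ range (K + 1), ((1 : ℝ) / 2) ^ (k + 1) = 1 - (1 / 2) ^ (K + 1) := by
  induction K with
  | zero => norm_num
  | succ K ih =>
    rw [Finset.sum_range_succ, ih]
    ring

/-- finite selection: by `select_ss`, the average of `f k` over `Sqc Q K`, `K >= k`, is the
average over `Sqc Q k`, at most `(1/2)^(k+1)`; the sum over `k <= K` is below `1` -/
private theorem select_fin {Q : ℕ → Finset T} {f : ℕ → (ℕ → T) → ℝ}
    (hloc : ∀ k, ∀ s s' : ℕ → T, (∀ j < k, s j = s' j) → f k s = f k s')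
    (hpos : ∀ k s, 0 ≤ f k s) (hne : ∀ k, (Q k).Nonempty)
    (h : ∀ k, ∑ s ∈ Sqc Q k, f k s ≤ (1 / 2) ^ (k + 1) * (Sqc Q k).card) (K : ℕ) :
    ∃ s : ℕ → T, (∀ j < K, s j ∈ Q j) ∧ ∀ k ≤ K, f k s < 1 := by
  have hN : (0 : ℝ) < (Sqc Q K).card := by
    rw [card_Sqc]
    exact_mod_cast Finset.prod_pos fun j _ => Finset.card_pos.2 (hne j)
  have h1 : ∑ s ∈ Sqc Q K, ∑ k ∈ range (K + 1), f k s < ∑ _s ∈ Sqc Q K, (1 : ℝ) := by
    rw [Finset.sum_comm, Finset.sum_const, nsmul_eq_mul, mul_one]
    calc ∑ k ∈ range (K + 1), ∑ s ∈ Sqc Q K, f k s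
        ≤ ∑ k ∈ range (K + 1), (1 / 2 : ℝ) ^ (k + 1) * (Sqc Q K).card :=
          Finset.sum_le_sum fun k hk =>
            select_avg hloc h k K (Nat.lt_succ_iff.1 (Finset.mem_range.1 hk))
      _ = (1 - (1 / 2 : ℝ) ^ (K + 1)) * (Sqc Q K).card := by
          rw [← Finset.sum_mul, select_geo]
      _ < (Sqc Q K).card := by
          have h2 : (0 : ℝ) < (1 / 2) ^ (K + 1) := by positivity
          nlinarith
  obtain ⟨s, hs, hs1⟩ := Finset.exists_lt_of_sum_lt h1
  refine ⟨s, (mem_Sqc hs).1, fun k hk => lt_of_le_of_lt ?_ hs1⟩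
  exact Finset.single_le_sum (f := fun k => f k s) (fun i _ => hpos i s)
    (Finset.mem_range.2 (Nat.lt_succ_iff.2 hk))

/-- as `Pool.Agent.TwR.select` (file TwR/Sel.lean, same proof with `T` in place of `ℕ`) -/
theorem select {Q : ℕ → Finset T} {f : ℕ → (ℕ → T) → ℝ}
    (hloc : ∀ k, ∀ s s' : ℕ → T, (∀ j < k, s j = s' j) → f k s = f k s')
    (hpos : ∀ k s, 0 ≤ f k s) (hne : ∀ k, (Q k).Nonempty)
    (h : ∀ k, ∑ s ∈ Sqc Q k, f k s ≤ (1 / 2) ^ (k + 1) * (Sqc Q k).card) :
    ∃ s : ℕ → T, (∀ j, s j ∈ Q j) ∧ ∀ k, f k s < 1 := by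
  classical
  let X := (j : ℕ) → {x // x ∈ Q j}
  let _ : ∀ j, TopologicalSpace {x // x ∈ Q j} := fun _ => ⊥
  have : ∀ j, DiscreteTopology {x // x ∈ Q j} := fun _ => ⟨rfl⟩
  let vl : X → ℕ → T := fun s j => (s j).1
  let C : ℕ → Set X := fun K => {s | ∀ k ≤ K, f k (vl s) < 1}
  have hmono : ∀ K, C (K + 1) ⊆ C K := fun K s hs k hk => hs k (hk.trans (Nat.le_succ K))
  have hcl : ∀ K, IsClosed (C K) := by
    intro K
    let r : X → ((j : Fin K) → {x // x ∈ Q j}) := fun s j => s j
    have hr : Continuous r := continuous_pi (fun j => continuous_apply (j : ℕ))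
    have hpre : C K = r ⁻¹' {t | ∃ s : X, r s = t ∧ s ∈ C K} := by
      ext s
      constructor
      · intro hs
        exact ⟨s, rfl, hs⟩
      · rintro ⟨s', hs', hC⟩ k hk
        rw [← hloc k (vl s') (vl s)]
        · exact hC k hk
        · intro j hj
          have := congrFun hs' ⟨j, hj.trans_le hk⟩
          exact congrArg Subtype.val this
    rw [hpre]
    exact (isClosed_discrete _).preimage hr
  have hnon : ∀ K, (C K).Nonempty := by
    intro K
    obtain ⟨s, hs, hf⟩ := select_fin hloc hpos hne h K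
    refine ⟨fun j => if hj : j < K then ⟨s j, hs j hj⟩ else ⟨(hne j).choose, (hne j).choose_spec⟩, ?_⟩
    intro k hk
    rw [hloc k _ s]
    · exact hf k hk
    · intro j hj
      show (if hj : j < K then (⟨s j, hs j hj⟩ : {x // x ∈ Q j})
        else ⟨(hne j).choose, (hne j).choose_spec⟩).1 = s j
      rw [dif_pos (hj.trans_le hk)]
  have : ∀ j, Finite {x // x ∈ Q j} := fun j => inferInstance
  have : ∀ j, CompactSpace {x // x ∈ Q j} := fun j => Finite.compactSpace
  obtain ⟨s, hs⟩ := IsCompact.nonempty_iInter_of_sequence_nonempty_isCompact_isClosed C hmono hnon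
    ((hcl 0).isCompact) hcl
  exact ⟨vl s, fun j => (s j).2, fun k => Set.mem_iInter.1 hs k k le_rfl⟩
-- END select

end Pool.Agent.MnR
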