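import Pool.Agent.MnR.Fou
import Pool.Agent.MnR.Sel

/-! The probability of a coincidence at one position and at all positions. -/

set_option autoImplicit false

namespace Pool.Agent.MnR

open Finset Pool.Agent.TwR

variable {g : ℕ} {β : ℝ} {m u J M : ℕ → ℕ} {k0 : ℕ}

-- BEGIN posBD
open Classical in
private theorem posBD_sum {A : Finset ℕ} {B : Finset (ℕ → ℕ)} {P : Ch → Prop} {N : ℕ}
    (h : ∀ a ∈ A, (B.filter (fun f => P (a, f))).card * N ≤ B.card) :
    ((A ×ˢ B).filter (fun c => P c)).card * N ≤ (A ×ˢ B).card := by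
  rw [Finset.card_filter, Finset.sum_product, Finset.sum_mul, Finset.card_product]
  calc ∑ a ∈ A, (∑ f ∈ B, if P (a, f) then 1 else 0) * N = ∑ a ∈ A, (B.filter (fun f => P (a, f))).card * N := by
        apply Finset.sum_congr rfl
        intro a _
        rw [Finset.card_filter]
    _ ≤ ∑ _a ∈ A, B.card := Finset.sum_le_sum h
    _ = A.card * B.card := by rw [Finset.sum_const, smul_eq_mul]

open Classical in
private theorem posBD_mem {k l r : ℕ} {x : Tu r} (hx : x ∈ Tp u r k l) :
    Function.Injective x.1 ∧ Function.Injective x.2 ∧ (∀ i, x.1 i ≤ 2 ^ u k) ∧ ∀ i, x.2 i ≤ 2 ^ u l := by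
  unfold Tp at hx
  rw [Finset.mem_filter, Finset.mem_product, Fintype.mem_piFinset, Fintype.mem_piFinset] at hx
  obtain ⟨⟨h1, h2⟩, h3, h4⟩ := hx
  refine ⟨h3, h4, fun i => ?_, fun i => ?_⟩
  · have := h1 i
    unfold Pr at this
    rw [Finset.mem_filter, Finset.mem_Ioc] at this
    exact this.1.2
  · have := h2 i
    unfold Pr at this
    rw [Finset.mem_filter, Finset.mem_Ioc] at this
    exact this.1.2

open Classical in
/-- random digits of the `v i`. PROOF. For each `h < HH m g j` apply `prob_X` with `y = x.2`,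
`a i = dgt (m j) (arg ..)`; sum over `h` (`Finset.card_filter`, `Finset.sum_product`). -/
theorem pos_B {k l j r : ℕ} {x : Tu r} (hx : x ∈ Tp u r k l) (hdom : 2 ^ u l < M j)
    (h1 : J l ≤ j) (h2 : j < l) (h3 : j < J k) :
    ((Qs m M g j).filter (fun c => Ev m J g k l x j c)).card * 2 ^ (m j * r) ≤ (Qs m M g j).card := by
  obtain ⟨-, hi, -, hb⟩ := posBD_mem hx
  unfold Qs
  apply posBD_sum
  intro h _
  have hp := prob_X (M := M j) (D := 2 ^ m j) x.2 hi (fun i => (hb i).trans_lt hdom)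
    (fun i => dgt (m j) (arg m g j h (Real.log (x.1 i))))
  rw [← pow_mul] at hp
  refine le_trans (Nat.mul_le_mul_right _ (Finset.card_le_card ?_)) hp
  intro f hf
  rw [Finset.mem_filter] at hf ⊢
  refine ⟨hf.1, fun i => ?_⟩
  have h4 := hf.2 i
  simp only [dg, if_pos h3, if_pos h2, if_neg (not_lt.2 h1)] at h4
  rw [add_comm (f (x.2 i)), add_comm (f (x.2 0))]
  exact h4

open Classical in
/-- random digits of the `p i` -/
theorem pos_D {k l j r : ℕ} {x : Tu r} (hx : x ∈ Tp u r k l) (hdom : 2 ^ u k < M j)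
    (h1 : J k ≤ j) (h2 : l ≤ j) :
    ((Qs m M g j).filter (fun c => Ev m J g k l x j c)).card * 2 ^ (m j * r) ≤ (Qs m M g j).card := by
  obtain ⟨hi, -, hb, -⟩ := posBD_mem hx
  unfold Qs
  apply posBD_sum
  intro h _
  have hp := prob_X (M := M j) (D := 2 ^ m j) x.1 hi (fun i => (hb i).trans_lt hdom) (fun _ => 0)
  rw [← pow_mul] at hp
  refine le_trans (Nat.mul_le_mul_right _ (Finset.card_le_card ?_)) hp
  intro f hf
  rw [Finset.mem_filter] at hf ⊢
  refine ⟨hf.1, fun i => ?_⟩
  have h4 := hf.2 i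
  simp only [dg, if_neg (not_lt.2 h1), if_neg (not_lt.2 h2)] at h4
  exact h4
-- END posBD

-- BEGIN posC
private theorem posC_dep {m : ℕ → ℕ} {r j : ℕ} {p : Fin (r + 1) → ℕ} {T : Finset (Fin (r + 1))}
    (hT : ∀ i, Dep m p j i → i ∈ T)
    (b : {i : Fin (r + 1) // i ≠ 0 ∧ i ∉ T} → ℤ) (hb : ∀ s, |b s| ≤ 2 ^ m j) (hb0 : b ≠ 0) :
    (2 : ℝ) ^ (m j * r) / QQ m j ≤
      |∑ s, (b s : ℝ) * (Real.log (p s.1) - Real.log (p 0))| := by
  classical
  by_contra hcon
  push Not at hcon
  set a : Fin (r + 1) → ℤ := fun s => if h : s ≠ 0 ∧ s ∉ T then b ⟨s, h⟩ else 0 with ha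
  have hsum : ∑ s, (a s : ℝ) * (Real.log (p s) - Real.log (p 0)) =
      ∑ s, (b s : ℝ) * (Real.log (p s.1) - Real.log (p 0)) := by
    rw [← Fintype.sum_subtype_add_sum_subtype (fun s : Fin (r + 1) => s ≠ 0 ∧ s ∉ T)]
    have e1 : ∑ s : {s : Fin (r + 1) // ¬ (s ≠ 0 ∧ s ∉ T)},
        ((a s.1 : ℤ) : ℝ) * (Real.log (p s.1) - Real.log (p 0)) = 0 := by
      refine Finset.sum_eq_zero fun s _ => ?_
      have : a s.1 = 0 := dif_neg s.2
      rw [this, Int.cast_zero, zero_mul]
    rw [e1, add_zero]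
    refine Finset.sum_congr rfl fun s _ => ?_
    have : a s.1 = b s := dif_pos s.2
    rw [this]
  have hne : (Finset.univ.filter fun s => a s ≠ 0).Nonempty := by
    by_contra hem
    rw [Finset.not_nonempty_iff_eq_empty, Finset.filter_eq_empty_iff] at hem
    apply hb0
    funext s
    have h1 := hem (Finset.mem_univ s.1)
    rw [not_not] at h1
    have h2 : a s.1 = b s := dif_pos s.2
    rw [← h2, h1]
    rfl
  obtain ⟨i, hi, hmax⟩ := (Finset.univ.filter fun s => a s ≠ 0).exists_max_image id hne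
  have hai : a i ≠ 0 := (Finset.mem_filter.1 hi).2
  have hiT : i ≠ 0 ∧ i ∉ T := by
    by_contra h
    exact hai (dif_neg h)
  apply hiT.2
  apply hT
  refine ⟨a, fun s hs => ?_, dif_neg (fun h => h.1 rfl), hai, fun s => ?_, ?_⟩
  · by_contra h
    have h1 := hmax s (Finset.mem_filter.2 ⟨Finset.mem_univ s, h⟩)
    exact absurd hs (not_lt.2 h1)
  · by_cases h : s ≠ 0 ∧ s ∉ T
    · have : a s = b ⟨s, h⟩ := dif_pos h
      rw [this]
      exact hb _
    · have : a s = 0 := dif_neg h
      rw [this, abs_zero]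
      positivity
  · rw [hsum]
    exact hcon

private theorem posC_small {m : ℕ → ℕ} {j c r : ℕ} (hr : r ≤ g) (hc : c ≤ r)
    {t : ℝ} (ht : t ≤ c * (2 ^ m j * (7 / 5))) : 2 * QQ m j * t ≤ (HH m g j : ℝ) := by
  have hQ : QQ m j ≤ 2 ^ sg m j / 16 := by
    rw [QQ]
    refine div_le_div_of_nonneg_left (by positivity) (by norm_num) ?_
    have : (1 : ℝ) ≤ 8 ^ j := one_le_pow₀ (by norm_num)
    linarith
  have hQ0 : 0 < QQ m j := QQ_pos m j
  have hg : (g : ℝ) ≤ 2 ^ g := by
    have := (Nat.lt_two_pow_self (n := g)).le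
    exact_mod_cast this
  have hcg : (c : ℝ) ≤ g := by exact_mod_cast hc.trans hr
  have h1 : t ≤ 2 ^ g * (2 ^ m j * (7 / 5)) :=
    ht.trans (mul_le_mul_of_nonneg_right (hcg.trans hg) (by positivity))
  have hH : (HH m g j : ℝ) = 2 ^ sg m j * 2 ^ m j * 2 ^ g := by
    rw [HH, sg, Finset.sum_range_succ]
    push_cast
    rw [pow_add, pow_add]
    rfl
  rw [hH]
  calc 2 * QQ m j * t ≤ 2 * QQ m j * (2 ^ g * (2 ^ m j * (7 / 5))) :=
        mul_le_mul_of_nonneg_left h1 (by positivity)
    _ ≤ 2 * (2 ^ sg m j / 16) * (2 ^ g * (2 ^ m j * (7 / 5))) :=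
        mul_le_mul_of_nonneg_right (by linarith) (by positivity)
    _ ≤ 2 ^ sg m j * 2 ^ m j * 2 ^ g := by
        have : (0 : ℝ) < 2 ^ sg m j * 2 ^ m j * 2 ^ g := by positivity
        nlinarith

open Classical in
/-- logarithm digits of the `p i`. PROOF. Fix the random part. `prob_fourier` with
`ι = {i // i ≠ 0 ∧ i ∉ T}`, `x i = log (p i) - log (p 0)`, `Q = QQ m j`, `H = HH m g j`; `card ι = r - T.card`
(`0 ∉ T`). `hsmall`: `2 Q |sum| ≤ 2 * (2^sg m j / 16) * (r + 1) * 2^m j * (7 / 5) ≤ 2 ^ (sg m (j+1) + g)`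
(`r + 1 ≤ 2 ^ (g + 1)`). `hind`: extend `b` by `0`, let `i` be the largest index with `b i ≠ 0`; `i ∉ T` is not
dependent, so `|sum| ≥ 2^(m j * r) / QQ m j`. -/
theorem pos_C {k l j r : ℕ} (hr : r ≤ g) (hm : 3 ≤ m j) {x : Tu r} (hx : x ∈ Tp u r k l)
    (h1 : l ≤ j) (h2 : j < J k) {T : Finset (Fin (r + 1))} (h0 : 0 ∉ T)
    (hT : ∀ i, Dep m x.1 j i → i ∈ T) :
    (((Qs m M g j).filter (fun c => Ev m J g k l x j c)).card : ℝ) * 2 ^ (m j * (r - T.card)) ≤
      2 ^ (4 * g + 1) * (Qs m M g j).card := by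
  have hxP : ∀ i, x.1 i ∈ Pr (u k) := by
    rw [Tp, Finset.mem_filter, Finset.mem_product, Fintype.mem_piFinset] at hx
    exact hx.1.1
  have hcι : Fintype.card {i : Fin (r + 1) // i ≠ 0 ∧ i ∉ T} = r - T.card := by
    rw [Fintype.card_subtype]
    have e1 : (Finset.univ.filter fun i : Fin (r + 1) => i ≠ 0 ∧ i ∉ T) = Finset.univ \ insert 0 T := by
      ext i
      simp [not_or]
    rw [e1, Finset.card_sdiff_of_subset (Finset.subset_univ _), Finset.card_insert_of_notMem h0,
      Finset.card_univ, Fintype.card_fin]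
    omega
  have hcr : Fintype.card {i : Fin (r + 1) // i ≠ 0 ∧ i ∉ T} ≤ r := by
    rw [hcι]
    exact Nat.sub_le _ _
  set B : Finset ℕ := (range (HH m g j)).filter fun h =>
    ∀ i, dgt (m j) (arg m g j h (Real.log (x.1 i))) = dgt (m j) (arg m g j h (Real.log (x.1 0))) with hB
  have hfil : (Qs m M g j).filter (fun c => Ev m J g k l x j c) = B ×ˢ Fs (M j) (2 ^ m j) := by
    ext ⟨h, f⟩
    simp only [Qs, Finset.mem_filter, Finset.mem_product, hB, Ev, dg, if_pos h2, if_neg (not_lt.2 h1),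
      add_zero]
    tauto
  have hHpos : 0 < HH m g j := by
    rw [HH]
    positivity
  have hQ0 : 0 < QQ m j := QQ_pos m j
  have key := prob_fourier (ι := {i : Fin (r + 1) // i ≠ 0 ∧ i ∉ T})
    (fun s => Real.log (x.1 s.1) - Real.log (x.1 0)) (m := m j) hm (Q := QQ m j) hQ0
    (H := HH m g j) hHpos ?_ ?_ (B := B) ?_
  · rw [hcι] at key
    rw [hfil, Finset.card_product, Qs, Finset.card_product, Finset.card_range]
    push_cast
    have h3 : (2 : ℝ) ^ (4 * (r - T.card) + 1) ≤ 2 ^ (4 * g + 1) :=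
      pow_le_pow_right₀ (by norm_num) (by omega)
    have h4 : (B.card : ℝ) * 2 ^ (m j * (r - T.card)) ≤ 2 ^ (4 * g + 1) * HH m g j :=
      key.trans (mul_le_mul_of_nonneg_right h3 (by positivity))
    have h5 : (0 : ℝ) ≤ (Fs (M j) (2 ^ m j)).card := by positivity
    calc (B.card : ℝ) * (Fs (M j) (2 ^ m j)).card * 2 ^ (m j * (r - T.card))
        = (B.card : ℝ) * 2 ^ (m j * (r - T.card)) * (Fs (M j) (2 ^ m j)).card := by ring
      _ ≤ 2 ^ (4 * g + 1) * HH m g j * (Fs (M j) (2 ^ m j)).card :=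
          mul_le_mul_of_nonneg_right h4 h5
      _ = _ := by ring
  · intro b hb
    refine posC_small hr hcr ?_
    refine (Finset.abs_sum_le_sum_abs _ _).trans ?_
    have h3 : ∀ s ∈ (Finset.univ : Finset {i : Fin (r + 1) // i ≠ 0 ∧ i ∉ T}),
        |(b s : ℝ) * (Real.log (x.1 s.1) - Real.log (x.1 0))| ≤ 2 ^ m j * (7 / 5) := by
      intro s _
      rw [abs_mul]
      have h4 : |(b s : ℝ)| ≤ 2 ^ m j := by exact_mod_cast hb s
      exact mul_le_mul h4 (log_Pr (hxP s.1) (hxP 0)) (abs_nonneg _) (by positivity)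
    have h4 := Finset.sum_le_card_nsmul _ _ _ h3
    rwa [Finset.card_univ, nsmul_eq_mul] at h4
  · intro b hb hb0
    refine le_trans ?_ (posC_dep hT b hb hb0)
    refine div_le_div_of_nonneg_right ?_ hQ0.le
    exact pow_le_pow_right₀ (by norm_num) (Nat.mul_le_mul_left _ hcr)
  · intro h hh
    rw [hB, Finset.mem_filter, Finset.mem_range] at hh
    refine ⟨hh.1, fun s => ?_⟩
    have h3 := nd_dgt (hh.2 s.1)
    have h4 : QQ m j * (1 + (h : ℝ) / HH m g j) * (Real.log (x.1 s.1) - Real.log (x.1 0)) =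
        arg m g j h (Real.log (x.1 s.1)) - arg m g j h (Real.log (x.1 0)) := by
      rw [arg, arg]
      ring
    show nd (QQ m j * (1 + (h : ℝ) / HH m g j) * (Real.log (x.1 s.1) - Real.log (x.1 0))) < 1 / 2 ^ m j
    rw [h4]
    exact h3
-- END posC

-- BEGIN posP
theorem posP_sum (m : ℕ → ℕ) (a b k c : ℕ) (hb : b ≤ k) :
    ∑ j ∈ range k, (if a ≤ j ∧ j < b then m j * c else 0) = c * (sg m b - sg m a) := by
  rw [← Finset.sum_filter]
  rcases le_total a b with hab | hab
  · have h1 : (range k).filter (fun j => a ≤ j ∧ j < b) = Ico a b := by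
      ext j
      simp only [Finset.mem_filter, Finset.mem_range, Finset.mem_Ico]
      omega
    rw [h1, ← Finset.sum_mul, mul_comm]
    congr 1
    have h2 := Finset.sum_range_add_sum_Ico m hab
    unfold sg
    omega
  · have h1 : (range k).filter (fun j => a ≤ j ∧ j < b) = ∅ := by
      apply Finset.filter_eq_empty_iff.2
      intro j _
      omega
    have h2 : sg m b ≤ sg m a := Finset.sum_le_sum_of_subset (Finset.range_subset_range.2 hab)
    rw [h1, Finset.sum_empty, Nat.sub_eq_zero_of_le h2, mul_zero]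

open Classical in
theorem posP_aux (h : Params g β m u J M k0) {k l r : ℕ} (hr : r ≤ g) (hl0 : k0 ≤ l)
    (hl : l < J k) {x : Tu r} (hx : x ∈ Tp u r k l) (T : Finset (Fin (r + 1)))
    (hT : T = Ds m J k l x.1) :
    (∏ j ∈ range k, (((Qs m M g j).filter (fun c => Ev m J g k l x j c)).card : ℝ)) *
        2 ^ wex m J k l r T.card ≤
      2 ^ ((4 * g + 1) * k) * ∏ j ∈ range k, ((Qs m M g j).card : ℝ) := by
  have hJk := h.Jk k
  have hJl := h.Jk l
  have hlo : l ≤ lo k l := le_max_left _ _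
  have hm8 : ∀ j, 8 ≤ m j := by
    intro j
    induction j with
    | zero => exact h.m0
    | succ j ih => have := h.m2 j; omega
  set e : ℕ → ℕ := fun j => (if J l ≤ j ∧ j < l then m j * r else 0) +
    (if lo k l ≤ j ∧ j < J k then m j * (r - T.card) else 0) +
    (if J k ≤ j ∧ j < k then m j * r else 0) with he
  have hC : (1 : ℝ) ≤ 2 ^ (4 * g + 1) := one_le_pow₀ (by norm_num)
  have key : ∀ j ∈ range k,
      (((Qs m M g j).filter (fun c => Ev m J g k l x j c)).card : ℝ) * 2 ^ e j ≤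
        2 ^ (4 * g + 1) * (Qs m M g j).card := by
    intro j hj
    rw [Finset.mem_range] at hj
    have htriv : ((Qs m M g j).card : ℝ) ≤ 2 ^ (4 * g + 1) * (Qs m M g j).card :=
      le_mul_of_one_le_left (Nat.cast_nonneg _) hC
    by_cases c1 : J l ≤ j ∧ j < l
    · have e1 : e j = m j * r := by
        simp only [he]
        rw [if_pos c1, if_neg (by omega), if_neg (by omega)]
        omega
      rw [e1]
      have h1 := pos_B (g := g) (m := m) (M := M) (J := J) hx (h.dom l j hl0 c1.1 c1.2) c1.1 c1.2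
        (by omega)
      have h2 : (((Qs m M g j).filter (fun c => Ev m J g k l x j c)).card : ℝ) * 2 ^ (m j * r) ≤
          (Qs m M g j).card := by exact_mod_cast h1
      exact h2.trans htriv
    · by_cases c2 : lo k l ≤ j ∧ j < J k
      · have e1 : e j = m j * (r - T.card) := by
          simp only [he]
          rw [if_neg c1, if_pos c2, if_neg (by omega)]
          omega
        rw [e1]
        refine pos_C hr (by have := hm8 j; omega) hx (by omega) c2.2 ?_ ?_
        · rw [hT]
          intro h0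
          unfold Ds at h0
          rw [Finset.mem_filter] at h0
          obtain ⟨_, j', _, _, a, _, ha0, ha1, _⟩ := h0
          exact ha1 ha0
        · intro i hi
          rw [hT]
          unfold Ds
          rw [Finset.mem_filter]
          exact ⟨Finset.mem_univ _, j, c2.1, c2.2, hi⟩
      · by_cases c3 : J k ≤ j ∧ j < k
        · have e1 : e j = m j * r := by
            simp only [he]
            rw [if_neg c1, if_neg c2, if_pos c3]
            omega
          rw [e1]
          have h1 := pos_D (g := g) (m := m) (M := M) (J := J) hx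
            (h.dom k j (by omega) c3.1 c3.2) c3.1 (by omega)
          have h2 : (((Qs m M g j).filter (fun c => Ev m J g k l x j c)).card : ℝ) *
              2 ^ (m j * r) ≤ (Qs m M g j).card := by exact_mod_cast h1
          exact h2.trans htriv
        · have e1 : e j = 0 := by
            simp only [he]
            rw [if_neg c1, if_neg c2, if_neg c3]
          rw [e1, pow_zero, mul_one]
          refine le_trans ?_ htriv
          exact_mod_cast Finset.card_filter_le _ _
  have hsum : ∑ j ∈ range k, e j = wex m J k l r T.card := by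
    simp only [he, Finset.sum_add_distrib]
    rw [posP_sum m (J l) l k r (by omega), posP_sum m (lo k l) (J k) k (r - T.card) hJk,
      posP_sum m (J k) k k r le_rfl]
    rfl
  rw [← hsum, ← Finset.prod_pow_eq_pow_sum, ← Finset.prod_mul_distrib]
  refine (Finset.prod_le_prod (fun j _ => by positivity) key).trans (le_of_eq ?_)
  rw [Finset.prod_mul_distrib, Finset.prod_const, Finset.card_range, ← pow_mul]

open Classical in
/-- PROOF. Position by position: `j < J l` or `l ≤ j < lo k l`: trivial; `J l ≤ j < l`: `pos_B`; `lo k l ≤ j < J k`: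
`pos_C` with `T = Ds m J k l x.1`; `J k ≤ j`: `pos_D`. The product of the `2 ^ (m j * r)` over `[J l, l)` is
`2 ^ (r * (sg m l - sg m (J l)))` and so on, the product of the constants is at most `2 ^ ((4 g + 1) k)`. -/
theorem pos_prod (h : Params g β m u J M k0) {k l : ℕ} (hl0 : k0 ≤ l) (hl : l < J k)
    {x : Tu (rr g k l)} (hx : x ∈ Tp u (rr g k l) k l) :
    (∏ j ∈ range k, (((Qs m M g j).filter (fun c => Ev m J g k l x j c)).card : ℝ)) *
        2 ^ wex m J k l (rr g k l) (Ds m J k l x.1).card ≤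
      2 ^ ((4 * g + 1) * k) * ∏ j ∈ range k, ((Qs m M g j).card : ℝ) := by
  have hr : rr g k l ≤ g := by
    unfold rr
    split_ifs
    · exact h.g1
    · exact le_rfl
  exact posP_aux h hr hl0 hl hx _ rfl
-- END posP

end Pool.Agent.MnR
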